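import Pool.Agent.Lib_helper39.UE.Defs

/-!
Block AN of MP_82d614_pr: the threshold `dk` and the increment function `gd`.
-/

set_option autoImplicit false

namespace Pool.Agent.Lib_helper39.UE

open Finset Set

namespace AN

/-- `h(a) = 1 - exp(-d a^(n+2)) - a` -/
noncomputable def h (n : ℕ) (d a : ℝ) : ℝ := 1 - Real.exp (-d * a ^ (n + 2)) - a

lemma h_cont (n : ℕ) (d : ℝ) : Continuous (h n d) := by
  unfold h; fun_prop

/-- the fixed points -/
def S (n : ℕ) (d : ℝ) : Set ℝ := {x : ℝ | 0 ≤ x ∧ x ≤ 1 ∧ x = 1 - Real.exp (-d * x ^ (n + 2))}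

lemma mem_S {n : ℕ} {d x : ℝ} : x ∈ S n d ↔ 0 ≤ x ∧ x ≤ 1 ∧ h n d x = 0 := by
  unfold S h
  simp only [Set.mem_ofPred_eq]
  constructor
  · rintro ⟨a, b, c⟩; exact ⟨a, b, by linarith⟩
  · rintro ⟨a, b, c⟩; exact ⟨a, b, by linarith⟩

lemma rho_eq (n : ℕ) (d : ℝ) : rho (n + 3) d = sSup (S n d) := rfl

lemma zero_mem (n : ℕ) (d : ℝ) : (0 : ℝ) ∈ S n d := by
  rw [mem_S]
  refine ⟨le_rfl, zero_le_one, ?_⟩
  simp [h]

lemma S_closed (n : ℕ) (d : ℝ) : IsClosed (S n d) := by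
  have : S n d = Set.Icc 0 1 ∩ (h n d) ⁻¹' {0} := by
    ext x
    rw [mem_S]
    simp only [Set.mem_inter_iff, Set.mem_Icc, Set.mem_preimage, Set.mem_singleton_iff]
    tauto
  rw [this]
  exact isClosed_Icc.inter (isClosed_singleton.preimage (h_cont n d))

lemma S_bdd (n : ℕ) (d : ℝ) : BddAbove (S n d) := ⟨1, fun x hx => hx.2.1⟩

lemma rho_mem (n : ℕ) (d : ℝ) : rho (n + 3) d ∈ S n d := by
  rw [rho_eq]
  exact (S_closed n d).csSup_mem ⟨0, zero_mem n d⟩ (S_bdd n d)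

lemma h_one (n : ℕ) (d : ℝ) : h n d 1 < 0 := by
  unfold h
  have := Real.exp_pos (-d * 1 ^ (n + 2))
  linarith

lemma rho_lt_one (n : ℕ) (d : ℝ) : rho (n + 3) d < 1 := by
  have hm := mem_S.1 (rho_mem n d)
  refine lt_of_le_of_ne hm.2.1 (fun he => ?_)
  have := h_one n d
  rw [← he, hm.2.2] at this
  exact lt_irrefl _ this

lemma h_neg (n : ℕ) (d : ℝ) {x : ℝ} (hx : rho (n + 3) d < x) (hx1 : x ≤ 1) : h n d x < 0 := by
  by_contra hcon
  push Not at hcon
  have h1 : (0 : ℝ) ∈ Set.Icc (h n d 1) (h n d x) := ⟨(h_one n d).le, hcon⟩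
  obtain ⟨y, hy, hy0⟩ := intermediate_value_Icc' hx1 (h_cont n d).continuousOn h1
  have hr0 := (mem_S.1 (rho_mem n d)).1
  have : y ∈ S n d := mem_S.2 ⟨by linarith [hy.1], hy.2, hy0⟩
  have h2 : y ≤ rho (n + 3) d := by
    rw [rho_eq]
    exact le_csSup (S_bdd n d) this
  linarith [hy.1]

lemma gd_eq (n : ℕ) (d a : ℝ) : gd (n + 3) d a =
    d * a ^ (n + 2) - (1 - Real.exp (-d * a ^ (n + 2))) -
      d * (1 - 1 / ((n : ℝ) + 3)) * a ^ (n + 3) := by
  unfold gd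
  push_cast
  rfl

lemma gd_deriv (n : ℕ) (d a : ℝ) : HasDerivAt (gd (n + 3) d)
    (d * ((n : ℝ) + 2) * a ^ (n + 1) * h n d a) a := by
  have e : gd (n + 3) d = fun a => d * a ^ (n + 2) - (1 - Real.exp (-d * a ^ (n + 2))) -
      d * (1 - 1 / ((n : ℝ) + 3)) * a ^ (n + 3) := by
    funext a; exact gd_eq n d a
  rw [e]
  have h1 : HasDerivAt (fun a : ℝ => a ^ (n + 2)) (((n + 2 : ℕ) : ℝ) * a ^ (n + 1)) a :=
    hasDerivAt_pow (n + 2) a
  have h2 : HasDerivAt (fun a : ℝ => a ^ (n + 3)) (((n + 3 : ℕ) : ℝ) * a ^ (n + 2)) a :=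
    hasDerivAt_pow (n + 3) a
  have h3 := (h1.const_mul (-d)).exp
  have h4 := ((h1.const_mul d).sub (h3.const_sub 1)).sub
    (h2.const_mul (d * (1 - 1 / ((n : ℝ) + 3))))
  refine h4.congr_deriv ?_
  unfold h
  push_cast
  have : (n : ℝ) + 3 ≠ 0 := by positivity
  field_simp
  ring

lemma gd_anti (n : ℕ) {d : ℝ} (hd : 0 < d) :
    AntitoneOn (gd (n + 3) d) (Set.Icc (rho (n + 3) d) 1) := by
  apply antitoneOn_of_deriv_nonpos (convex_Icc _ _)
  · exact fun x _ => (gd_deriv n d x).continuousAt.continuousWithinAt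
  · exact fun x _ => (gd_deriv n d x).differentiableAt.differentiableWithinAt
  · intro x hx
    rw [interior_Icc] at hx
    rw [(gd_deriv n d x).deriv]
    have h1 := h_neg n d hx.1 hx.2.le
    have hr0 := (mem_S.1 (rho_mem n d)).1
    have hx0 : 0 < x := lt_of_le_of_lt hr0 hx.1
    have h2 : 0 < d * ((n : ℝ) + 2) * x ^ (n + 1) := by positivity
    exact (mul_neg_of_pos_of_neg h2 h1).le

lemma gd_rho (n : ℕ) (d : ℝ) : gd (n + 3) d (rho (n + 3) d) =
    -(rho (n + 3) d - d * rho (n + 3) d ^ (n + 2) +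
      (1 - 1 / ((n : ℝ) + 3)) * d * rho (n + 3) d ^ (n + 3)) := by
  rw [gd_eq]
  have := (mem_S.1 (rho_mem n d)).2.2
  unfold h at this
  linear_combination (-1 : ℝ) * this

lemma v_deriv (n : ℕ) (d : ℝ) {x : ℝ} (hx : x < 1) :
    HasDerivAt (fun x => Real.log (1 - x) + d * x ^ (n + 2))
      (-1 / (1 - x) + d * (((n + 2 : ℕ) : ℝ) * x ^ (n + 1))) x := by
  have h1 : HasDerivAt (fun x : ℝ => 1 - x) (-1) x := by
    simpa using (hasDerivAt_id x).const_sub 1
  have h2 := h1.log (by linarith : (1 : ℝ) - x ≠ 0)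
  exact h2.add ((hasDerivAt_pow (n + 2) x).const_mul d)

lemma u_mono (n : ℕ) : MonotoneOn (fun x : ℝ => x ^ (n + 1) * (1 - x))
    (Set.Icc 0 (((n : ℝ) + 1) / (n + 2))) := by
  have hder : ∀ x : ℝ, HasDerivAt (fun x : ℝ => x ^ (n + 1) * (1 - x))
      ((((n + 1 : ℕ) : ℝ) * x ^ n) * (1 - x) + x ^ (n + 1) * (-1)) x := by
    intro x
    have h1 : HasDerivAt (fun x : ℝ => 1 - x) (-1) x := by
      simpa using (hasDerivAt_id x).const_sub 1
    exact (hasDerivAt_pow (n + 1) x).mul h1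
  apply monotoneOn_of_deriv_nonneg (convex_Icc _ _)
  · exact fun x _ => (hder x).continuousAt.continuousWithinAt
  · exact fun x _ => (hder x).differentiableAt.differentiableWithinAt
  · intro x hx
    rw [interior_Icc] at hx
    rw [(hder x).deriv]
    have h1 := hx.2
    rw [lt_div_iff₀ (by positivity)] at h1
    have h2 : (((n + 1 : ℕ) : ℝ) * x ^ n) * (1 - x) + x ^ (n + 1) * (-1) =
        x ^ n * (((n : ℝ) + 1) - x * (n + 2)) := by
      push_cast; ring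
    rw [h2]
    have := hx.1
    exact mul_nonneg (by positivity) (by linarith)

lemma u_anti (n : ℕ) : AntitoneOn (fun x : ℝ => x ^ (n + 1) * (1 - x))
    (Set.Icc (((n : ℝ) + 1) / (n + 2)) 1) := by
  have hder : ∀ x : ℝ, HasDerivAt (fun x : ℝ => x ^ (n + 1) * (1 - x))
      ((((n + 1 : ℕ) : ℝ) * x ^ n) * (1 - x) + x ^ (n + 1) * (-1)) x := by
    intro x
    have h1 : HasDerivAt (fun x : ℝ => 1 - x) (-1) x := by
      simpa using (hasDerivAt_id x).const_sub 1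
    exact (hasDerivAt_pow (n + 1) x).mul h1
  apply antitoneOn_of_deriv_nonpos (convex_Icc _ _)
  · exact fun x _ => (hder x).continuousAt.continuousWithinAt
  · exact fun x _ => (hder x).differentiableAt.differentiableWithinAt
  · intro x hx
    rw [interior_Icc] at hx
    rw [(hder x).deriv]
    have h1 := hx.1
    have h0 : (0 : ℝ) < ((n : ℝ) + 1) / (n + 2) := by positivity
    have hx0 : 0 < x := h0.trans h1
    rw [div_lt_iff₀ (by positivity)] at h1
    have h2 : (((n + 1 : ℕ) : ℝ) * x ^ n) * (1 - x) + x ^ (n + 1) * (-1) =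
        x ^ n * (((n : ℝ) + 1) - x * (n + 2)) := by
      push_cast; ring
    rw [h2]
    exact mul_nonpos_of_nonneg_of_nonpos (by positivity) (by linarith)

lemma v_pos_of_h {n : ℕ} {d x : ℝ} (hx : x < 1) (hh : 0 < h n d x) :
    0 < Real.log (1 - x) + d * x ^ (n + 2) := by
  unfold h at hh
  have h1 : Real.exp (-d * x ^ (n + 2)) < 1 - x := by linarith
  have h2 := Real.log_lt_log (Real.exp_pos _) h1
  rw [Real.log_exp] at h2
  linarith

lemma v_neg_of_h {n : ℕ} {d x : ℝ} (hx : x < 1) (hh : h n d x < 0) :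
    Real.log (1 - x) + d * x ^ (n + 2) < 0 := by
  unfold h at hh
  have h1 : 1 - x < Real.exp (-d * x ^ (n + 2)) := by linarith
  have h2 := Real.log_lt_log (by linarith) h1
  rw [Real.log_exp] at h2
  linarith

lemma v_zero_of_h {n : ℕ} {d x : ℝ} (hh : h n d x = 0) :
    Real.log (1 - x) + d * x ^ (n + 2) = 0 := by
  unfold h at hh
  have h1 : Real.exp (-d * x ^ (n + 2)) = 1 - x := by linarith
  rw [← h1, Real.log_exp]
  ring

/-- mean value theorem in the form: `f` differentiable, `f a < f b` gives a positive derivative -/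
lemma mvt_pos {f f' : ℝ → ℝ} {a b : ℝ} (hab : a < b) (hf : ∀ x ∈ Set.Icc a b, HasDerivAt f (f' x) x)
    (hlt : f a < f b) : ∃ x ∈ Set.Ioo a b, 0 < f' x := by
  obtain ⟨x, hx, he⟩ := exists_hasDerivAt_eq_slope f f' hab
    (fun x hx => (hf x hx).continuousAt.continuousWithinAt)
    (fun x hx => hf x (Set.Ioo_subset_Icc_self hx))
  refine ⟨x, hx, ?_⟩
  rw [he]
  exact div_pos (by linarith) (by linarith)

lemma mvt_neg {f f' : ℝ → ℝ} {a b : ℝ} (hab : a < b) (hf : ∀ x ∈ Set.Icc a b, HasDerivAt f (f' x) x)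
    (hlt : f b < f a) : ∃ x ∈ Set.Ioo a b, f' x < 0 := by
  obtain ⟨x, hx, he⟩ := exists_hasDerivAt_eq_slope f f' hab
    (fun x hx => (hf x hx).continuousAt.continuousWithinAt)
    (fun x hx => hf x (Set.Ioo_subset_Icc_self hx))
  refine ⟨x, hx, ?_⟩
  rw [he]
  exact div_neg_of_neg_of_pos (by linarith) (by linarith)

theorem gd_nonpos' (n : ℕ) (d : ℝ) (h0 : 0 < d) (h1 : d < dk (n + 3)) (a : ℝ)
    (ha0 : 0 ≤ a) (ha1 : a ≤ 1) : gd (n + 3) d a ≤ 0 := by
  have hrho : gd (n + 3) d (rho (n + 3) d) ≤ 0 := by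
    rw [gd_rho]
    by_contra hcon
    push Not at hcon
    have hmem : d ∈ {d : ℝ | 0 < d ∧ rho (n + 3) d - d * rho (n + 3) d ^ (n + 3 - 1) +
        (1 - 1 / ((n + 3 : ℕ) : ℝ)) * d * rho (n + 3) d ^ (n + 3) < 0} := by
      refine ⟨h0, ?_⟩
      have e : n + 3 - 1 = n + 2 := rfl
      rw [e]
      push_cast
      linarith
    have h2 : dk (n + 3) ≤ d := csInf_le ⟨0, fun x hx => hx.1.le⟩ hmem
    linarith
  have hrS := mem_S.1 (rho_mem n d)
  have hr1 := rho_lt_one n d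
  set r := rho (n + 3) d with hr
  by_contra hcon
  push Not at hcon
  have har : a < r := by
    by_contra hge
    push Not at hge
    have := gd_anti n h0 ⟨le_rfl, hr1.le⟩ ⟨hge, ha1⟩ hge
    rw [← hr] at this
    linarith
  have hg0 : gd (n + 3) d 0 = 0 := by
    rw [gd_eq]; simp
  have ha0' : 0 < a := by
    rcases ha0.eq_or_lt with h | h
    · rw [← h, hg0] at hcon; exact absurd hcon (lt_irrefl _)
    · exact h
  obtain ⟨z, hz, hz'⟩ := mvt_pos ha0' (fun x _ => gd_deriv n d x) (by rw [hg0]; exact hcon)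
  obtain ⟨y, hy, hy'⟩ := mvt_neg har (fun x _ => gd_deriv n d x) (by linarith)
  have hz0 : 0 < z := hz.1
  have hy0 : 0 < y := ha0'.trans hy.1
  have hhz : 0 < h n d z := by
    have : 0 < d * ((n : ℝ) + 2) * z ^ (n + 1) := by positivity
    exact (pos_iff_pos_of_mul_pos hz').1 this
  have hhy : h n d y < 0 := by
    have : 0 < d * ((n : ℝ) + 2) * y ^ (n + 1) := by positivity
    by_contra hge
    push Not at hge
    have := mul_nonneg this.le hge
    linarith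
  have hzy : z < y := hz.2.trans hy.1
  have hy1 : y < 1 := hy.2.trans hr1
  have hz1 : z < 1 := hzy.trans hy1
  have vz := v_pos_of_h hz1 hhz
  have vy := v_neg_of_h hy1 hhy
  have vr := v_zero_of_h hrS.2.2
  have hvd : ∀ {p q : ℝ}, q < 1 → ∀ x ∈ Set.Icc p q,
      HasDerivAt (fun x => Real.log (1 - x) + d * x ^ (n + 2))
      (-1 / (1 - x) + d * (((n + 2 : ℕ) : ℝ) * x ^ (n + 1))) x :=
    fun hq x hx => v_deriv n d (hx.2.trans_lt hq)
  obtain ⟨a1, ha1', p1⟩ := mvt_pos (f := fun x => Real.log (1 - x) + d * x ^ (n + 2)) hz0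
    (hvd hz1) (by simpa using vz)
  obtain ⟨a2, ha2', p2⟩ := mvt_neg (f := fun x => Real.log (1 - x) + d * x ^ (n + 2)) hzy
    (hvd hy1) (by linarith)
  obtain ⟨a3, ha3', p3⟩ := mvt_pos (f := fun x => Real.log (1 - x) + d * x ^ (n + 2)) hy.2
    (hvd hr1) (by rw [vr]; exact vy)
  have key : ∀ x : ℝ, x < 1 → (-1 / (1 - x) + d * (((n + 2 : ℕ) : ℝ) * x ^ (n + 1))) * (1 - x) =
      d * ((n : ℝ) + 2) * (x ^ (n + 1) * (1 - x)) - 1 := by
    intro x hx
    have : (1 : ℝ) - x ≠ 0 := by linarith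
    push_cast
    field_simp
    ring
  have l1 : a1 < 1 := ha1'.2.trans hz1
  have l2 : a2 < 1 := ha2'.2.trans hy1
  have l3 : a3 < 1 := ha3'.2.trans hr1
  have q1 : 1 < d * ((n : ℝ) + 2) * (a1 ^ (n + 1) * (1 - a1)) := by
    have := mul_pos p1 (by linarith : 0 < 1 - a1)
    rw [key a1 l1] at this
    linarith
  have q2 : d * ((n : ℝ) + 2) * (a2 ^ (n + 1) * (1 - a2)) < 1 := by
    have := mul_neg_of_neg_of_pos p2 (by linarith : 0 < 1 - a2)
    rw [key a2 l2] at this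
    linarith
  have q3 : 1 < d * ((n : ℝ) + 2) * (a3 ^ (n + 1) * (1 - a3)) := by
    have := mul_pos p3 (by linarith : 0 < 1 - a3)
    rw [key a3 l3] at this
    linarith
  have hdn : 0 < d * ((n : ℝ) + 2) := by positivity
  have h12 : a1 < a2 := ha1'.2.trans ha2'.1
  have h23 : a2 < a3 := ha2'.2.trans ha3'.1
  have h10 : 0 < a1 := ha1'.1
  rcases le_total a2 (((n : ℝ) + 1) / (n + 2)) with hc | hc
  · have := u_mono n ⟨h10.le, h12.le.trans hc⟩ ⟨(h10.trans h12).le, hc⟩ h12.le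
    simp only at this
    have := mul_le_mul_of_nonneg_left this hdn.le
    linarith
  · have := u_anti n ⟨hc, l2.le⟩ ⟨hc.trans h23.le, l3.le⟩ h23.le
    simp only at this
    have := mul_le_mul_of_nonneg_left this hdn.le
    linarith

theorem dk_le' (n : ℕ) : dk (n + 3) ≤ ((n + 3 : ℕ) : ℝ) := by
  have hd : (0 : ℝ) < ((n + 3 : ℕ) : ℝ) := by positivity
  set d : ℝ := ((n + 3 : ℕ) : ℝ) with hdd
  have hmem : d ∈ {d : ℝ | 0 < d ∧ rho (n + 3) d - d * rho (n + 3) d ^ (n + 3 - 1) +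
      (1 - 1 / ((n + 3 : ℕ) : ℝ)) * d * rho (n + 3) d ^ (n + 3) < 0} := by
    refine ⟨hd, ?_⟩
    have e : n + 3 - 1 = n + 2 := rfl
    rw [e]
    have h1 := gd_rho n d
    have hr1 := rho_lt_one n d
    have h2 := gd_anti n hd ⟨le_rfl, hr1.le⟩ ⟨hr1.le, le_rfl⟩ hr1.le
    have h3 : gd (n + 3) d 1 = Real.exp (-d) := by
      rw [gd_eq]
      have : (n : ℝ) + 3 ≠ 0 := by positivity
      simp only [one_pow, mul_one, hdd]
      push_cast
      field_simp
      ring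
    have h4 := Real.exp_pos (-d)
    have h5 : ((n + 3 : ℕ) : ℝ) = (n : ℝ) + 3 := by push_cast; ring
    rw [h5]
    linarith
  exact csInf_le ⟨0, fun x hx => hx.1.le⟩ hmem

end AN

theorem gd_nonpos (k : ℕ) (hk : 3 ≤ k) (d : ℝ) (h0 : 0 < d) (h1 : d < dk k) (a : ℝ)
    (ha0 : 0 ≤ a) (ha1 : a ≤ 1) : gd k d a ≤ 0 := by
  obtain ⟨n, rfl⟩ : ∃ n, k = n + 3 := ⟨k - 3, by omega⟩
  exact AN.gd_nonpos' n d h0 h1 a ha0 ha1

theorem dk_le (k : ℕ) (hk : 3 ≤ k) : dk k ≤ k := by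
  obtain ⟨n, rfl⟩ : ∃ n, k = n + 3 := ⟨k - 3, by omega⟩
  exact AN.dk_le' n

end Pool.Agent.Lib_helper39.UE
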