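import Pool.Agent.Lib_helper39.UE.Defs

/-! Block BERN of MP_82d614_pr: Bernoulli expectations over finite sets. -/

set_option autoImplicit false

namespace Pool.Agent.Lib_helper39.UE

open Finset

/-- Bernoulli expectation over the subsets of a finite set -/
noncomputable def bA {E : Type} (A : Finset E) (s : ℝ) (f : Finset E → ℝ) : ℝ :=
  ∑ G ∈ A.powerset, s ^ G.card * (1 - s) ^ (A.card - G.card) * f G

theorem bE_eq_bA {E : Type} [Fintype E] (s : ℝ) (f : Finset E → ℝ) : bE s f = bA univ s f := by
  unfold bE bA
  rw [Finset.powerset_univ, Finset.card_univ]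

theorem bA_congr {E : Type} (A : Finset E) (s : ℝ) (f g : Finset E → ℝ)
    (h : ∀ G, G ⊆ A → f G = g G) : bA A s f = bA A s g := by
  unfold bA
  refine Finset.sum_congr rfl fun G hG => ?_
  rw [h G (Finset.mem_powerset.1 hG)]

theorem bA_empty {E : Type} (s : ℝ) (f : Finset E → ℝ) : bA (∅ : Finset E) s f = f ∅ := by
  simp [bA]

theorem bA_insert {E : Type} [DecidableEq E] {a : E} {A : Finset E} (ha : a ∉ A) (s : ℝ)
    (f : Finset E → ℝ) :
    bA (insert a A) s f = (1 - s) * bA A s f + s * bA A s (fun G => f (insert a G)) := by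
  unfold bA
  rw [Finset.sum_powerset_insert ha, Finset.card_insert_of_notMem ha, Finset.mul_sum,
    Finset.mul_sum]
  congr 1
  · refine Finset.sum_congr rfl fun G hG => ?_
    have h1 : G.card ≤ A.card := Finset.card_le_card (Finset.mem_powerset.1 hG)
    have h2 : A.card + 1 - G.card = (A.card - G.card) + 1 := by omega
    rw [h2, pow_succ]
    ring
  · refine Finset.sum_congr rfl fun G hG => ?_
    have h0 : a ∉ G := fun h => ha (Finset.mem_powerset.1 hG h)
    rw [Finset.card_insert_of_notMem h0, Nat.add_sub_add_right, pow_succ]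
    ring

theorem bA_add {E : Type} (A : Finset E) (s : ℝ) (f g : Finset E → ℝ) :
    bA A s (fun G => f G + g G) = bA A s f + bA A s g := by
  unfold bA
  rw [← Finset.sum_add_distrib]
  refine Finset.sum_congr rfl fun G _ => ?_
  ring

theorem bA_mul {E : Type} (A : Finset E) (s c : ℝ) (f : Finset E → ℝ) :
    bA A s (fun G => c * f G) = c * bA A s f := by
  unfold bA
  rw [Finset.mul_sum]
  refine Finset.sum_congr rfl fun G _ => ?_
  ring

theorem bA_const {E : Type} (A : Finset E) (s c : ℝ) : bA A s (fun _ => c) = c := by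
  classical
  induction A using Finset.induction_on with
  | empty => rw [bA_empty]
  | insert a A ha ih =>
    rw [bA_insert ha, ih]
    ring

theorem bA_union {E : Type} [DecidableEq E] (A : Finset E) (s s' : ℝ) :
    ∀ f : Finset E → ℝ,
      bA A (1 - (1 - s) * (1 - s')) f = bA A s (fun G => bA A s' (fun X => f (G ∪ X))) := by
  induction A using Finset.induction_on with
  | empty =>
    intro f
    simp [bA_empty]
  | insert a A ha ih =>
    intro f
    have h1 : ∀ G : Finset E, bA (insert a A) s' (fun X => f (G ∪ X)) =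
        (1 - s') * bA A s' (fun X => f (G ∪ X)) +
          s' * bA A s' (fun X => f (insert a (G ∪ X))) := by
      intro G
      rw [bA_insert ha]
      simp only [Finset.union_insert]
    have h2 : ∀ G : Finset E, bA (insert a A) s' (fun X => f (insert a (G ∪ X))) =
        bA A s' (fun X => f (insert a (G ∪ X))) := by
      intro G
      rw [bA_insert ha]
      simp only [Finset.union_insert, Finset.insert_idem]
      ring
    rw [bA_insert ha, bA_insert ha, ih f, ih fun G => f (insert a G)]
    simp only [h1, h2, Finset.insert_union]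
    simp only [bA_add, bA_mul]
    ring

theorem bA_card_filter {E : Type} (A : Finset E) (s : ℝ) (Q : E → Prop) [DecidablePred Q] :
    bA A s (fun G => ((G.filter Q).card : ℝ)) = s * ((A.filter Q).card : ℝ) := by
  classical
  induction A using Finset.induction_on with
  | empty => simp [bA_empty]
  | insert a A ha ih =>
    rw [bA_insert ha, ih]
    have h1 : bA A s (fun G => (((insert a G).filter Q).card : ℝ)) =
        bA A s (fun G => ((G.filter Q).card : ℝ) + (if Q a then 1 else 0)) := by
      apply bA_congr
      intro G hG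
      have h0 : a ∉ G := fun h => ha (hG h)
      rw [Finset.filter_insert]
      split_ifs with hQ
      · rw [Finset.card_insert_of_notMem (fun h => h0 (Finset.mem_of_mem_filter _ h))]
        push_cast
        ring
      · simp
    rw [h1, bA_add, bA_const, ih, Finset.filter_insert]
    split_ifs with hQ
    · rw [Finset.card_insert_of_notMem (fun h => ha (Finset.mem_of_mem_filter _ h))]
      push_cast
      ring
    · ring

open Classical in
theorem bA_exists {E : Type} (A : Finset E) (s : ℝ) (Q : E → Prop) :
    bA A s (fun G => if ∃ e ∈ G, Q e then (1 : ℝ) else 0) = 1 - (1 - s) ^ (A.filter Q).card := by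
  induction A using Finset.induction_on with
  | empty => simp [bA_empty]
  | insert a A ha ih =>
    rw [bA_insert ha, ih, Finset.filter_insert]
    by_cases hQ : Q a
    · have h1 : bA A s (fun G => if ∃ e ∈ insert a G, Q e then (1 : ℝ) else 0) =
          bA A s (fun _ => 1) := by
        apply bA_congr
        intro G _
        rw [if_pos ⟨a, Finset.mem_insert_self a G, hQ⟩]
      rw [h1, bA_const, if_pos hQ,
        Finset.card_insert_of_notMem (fun h => ha (Finset.mem_of_mem_filter _ h)), pow_succ]
      ring
    · have h1 : bA A s (fun G => if ∃ e ∈ insert a G, Q e then (1 : ℝ) else 0) =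
          bA A s (fun G => if ∃ e ∈ G, Q e then (1 : ℝ) else 0) := by
        apply bA_congr
        intro G _
        have h2 : (∃ e ∈ insert a G, Q e) ↔ ∃ e ∈ G, Q e := by
          constructor
          · rintro ⟨e, he, hQe⟩
            rcases Finset.mem_insert.1 he with rfl | he'
            · exact absurd hQe hQ
            · exact ⟨e, he', hQe⟩
          · rintro ⟨e, he, hQe⟩
            exact ⟨e, Finset.mem_insert_of_mem he, hQe⟩
        simp only [h2]
      rw [h1, ih, if_neg hQ]
      ring

theorem bA_card {E : Type} (A : Finset E) (s : ℝ) :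
    bA A s (fun G => (G.card : ℝ)) = s * A.card := by
  classical
  have h := bA_card_filter A s (fun _ => True)
  simpa using h

theorem bA_card_sq {E : Type} (A : Finset E) (s : ℝ) :
    bA A s (fun G => (G.card : ℝ) ^ 2) = (s * A.card) ^ 2 + s * (1 - s) * A.card := by
  classical
  induction A using Finset.induction_on with
  | empty => simp [bA_empty]
  | insert a A ha ih =>
    rw [bA_insert ha, ih]
    have h1 : bA A s (fun G => ((insert a G).card : ℝ) ^ 2) =
        bA A s (fun G => (G.card : ℝ) ^ 2 + (2 * (G.card : ℝ) + 1)) := by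
      apply bA_congr
      intro G hG
      have h0 : a ∉ G := fun h => ha (hG h)
      rw [Finset.card_insert_of_notMem h0]
      push_cast
      ring
    rw [h1, bA_add, bA_add, bA_const, bA_mul, bA_card, ih, Finset.card_insert_of_notMem ha]
    push_cast
    ring

section BERN
variable {E E₁ E₂ : Type} [Fintype E] [Fintype E₁] [Fintype E₂]

theorem bE_const (s c : ℝ) : bE s (fun _ : Finset E => c) = c := by
  rw [bE_eq_bA, bA_const]

theorem bE_add (s : ℝ) (f g : Finset E → ℝ) : bE s (fun G => f G + g G) = bE s f + bE s g := by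
  simp only [bE_eq_bA, bA_add]

theorem bE_mul (s c : ℝ) (f : Finset E → ℝ) : bE s (fun G => c * f G) = c * bE s f := by
  simp only [bE_eq_bA, bA_mul]

theorem bE_mono {s : ℝ} (h0 : 0 ≤ s) (h1 : s ≤ 1) {f g : Finset E → ℝ} (h : ∀ G, f G ≤ g G) :
    bE s f ≤ bE s g := by
  unfold bE
  refine Finset.sum_le_sum fun G _ => ?_
  exact mul_le_mul_of_nonneg_left (h G)
    (mul_nonneg (pow_nonneg h0 _) (pow_nonneg (by linarith) _))

theorem bE_equiv (e : E₁ ≃ E₂) (s : ℝ) (f : Finset E₂ → ℝ) :
    bE s f = bE s (fun G : Finset E₁ => f (G.map e.toEmbedding)) := by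
  unfold bE
  rw [← Equiv.sum_comp e.finsetCongr]
  refine Finset.sum_congr rfl fun G _ => ?_
  rw [Equiv.finsetCongr_apply, Finset.card_map, Fintype.card_congr e]

theorem bE_sum_type (s : ℝ) (f : Finset (E₁ ⊕ E₂) → ℝ) :
    bE s f = bE s (fun G₁ : Finset E₁ => bE s (fun G₂ : Finset E₂ => f (G₁.disjSum G₂))) := by
  unfold bE
  simp only [Finset.mul_sum]
  rw [← Fintype.sum_prod_type'
    (f := fun (G₁ : Finset E₁) (G₂ : Finset E₂) =>
      s ^ G₁.card * (1 - s) ^ (Fintype.card E₁ - G₁.card) *
        (s ^ G₂.card * (1 - s) ^ (Fintype.card E₂ - G₂.card) * f (G₁.disjSum G₂)))]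
  rw [← Equiv.sum_comp (Finset.sumEquiv (α := E₁) (β := E₂)).symm.toEquiv]
  refine Finset.sum_congr rfl fun p _ => ?_
  rcases p with ⟨G₁, G₂⟩
  have h1 : (Finset.sumEquiv (α := E₁) (β := E₂)).symm.toEquiv (G₁, G₂) = G₁.disjSum G₂ := rfl
  rw [h1, Finset.card_disjSum, Fintype.card_sum]
  have h2 : G₁.card ≤ Fintype.card E₁ := Finset.card_le_univ G₁
  have h3 : G₂.card ≤ Fintype.card E₂ := Finset.card_le_univ G₂
  have h4 : Fintype.card E₁ + Fintype.card E₂ - (G₁.card + G₂.card) =
      (Fintype.card E₁ - G₁.card) + (Fintype.card E₂ - G₂.card) := by omega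
  rw [h4, pow_add, pow_add]
  ring

theorem bE_union [DecidableEq E] (s s' : ℝ) (f : Finset E → ℝ) :
    bE (1 - (1 - s) * (1 - s')) f = bE s (fun G => bE s' (fun X => f (G ∪ X))) := by
  simp only [bE_eq_bA]
  exact bA_union _ s s' f

theorem bE_count (s : ℝ) (Q : E → Prop) [DecidablePred Q] :
    bE s (fun G => ((G.filter Q).card : ℝ)) = s * ((univ.filter Q).card : ℝ) := by
  rw [bE_eq_bA, bA_card_filter]

open Classical in
theorem bE_exists (s : ℝ) (Q : E → Prop) :
    bE s (fun G => if ∃ e ∈ G, Q e then (1 : ℝ) else 0) =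
      1 - (1 - s) ^ (univ.filter Q).card := by
  rw [bE_eq_bA, bA_exists]

theorem bE_card_sq (s : ℝ) :
    bE s (fun G : Finset E => (G.card : ℝ) ^ 2) =
      (s * Fintype.card E) ^ 2 + s * (1 - s) * Fintype.card E := by
  rw [bE_eq_bA, bA_card_sq, Finset.card_univ]

end BERN

end Pool.Agent.Lib_helper39.UE
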