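import Pool.Agent.Lib_helper39.UE.Defs

set_option autoImplicit false

namespace Pool.Agent.Lib_helper39.UE

open Finset

/-- an enumeration of a set of touching tuples that is not good gives a bad tuple -/
theorem bad_of_not_goodY {F : Type} [Field F] {κ : ℕ} {V : Type} [DecidableEq V]
    (R : Submodule F (V → F)) (y : ℕ) (Y : Finset (Tch κ V)) (hY : ¬ GoodY R Y)
    (τ : Fin y → Tch κ V) (hτ : ∀ t, t ∈ Y ↔ ∃ a, τ a = t) :
    Bad R (fun p : Fin y × Fin κ => (τ p.1).2 p.2) := by
  rintro ⟨hinj, hfree⟩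
  apply hY
  constructor
  · intro t ht t' ht' i i' h
    obtain ⟨a, rfl⟩ := (hτ t).1 ht
    obtain ⟨a', rfl⟩ := (hτ t').1 ht'
    have := @hinj (a, i) (a', i') h
    have h2 : a = a' := congrArg Prod.fst this
    rw [h2]
  · have hset : {v | ∃ t ∈ Y, ∃ i, t.2 i = v} =
        Set.range (fun p : Fin y × Fin κ => (τ p.1).2 p.2) := by
      ext v
      constructor
      · rintro ⟨t, ht, i, hi⟩
        obtain ⟨a, rfl⟩ := (hτ t).1 ht
        exact ⟨(a, i), hi⟩
      · rintro ⟨⟨a, i⟩, hi⟩
        exact ⟨τ a, (hτ _).2 ⟨a, rfl⟩, i, hi⟩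
    rw [hset]
    exact hfree

open Classical in
theorem card_badY {F : Type} [Field F] {κ : ℕ} {V : Type} [Fintype V] [DecidableEq V]
    (R : Submodule F (V → F)) (y : ℕ) :
    ((univ.filter (fun Y : Finset (Tch κ V) => Y.card = y ∧ ¬ GoodY R Y)).card : ℝ) ≤
      (((κ : ℝ) + 1) * (Fintype.card V : ℝ) ^ κ) ^ y *
        pr (fun I : Fin y × Fin κ → V => Bad R I) := by
  set S := univ.filter (fun Y : Finset (Tch κ V) => Y.card = y ∧ ¬ GoodY R Y) with hS
  have henum : ∀ Y ∈ S, ∃ τ : Fin y → Tch κ V, ∀ t, t ∈ Y ↔ ∃ a, τ a = t := by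
    intro Y hY
    have hc : Y.card = y := (mem_filter.1 hY).2.1
    refine ⟨fun a => ((Y.equivFinOfCardEq hc).symm a : Tch κ V), ?_⟩
    intro t
    constructor
    · intro ht
      exact ⟨Y.equivFinOfCardEq hc ⟨t, ht⟩, by simp⟩
    · rintro ⟨a, rfl⟩
      exact ((Y.equivFinOfCardEq hc).symm a).2
  by_cases hS0 : S = ∅
  · rw [hS0]
    simp only [card_empty, Nat.cast_zero]
    apply mul_nonneg
    · positivity
    · unfold pr avg
      apply div_nonneg
      · apply Finset.sum_nonneg
        intro x _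
        split_ifs <;> norm_num
      · positivity
  -- S nonempty
  have hne : Nonempty (Fin y → Tch κ V) := by
    obtain ⟨Y, hY⟩ := Finset.nonempty_of_ne_empty hS0
    exact ⟨(henum Y hY).choose⟩
  choose! τ hτ using henum
  set B := univ.filter (fun I : Fin y × Fin κ → V => Bad R I) with hB
  have hcard : S.card ≤ ((univ : Finset (Fin y → Fin (κ + 1))) ×ˢ B).card := by
    apply Finset.card_le_card_of_injOn
      (fun Y => ((fun a => (τ Y a).1, fun p => (τ Y p.1).2 p.2) :
        (Fin y → Fin (κ + 1)) × (Fin y × Fin κ → V)))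
    · intro Y hY
      simp only [coe_product, coe_univ, Set.mem_prod, Set.mem_univ, true_and]
      simp only [hB, coe_filter, mem_univ, true_and, Set.mem_ofPred_eq]
      exact bad_of_not_goodY R y Y (mem_filter.1 hY).2.2 (τ Y) (hτ Y hY)
    · intro Y hY Y' hY' h
      have h1 : τ Y = τ Y' := by
        funext a
        apply Prod.ext
        · exact congrFun (congrArg Prod.fst h) a
        · ext i
          exact congrFun (congrArg Prod.snd h) (a, i)
      ext t
      rw [hτ Y hY, hτ Y' hY', h1]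
  rw [card_product] at hcard
  have hc1 : (univ : Finset (Fin y → Fin (κ + 1))).card = (κ + 1) ^ y := by
    simp
  rw [hc1] at hcard
  have hpr : pr (fun I : Fin y × Fin κ → V => Bad R I) =
      (B.card : ℝ) / ((Fintype.card V : ℝ) ^ κ) ^ y := by
    unfold pr avg
    congr 1
    · rw [hB, Finset.sum_boole]
    · simp [← pow_mul, mul_comm]
  have hpos : ((Fintype.card V : ℝ) ^ κ) ^ y ≠ 0 := by
    rcases Nat.eq_zero_or_pos y with hy | hy
    · subst hy; simp
    · rcases Nat.eq_zero_or_pos κ with hκ | hκ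
      · subst hκ; simp
      · obtain ⟨Y, hY⟩ := Finset.nonempty_of_ne_empty hS0
        have v := (τ Y ⟨0, hy⟩).2 ⟨0, hκ⟩
        have : 0 < Fintype.card V := Fintype.card_pos_iff.2 ⟨v⟩
        positivity
  rw [hpr, mul_pow]
  have : (((κ : ℝ) + 1) ^ y * ((Fintype.card V : ℝ) ^ κ) ^ y) *
      ((B.card : ℝ) / ((Fintype.card V : ℝ) ^ κ) ^ y) = ((κ : ℝ) + 1) ^ y * B.card := by
    field_simp
  rw [this]
  exact_mod_cast hcard

end Pool.Agent.Lib_helper39.UE
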