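import Pool.Agent.Lib_helper39.UE.Defs

set_option autoImplicit false

namespace Pool.Agent.Lib_helper39.UE

open Finset

theorem row_apply_of_mem {F : Type} [CommRing F] {k : ℕ} {V : Type} [DecidableEq V]
    (lam : Fin k → F) (e : Fin k ↪ V) (j : Fin k) : row lam e (e j) = lam j := by
  classical
  unfold row
  rw [Finset.sum_apply, Finset.sum_eq_single j]
  · simp
  · intro i _ hij
    rw [Pi.single_apply, if_neg]
    intro h
    exact hij (e.injective h).symm
  · simp

theorem row_apply_of_not_mem {F : Type} [CommRing F] {k : ℕ} {V : Type} [DecidableEq V]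
    (lam : Fin k → F) (e : Fin k ↪ V) (v : V) (hv : ∀ j, e j ≠ v) : row lam e v = 0 := by
  classical
  unfold row
  rw [Finset.sum_apply]
  apply Finset.sum_eq_zero
  intro i _
  rw [Pi.single_apply, if_neg]
  exact fun h => hv i h.symm

open Classical in
theorem cover {F : Type} [Field F] {k m n : ℕ} (lam : Fin k → F) (hlam : ∀ j, lam j ≠ 0)
    (w : Fin m → (Fin k ↪ Fin n)) (b : Fin m → F) (hb : ∑ i, b i • row lam (w i) = 0) :
    2 * (univ.filter (fun v => ∃ i ∈ univ.filter (fun i => b i ≠ 0), ∃ j, w i j = v)).card ≤
      k * (univ.filter (fun i => b i ≠ 0)).card := by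
  rw [mul_comm 2, mul_comm k]
  apply Finset.card_mul_le_card_mul (fun v i => ∃ j, w i j = v)
  · intro v hv
    rw [Finset.mem_filter] at hv
    obtain ⟨-, i, hi, j, hij⟩ := hv
    by_contra hcon
    have h1 : ((univ.filter (fun i => b i ≠ 0)).bipartiteAbove
        (fun v i => ∃ j, w i j = v) v).card ≤ 1 := by omega
    have hi1 : i ∈ (univ.filter (fun i => b i ≠ 0)).bipartiteAbove
        (fun v i => ∃ j, w i j = v) v := by
      rw [Finset.mem_bipartiteAbove]
      exact ⟨hi, j, hij⟩
    have huniq : ∀ i', b i' ≠ 0 → (∃ j, w i' j = v) → i' = i := by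
      intro i' hb' hj'
      apply Finset.card_le_one.1 h1
      · rw [Finset.mem_bipartiteAbove]
        exact ⟨by simpa using hb', hj'⟩
      · exact hi1
    have h2 := congrFun hb v
    rw [Finset.sum_apply, Finset.sum_eq_single i] at h2
    · rw [Pi.smul_apply, ← hij, row_apply_of_mem] at h2
      simp only [smul_eq_mul, Pi.zero_apply, mul_eq_zero] at h2
      rcases h2 with h2 | h2
      · rw [Finset.mem_filter] at hi
        exact hi.2 h2
      · exact hlam j h2
    · intro i' _ hne
      by_cases hb' : b i' = 0
      · simp [hb']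
      · rw [Pi.smul_apply, row_apply_of_not_mem, smul_zero]
        intro j' hj'
        exact hne (huniq i' hb' ⟨j', hj'⟩)
    · simp
  · intro i hi
    calc _ ≤ (univ.image (fun j => w i j)).card := by
            apply Finset.card_le_card
            intro v hv
            rw [Finset.mem_bipartiteBelow] at hv
            obtain ⟨-, j, hj⟩ := hv
            rw [Finset.mem_image]
            exact ⟨j, Finset.mem_univ _, hj⟩
      _ ≤ (univ : Finset (Fin k)).card := Finset.card_image_le
      _ = k := by simp

end Pool.Agent.Lib_helper39.UE
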