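import Pool.Agent.Lib_helper39.UE.Defs

/-! Block DET of MP_82d614_pr: deterministic rank bounds. -/

set_option autoImplicit false

namespace Pool.Agent.Lib_helper39.UE

open Finset

theorem ext0_none {F : Type} [CommRing F] {V : Type} (c : V → F) : ext0 F V c none = 0 := rfl

theorem ext0_some {F : Type} [CommRing F] {V : Type} (c : V → F) (v : V) :
    ext0 F V c (some v) = c v := rfl

theorem ext0_injective (F : Type) [CommRing F] (V : Type) :
    Function.Injective (ext0 F V) := by
  intro c c' h
  funext v
  have := congrFun h (some v)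
  simpa [ext0_some] using this

theorem trow_none {F : Type} [CommRing F] {κ : ℕ} {V : Type} [DecidableEq V]
    (lam : Fin (κ + 1) → F) (t : Tch κ V) : trow lam t none = lam t.1 := by
  unfold trow
  simp [Finset.sum_apply]

theorem trow_some {F : Type} [CommRing F] {κ : ℕ} {V : Type} [DecidableEq V]
    (lam : Fin (κ + 1) → F) (t : Tch κ V) (v : V) :
    trow lam t (some v) = ∑ i : Fin κ, if t.2 i = v then lam (t.1.succAbove i) else 0 := by
  unfold trow
  simp [Finset.sum_apply, Pi.single_apply, eq_comm]

theorem trow_some_self {F : Type} [CommRing F] {κ : ℕ} {V : Type} [DecidableEq V]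
    (lam : Fin (κ + 1) → F) (t : Tch κ V) (i : Fin κ) :
    trow lam t (some (t.2 i)) = lam (t.1.succAbove i) := by
  rw [trow_some, Finset.sum_eq_single i]
  · simp
  · intro j _ hj
    rw [if_neg]
    intro h
    exact hj (t.2.injective h)
  · simp

theorem trow_some_ne {F : Type} [CommRing F] {κ : ℕ} {V : Type} [DecidableEq V]
    (lam : Fin (κ + 1) → F) (t : Tch κ V) (v : V) (h : ∀ i, t.2 i ≠ v) :
    trow lam t (some v) = 0 := by
  rw [trow_some]
  exact Finset.sum_eq_zero fun i _ => if_neg (h i)

open Classical in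
/-- the key linear independence modulo the old space -/
theorem det_key {F : Type} [Field F] {κ : ℕ} {V : Type} [DecidableEq V]
    (lam : Fin (κ + 1) → F) (hlam : ∀ j, lam j ≠ 0) (R : Submodule F (V → F))
    (Y Y' : Finset (Tch κ V)) (hY : GoodY R Y) (hsub : Y' ⊆ Y)
    (huniq : ∀ t ∈ Y', ∀ t' ∈ Y', AllFr R t → AllFr R t' → t = t') (b : Tch κ V → F)
    (hb : ∑ t ∈ Y', b t • trow lam t ∈ R.map (ext0 F V)) : ∀ t ∈ Y', b t = 0 := by
  obtain ⟨c, hc, hceq⟩ := Submodule.mem_map.1 hb
  have hcv : ∀ v, c v = ∑ t ∈ Y', b t * trow lam t (some v) := by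
    intro v
    have h := congrFun hceq (some v)
    rw [ext0_some] at h
    rw [h]
    simp [Finset.sum_apply]
  have hself : ∀ t ∈ Y', ∀ i, c (t.2 i) = b t * lam (t.1.succAbove i) := by
    intro t ht i
    rw [hcv, Finset.sum_eq_single t]
    · rw [trow_some_self]
    · intro t' ht' hne
      rw [trow_some_ne lam t' _ (fun i' h => hne (hY.1 t' (hsub ht') t (hsub ht) i' i h)),
        mul_zero]
    · intro h
      exact absurd ht h
  have hsupp : ∀ v, v ∉ {v | ∃ t ∈ Y, ∃ i, t.2 i = v} → c v = 0 := by
    intro v hv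
    rw [hcv]
    refine Finset.sum_eq_zero fun t ht => ?_
    rw [trow_some_ne lam t v (fun i h => hv ⟨t, hsub ht, i, h⟩), mul_zero]
  have hfree := hY.2 c hc hsupp
  have hall : ∀ t ∈ Y', b t ≠ 0 → AllFr R t := by
    intro t ht hbt i
    apply hfree
    rw [hself t ht i]
    exact mul_ne_zero hbt (hlam _)
  intro t ht
  by_contra hbt
  have h := congrFun hceq none
  rw [ext0_none] at h
  have h2 : (∑ t ∈ Y', b t • trow lam t) none = b t * lam t.1 := by
    rw [Finset.sum_apply, Finset.sum_eq_single t]
    · simp [trow_none]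
    · intro t' ht' hne
      have hb0 : b t' = 0 := by
        by_contra hb1
        exact hne (huniq t' ht' t ht (hall t' ht' hb1) (hall t ht hbt))
      simp [hb0]
    · intro h
      exact absurd ht h
  rw [h2] at h
  exact mul_ne_zero hbt (hlam _) h.symm

open Classical in
theorem det_low {F : Type} [Field F] {κ : ℕ} {V : Type} [Fintype V] [DecidableEq V]
    (lam : Fin (κ + 1) → F) (hlam : ∀ j, lam j ≠ 0) (R : Submodule F (V → F))
    (Y : Finset (Tch κ V)) (hY : GoodY R Y) :
    Module.finrank F R + (Y.filter (fun t => ¬ AllFr R t)).card +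
        (if ∃ t ∈ Y, AllFr R t then 1 else 0) ≤
      Module.finrank F (R.map (ext0 F V) ⊔ Submodule.span F (trow lam '' (Y : Set (Tch κ V))) :
        Submodule F (Option V → F)) := by
  obtain ⟨Y', hsub, hcard, huniq⟩ : ∃ Y' : Finset (Tch κ V), Y' ⊆ Y ∧
      Y'.card = (Y.filter (fun t => ¬ AllFr R t)).card + (if ∃ t ∈ Y, AllFr R t then 1 else 0) ∧
      ∀ t ∈ Y', ∀ t' ∈ Y', AllFr R t → AllFr R t' → t = t' := by
    by_cases h : ∃ t ∈ Y, AllFr R t
    · obtain ⟨t0, ht0, hfr⟩ := h
      refine ⟨insert t0 (Y.filter (fun t => ¬ AllFr R t)), ?_, ?_, ?_⟩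
      · intro t ht
        rcases Finset.mem_insert.1 ht with rfl | ht'
        · exact ht0
        · exact Finset.mem_of_mem_filter _ ht'
      · rw [if_pos ⟨t0, ht0, hfr⟩, Finset.card_insert_of_notMem]
        simp [hfr]
      · intro t ht t' ht' h1 h2
        have e1 : t = t0 := by
          rcases Finset.mem_insert.1 ht with rfl | ht'
          · rfl
          · exact absurd h1 (Finset.mem_filter.1 ht').2
        have e2 : t' = t0 := by
          rcases Finset.mem_insert.1 ht' with rfl | ht''
          · rfl
          · exact absurd h2 (Finset.mem_filter.1 ht'').2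
        rw [e1, e2]
    · refine ⟨Y.filter (fun t => ¬ AllFr R t), Finset.filter_subset _ _, ?_, ?_⟩
      · rw [if_neg h, add_zero]
      · intro t ht t' _ h1
        exact absurd h1 (Finset.mem_filter.1 ht).2
  have hkey := det_key lam hlam R Y Y' hY hsub huniq
  set A : Submodule F (Option V → F) := R.map (ext0 F V) with hA
  set B : Submodule F (Option V → F) :=
    Submodule.span F (trow lam '' (Y' : Set (Tch κ V))) with hB
  have hmono : A ⊔ B ≤ A ⊔ Submodule.span F (trow lam '' (Y : Set (Tch κ V))) :=
    sup_le_sup le_rfl (Submodule.span_mono (Set.image_mono (by exact_mod_cast hsub)))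
  have hle := Submodule.finrank_mono hmono
  refine le_trans ?_ hle
  have hli : LinearIndepOn F (trow lam) (Y' : Set (Tch κ V)) := by
    rw [linearIndepOn_finset_iff]
    intro b hb t ht
    apply hkey b _ t ht
    rw [hb]
    exact Submodule.zero_mem _
  have hBrank : Module.finrank F B = Y'.card := by
    have h1 : Module.finrank F (Submodule.span F (Set.range fun t : Y' => trow lam t.1)) =
        Fintype.card Y' := finrank_span_eq_card hli
    have h2 : (Set.range fun t : Y' => trow lam t.1) = trow lam '' (Y' : Set (Tch κ V)) := by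
      ext x
      simp
    rw [h2, Fintype.card_coe] at h1
    exact h1
  have hdisj : A ⊓ B = ⊥ := by
    rw [Submodule.eq_bot_iff]
    intro x hx
    obtain ⟨hxA, hxB⟩ := Submodule.mem_inf.1 hx
    obtain ⟨b, hb⟩ : ∃ b : Tch κ V → F, ∑ t ∈ Y', b t • trow lam t = x := by
      exact (Submodule.mem_span_image_finset_iff_exists_fun' F).1 hxB
    have h0 := hkey b (by rw [hb]; exact hxA)
    rw [← hb]
    exact Finset.sum_eq_zero fun t ht => by rw [h0 t ht, zero_smul]
  have hAB := Submodule.finrank_sup_add_finrank_inf_eq A B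
  rw [hdisj, finrank_bot, add_zero, hBrank] at hAB
  have hArank : Module.finrank F A = Module.finrank F R :=
    (LinearEquiv.finrank_eq (Submodule.equivMapOfInjective _ (ext0_injective F V) R)).symm
  rw [hAB, hArank, hcard, add_assoc]

open Classical in
theorem det_up {F : Type} [Field F] {k : ℕ} {V : Type} [Fintype V] [DecidableEq V]
    (lam : Fin k → F) (R : Submodule F (V → F)) (X : Finset (Fin k ↪ V)) :
    Module.finrank F (R ⊔ rs lam X : Submodule F (V → F)) ≤
      Module.finrank F R + (X.filter (fun e => ¬ ∀ j, Frozen R (e j))).card := by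
  set X' := X.filter (fun e => ¬ ∀ j, Frozen R (e j)) with hX'
  have hle : R ⊔ rs lam X ≤ R ⊔ Submodule.span F ((X'.image (row lam) : Finset (V → F)) : Set (V → F)) := by
    apply sup_le le_sup_left
    unfold rs
    rw [Submodule.span_le]
    rintro _ ⟨e, he, rfl⟩
    by_cases hfr : ∀ j, Frozen R (e j)
    · apply Submodule.mem_sup_left
      unfold row
      refine Submodule.sum_mem _ fun j _ => ?_
      have h1 : (Pi.single (e j) (lam j) : V → F) = lam j • (Pi.single (e j) 1 : V → F) := by
        rw [← Pi.single_smul, smul_eq_mul, mul_one]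
      rw [h1]
      exact Submodule.smul_mem _ _ (hfr j)
    · apply Submodule.mem_sup_right
      apply Submodule.subset_span
      rw [Finset.coe_image]
      exact ⟨e, by rw [hX']; exact_mod_cast Finset.mem_filter.2 ⟨he, hfr⟩, rfl⟩
  refine (Submodule.finrank_mono hle).trans ?_
  refine (Submodule.finrank_add_le_finrank_add_finrank _ _).trans ?_
  apply Nat.add_le_add_left
  exact (finrank_span_finset_le_card _).trans Finset.card_image_le

end Pool.Agent.Lib_helper39.UE
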