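import Mathlib

/-!
Definitions for random uniquely extendable constraint satisfaction (MP_82d614_pr).
Everything is finite: probabilities are averages over finite types, or Bernoulli
expectations over the subsets of a finite type.
-/

set_option autoImplicit false

namespace Pool.Agent.Lib_helper39.UE

open Finset

/-- average of a real function over a finite type -/
noncomputable def avg {α : Type} [Fintype α] (f : α → ℝ) : ℝ :=
  (∑ x, f x) / (Fintype.card α : ℝ)

open Classical in
/-- proportion of the elements having a property -/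
noncomputable def pr {α : Type} [Fintype α] (p : α → Prop) : ℝ :=
  avg (fun x => if p x then (1 : ℝ) else 0)

/-- expectation of `f` over the random subset of `E` that contains each element
independently with probability `s` -/
noncomputable def bE {E : Type} [Fintype E] (s : ℝ) (f : Finset E → ℝ) : ℝ :=
  ∑ G : Finset E, s ^ G.card * (1 - s) ^ (Fintype.card E - G.card) * f G

section rows

variable {F : Type} [CommRing F]

/-- the row of the matrix belonging to a constraint with coefficients `lam` on the
ordered tuple `e` of distinct variables -/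
def row {k : ℕ} {V : Type} [DecidableEq V] (lam : Fin k → F) (e : Fin k ↪ V) : V → F :=
  ∑ j, Pi.single (e j) (lam j)

/-- span of the rows of a set of tuples -/
def rs {k : ℕ} {V : Type} [DecidableEq V] (lam : Fin k → F) (G : Finset (Fin k ↪ V)) :
    Submodule F (V → F) :=
  Submodule.span F (row lam '' (G : Set (Fin k ↪ V)))

/-- span of the unit vectors of the pinned variables -/
def pins {V J : Type} [DecidableEq V] (p : J → V) : Submodule F (V → F) :=
  Submodule.span F (Set.range fun i => (Pi.single (p i) 1 : V → F))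

/-- the unit vector of `v` lies in `R` -/
def Frozen {V : Type} [DecidableEq V] (R : Submodule F (V → F)) (v : V) : Prop :=
  (Pi.single v 1 : V → F) ∈ R

/-- every vector of `R` supported in `U` is supported in the frozen set -/
def FreeSet {V : Type} [DecidableEq V] (R : Submodule F (V → F)) (U : Set V) : Prop :=
  ∀ c ∈ R, (∀ v, v ∉ U → c v = 0) → ∀ v, c v ≠ 0 → Frozen R v

/-- the tuple `I` is not (injective with free range) -/
def Bad {V J : Type} [DecidableEq V] (R : Submodule F (V → F)) (I : J → V) : Prop :=
  ¬ (Function.Injective I ∧ FreeSet R (Set.range I))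

open Classical in
/-- number of frozen variables -/
noncomputable def fc {V : Type} [Fintype V] [DecidableEq V] (R : Submodule F (V → F)) : ℕ :=
  (univ.filter (fun v => Frozen R v)).card

/-- tuples of `Option V` that use the new variable `none` : the position of `none` and the
remaining tuple -/
abbrev Tch (κ : ℕ) (V : Type) : Type := Fin (κ + 1) × (Fin κ ↪ V)

/-- the row of a tuple using the new variable -/
def trow {κ : ℕ} {V : Type} [DecidableEq V] (lam : Fin (κ + 1) → F) (t : Tch κ V) :
    Option V → F :=
  Pi.single none (lam t.1) + ∑ i : Fin κ, Pi.single (some (t.2 i)) (lam (t.1.succAbove i))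

/-- extension by zero at the new variable -/
def ext0 (F : Type) [CommRing F] (V : Type) : (V → F) →ₗ[F] (Option V → F) where
  toFun c := fun o => o.elim 0 c
  map_add' a b := by funext o; cases o <;> simp
  map_smul' a b := by funext o; cases o <;> simp

/-- all old variables of the tuple are frozen -/
def AllFr {κ : ℕ} {V : Type} [DecidableEq V] (R : Submodule F (V → F)) (t : Tch κ V) : Prop :=
  ∀ i, Frozen R (t.2 i)

/-- the old parts of the members of `Y` are disjoint and their union is free -/
def GoodY {κ : ℕ} {V : Type} [DecidableEq V] (R : Submodule F (V → F))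
    (Y : Finset (Tch κ V)) : Prop :=
  (∀ t ∈ Y, ∀ t' ∈ Y, ∀ i i', t.2 i = t'.2 i' → t = t') ∧
    FreeSet R {v | ∃ t ∈ Y, ∃ i, t.2 i = v}

/-- pair of variables that is dependent modulo the span of the rows of `w` -/
def BadPair {k m : ℕ} {V : Type} [DecidableEq V] (lam : Fin k → F) (w : Fin m → (Fin k ↪ V))
    (u v : V) : Prop :=
  ∃ a b : F, (a ≠ 0 ∨ b ≠ 0) ∧
    (a • (Pi.single u 1 : V → F) + b • (Pi.single v 1 : V → F)) ∈
      Submodule.span F (Set.range fun i => row lam (w i))

end rows

section field

variable {F : Type} [Field F]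

/-- expected rank with `θ` random pins, Bernoulli rows -/
noncomputable def EA {k : ℕ} (lam : Fin k → F) (V : Type) [Fintype V] [DecidableEq V]
    (s : ℝ) (θ : ℕ) : ℝ :=
  avg (fun p : Fin θ → V => bE s (fun G : Finset (Fin k ↪ V) =>
    (Module.finrank F (rs lam G ⊔ pins p : Submodule F (V → F)) : ℝ)))

/-- expected rank of `m` independent uniform elements of `E` -/
noncomputable def Dm {E W : Type} [Fintype E] [AddCommGroup W] [Module F W]
    (vec : E → W) (m : ℕ) : ℝ :=
  avg (fun w : Fin m → E =>
    (Module.finrank F (Submodule.span F (Set.range fun i => vec (w i))) : ℝ))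

/-- probability that a new element is dependent on `m` independent uniform elements -/
noncomputable def pm (F : Type) [Field F] {E W : Type} [Fintype E] [AddCommGroup W] [Module F W]
    (vec : E → W) (m : ℕ) : ℝ :=
  pr (fun we : (Fin m → E) × E =>
    vec we.2 ∈ Submodule.span F (Set.range fun i => vec (we.1 i)))

end field

/-! ### the threshold -/

/-- `ρ_{k,d}` -/
noncomputable def rho (k : ℕ) (d : ℝ) : ℝ :=
  sSup {x : ℝ | 0 ≤ x ∧ x ≤ 1 ∧ x = 1 - Real.exp (-d * x ^ (k - 1))}

/-- `d_k` -/
noncomputable def dk (k : ℕ) : ℝ :=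
  sInf {d : ℝ | 0 < d ∧
    rho k d - d * rho k d ^ (k - 1) + (1 - 1 / (k : ℝ)) * d * rho k d ^ k < 0}

/-- the increment function -/
noncomputable def gd (k : ℕ) (d a : ℝ) : ℝ :=
  d * a ^ (k - 1) - (1 - Real.exp (-d * a ^ (k - 1))) - d * (1 - 1 / (k : ℝ)) * a ^ k

/-! ### the problem's notions -/

/-- uniquely extendable -/
def UExt {Ω : Type} {k : ℕ} (ψ : (Fin k → Ω) → Bool) : Prop :=
  ∀ (i : Fin k) (x : Fin k → Ω), ∃! t : Ω, ψ (Function.update x i t) = true

/-- prefix of length `d` from `x`, rest from `y` -/
def mix {Ω : Type} {k : ℕ} (d : ℕ) (x y : Fin k → Ω) : Fin k → Ω :=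
  fun i => if i.val < d then x i else y i

/-- the set `Ψ` of constraint functions is reducible -/
def Reducible {Ω : Type} {k : ℕ} (Ψ : Set ((Fin k → Ω) → Bool)) : Prop :=
  ∀ d : ℕ, d ≤ k → ∀ x x' y y' : Fin k → Ω, ∀ ψ ∈ Ψ, ∀ ψ' ∈ Ψ,
    ψ (mix d x y) = true → ψ (mix d x' y) = true → ψ' (mix d x y') = true →
      ψ' (mix d x' y') = true

/-- closure under permutations of the coordinates -/
def permClosure {Ω : Type} {k : ℕ} (Ψ : Set ((Fin k → Ω) → Bool)) : Set ((Fin k → Ω) → Bool) :=
  {ψ | ∃ χ ∈ Ψ, ∃ α : Equiv.Perm (Fin k), ψ = fun x => χ (fun i => x (α i))}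

/-- the sets `F_i(Ψ)`; the `(k-1)^i` arguments are indexed by the words of length `i` in the
alphabet `Fin (k-1)`, here `k = κ + 1` -/
def Fset {Ω : Type} {κ : ℕ} (Ψ : Set ((Fin (κ + 1) → Ω) → Bool)) :
    (i : ℕ) → Set (((Fin i → Fin κ) → Ω) → Ω)
  | 0 => {g | ∀ σ, g σ = σ (fun j => j.elim0)}
  | (i + 1) => {g | ∃ ψ ∈ Ψ, ∃ f : Fin κ → (((Fin i → Fin κ) → Ω) → Ω),
      (∀ j, f j ∈ Fset Ψ i) ∧
      ∀ σ : (Fin (i + 1) → Fin κ) → Ω,
        ψ (Fin.snoc (α := fun _ => Ω) (fun j => f j (fun w => σ (Fin.cons j w))) (g σ)) = true}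

/-- a function of several variables is symmetric -/
def Symm {Ω J : Type} (g : (J → Ω) → Ω) : Prop :=
  ∀ (α : Equiv.Perm J) (σ : J → Ω), g (fun j => σ (α j)) = g σ

end Pool.Agent.Lib_helper39.UE
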