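import Pool.Agent.Lib_helper39.UE.Defs

set_option autoImplicit false

namespace Pool.Agent.Lib_helper39.UE

open Finset

/-- the system of linear forms over `S` -/
def liftMap {S : Type} [CommRing S] {k m : ℕ} {V : Type} (s : Fin k → S)
    (w : Fin m → (Fin k ↪ V)) (u v : V) : (V → S) →ₗ[S] ((Fin m → S) × S × S) where
  toFun x := (fun i => ∑ j, s j * x (w i j), x u, x v)
  map_add' x y := by
    refine Prod.ext ?_ (Prod.ext ?_ ?_)
    · funext i
      simp [mul_add, Finset.sum_add_distrib]
    · simp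
    · simp
  map_smul' c x := by
    refine Prod.ext ?_ (Prod.ext ?_ ?_)
    · funext i
      simp only [Pi.smul_apply, smul_eq_mul, RingHom.id_apply, Prod.smul_fst, Finset.mul_sum]
      refine Finset.sum_congr rfl fun j _ => by ring
    · simp
    · simp

theorem row_apply {F : Type} [CommRing F] {k : ℕ} {V : Type} [DecidableEq V] (lam : Fin k → F)
    (e : Fin k ↪ V) (t : V) : row lam e t = ∑ j, lam j * (if e j = t then 1 else 0) := by
  unfold row
  rw [Finset.sum_apply]
  refine Finset.sum_congr rfl fun j _ => ?_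
  by_cases h : e j = t
  · subst h; simp
  · rw [Pi.single_eq_of_ne (Ne.symm h), if_neg h, mul_zero]

theorem liftMap_surj {S : Type} [CommRing S]
    {k m : ℕ} {V : Type} [Fintype V] [DecidableEq V] (s : Fin k → S)
    (w : Fin m → (Fin k ↪ V)) (u v : V)
    (h : ∀ I : Ideal S, I.IsMaximal →
      LinearIndependent (S ⧸ I)
        (fun i => row (fun j => Ideal.Quotient.mk I (s j)) (w i) : Fin m → (V → S ⧸ I)) ∧
      ¬ BadPair (fun j => Ideal.Quotient.mk I (s j)) w u v) :
    LinearMap.range (liftMap s w u v) = ⊤ := by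
  classical
  by_contra hne
  obtain ⟨Q, hQ, hle⟩ := (eq_top_or_exists_le_coatom (LinearMap.range (liftMap s w u v))).resolve_left hne
  have hsimple : IsSimpleModule S (((Fin m → S) × S × S) ⧸ Q) := isSimpleModule_iff_isCoatom.2 hQ
  obtain ⟨I, hI, ⟨e⟩⟩ := isSimpleModule_iff_quot_maximal.1 hsimple
  obtain ⟨hli, hbp⟩ := h I hI
  let f : ((Fin m → S) × S × S) →ₗ[S] (S ⧸ I) := e.toLinearMap ∘ₗ Q.mkQ
  have hfsurj : Function.Surjective f := e.surjective.comp Q.mkQ_surjective
  have hf0 : ∀ x, f (liftMap s w u v x) = 0 := by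
    intro x
    have : liftMap s w u v x ∈ Q := hle ⟨x, rfl⟩
    show e (Q.mkQ _) = 0
    rw [Submodule.mkQ_apply, (Submodule.Quotient.mk_eq_zero Q).2 this, map_zero]
  let c : Fin m → S ⧸ I := fun i => f (Pi.single i 1, 0, 0)
  let a : S ⧸ I := f (0, 1, 0)
  let b : S ⧸ I := f (0, 0, 1)
  have hdec : ∀ y : (Fin m → S) × S × S, f y =
      ∑ i, Ideal.Quotient.mk I (y.1 i) * c i + Ideal.Quotient.mk I y.2.1 * a +
        Ideal.Quotient.mk I y.2.2 * b := by
    intro y
    have hy : y = ∑ i, y.1 i • ((Pi.single i 1, 0, 0) : (Fin m → S) × S × S) +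
        y.2.1 • ((0, 1, 0) : (Fin m → S) × S × S) + y.2.2 • ((0, 0, 1) : (Fin m → S) × S × S) := by
      refine Prod.ext ?_ (Prod.ext ?_ ?_)
      · funext i
        simp [Prod.fst_sum, Finset.sum_apply, Pi.single_apply]
      · simp [Prod.snd_sum, Prod.fst_sum]
      · simp [Prod.snd_sum]
    conv_lhs => rw [hy]
    rw [map_add, map_add, map_sum, map_smul, map_smul]
    congr 1
    congr 1
    refine Finset.sum_congr rfl fun i _ => ?_
    rw [map_smul]
    rfl
  have hrel : ∑ i, c i • (row (fun j => Ideal.Quotient.mk I (s j)) (w i) : V → S ⧸ I) +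
      a • (Pi.single u 1 : V → S ⧸ I) + b • (Pi.single v 1 : V → S ⧸ I) = 0 := by
    funext t
    have h1 := hf0 (Pi.single t 1)
    rw [hdec] at h1
    simp only [liftMap, LinearMap.coe_mk, AddHom.coe_mk] at h1
    simp only [Pi.add_apply, Finset.sum_apply, Pi.smul_apply, smul_eq_mul, Pi.zero_apply]
    rw [← h1]
    congr 1
    · congr 1
      · refine Finset.sum_congr rfl fun i _ => ?_
        rw [row_apply, map_sum, mul_comm]
        congr 1
        refine Finset.sum_congr rfl fun j _ => ?_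
        rw [map_mul]
        congr 1
        by_cases hj : w i j = t
        · rw [if_pos hj, hj, Pi.single_eq_same, map_one]
        · rw [if_neg hj, Pi.single_eq_of_ne hj, map_zero]
      · rw [mul_comm]
        congr 1
        by_cases hj : u = t
        · subst hj; simp
        · rw [Pi.single_eq_of_ne hj, Pi.single_eq_of_ne (Ne.symm hj), map_zero]
    · rw [mul_comm]
      congr 1
      by_cases hj : v = t
      · subst hj; simp
      · rw [Pi.single_eq_of_ne hj, Pi.single_eq_of_ne (Ne.symm hj), map_zero]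
  by_cases hab : a ≠ 0 ∨ b ≠ 0
  · apply hbp
    refine ⟨a, b, hab, ?_⟩
    have : a • (Pi.single u 1 : V → S ⧸ I) + b • (Pi.single v 1 : V → S ⧸ I) =
        - ∑ i, c i • (row (fun j => Ideal.Quotient.mk I (s j)) (w i) : V → S ⧸ I) := by
      rw [add_assoc] at hrel
      exact eq_neg_of_add_eq_zero_right hrel
    rw [this]
    refine Submodule.neg_mem _ (Submodule.sum_mem _ fun i _ => Submodule.smul_mem _ _ ?_)
    exact Submodule.subset_span ⟨i, rfl⟩
  · push Not at hab
    obtain ⟨ha, hb⟩ := hab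
    rw [ha, hb, zero_smul, zero_smul, add_zero, add_zero] at hrel
    have hc : ∀ i, c i = 0 := Fintype.linearIndependent_iff.1 hli c hrel
    obtain ⟨y, hy⟩ := hfsurj 1
    rw [hdec, ha, hb] at hy
    have : (∑ i, Ideal.Quotient.mk I (y.1 i) * c i) = 0 :=
      Finset.sum_eq_zero fun i _ => by rw [hc i, mul_zero]
    rw [this, mul_zero, mul_zero, add_zero, add_zero] at hy
    have : Nontrivial (S ⧸ I) := Ideal.Quotient.nontrivial_iff.2 hI.ne_top
    exact zero_ne_one hy

theorem lift {S A : Type} [CommRing S] [Finite S] [AddCommGroup A] [Module S A] [Finite A]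
    {k m : ℕ} {V : Type} [Fintype V] [DecidableEq V] (s : Fin k → S)
    (w : Fin m → (Fin k ↪ V)) (u v : V)
    (h : ∀ I : Ideal S, I.IsMaximal →
      LinearIndependent (S ⧸ I)
        (fun i => row (fun j => Ideal.Quotient.mk I (s j)) (w i) : Fin m → (V → S ⧸ I)) ∧
      ¬ BadPair (fun j => Ideal.Quotient.mk I (s j)) w u v) :
    Function.Surjective (fun x : V → A =>
      ((fun i => ∑ j, s j • x (w i j), x u, x v) : (Fin m → A) × A × A)) := by
  classical
  have hs := LinearMap.range_eq_top.1 (liftMap_surj s w u v h)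
  intro y
  choose g hg using hs
  let σ : Fin m → (V → S) := fun i => g (Pi.single i 1, 0, 0)
  let α : V → S := g (0, 1, 0)
  let β : V → S := g (0, 0, 1)
  have hσ : ∀ i, liftMap s w u v (σ i) = (Pi.single i 1, 0, 0) := fun i => hg _
  have hα : liftMap s w u v α = (0, 1, 0) := hg _
  have hβ : liftMap s w u v β = (0, 0, 1) := hg _
  simp only [liftMap, LinearMap.coe_mk, AddHom.coe_mk, Prod.mk.injEq] at hσ hα hβ
  refine ⟨fun t => ∑ i, σ i t • y.1 i + α t • y.2.1 + β t • y.2.2, ?_⟩
  refine Prod.ext ?_ (Prod.ext ?_ ?_)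
  · funext i'
    show ∑ j, s j • (∑ i, σ i (w i' j) • y.1 i + α (w i' j) • y.2.1 + β (w i' j) • y.2.2) = y.1 i'
    have e1 : ∀ j, s j • (∑ i, σ i (w i' j) • y.1 i + α (w i' j) • y.2.1 + β (w i' j) • y.2.2) =
        ∑ i, (s j * σ i (w i' j)) • y.1 i + (s j * α (w i' j)) • y.2.1 +
          (s j * β (w i' j)) • y.2.2 := by
      intro j
      rw [smul_add, smul_add, Finset.smul_sum]
      simp only [mul_smul]
    rw [Finset.sum_congr rfl fun j _ => e1 j, Finset.sum_add_distrib, Finset.sum_add_distrib,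
      Finset.sum_comm, ← Finset.sum_smul, ← Finset.sum_smul]
    have e2 : (∑ j, s j * α (w i' j)) = 0 := congrFun hα.1 i'
    have e3 : (∑ j, s j * β (w i' j)) = 0 := congrFun hβ.1 i'
    rw [e2, e3, zero_smul, zero_smul, add_zero, add_zero]
    have e4 : ∀ i, (∑ j, (s j * σ i (w i' j)) • y.1 i) =
        (Pi.single i 1 : Fin m → S) i' • y.1 i := by
      intro i
      rw [← Finset.sum_smul]
      congr 1
      exact congrFun (hσ i).1 i'
    rw [Finset.sum_congr rfl fun i _ => e4 i]
    rw [Finset.sum_eq_single i']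
    · rw [Pi.single_eq_same, one_smul]
    · intro i _ hi
      rw [Pi.single_eq_of_ne (Ne.symm hi), zero_smul]
    · intro hi; exact absurd (Finset.mem_univ _) hi
  · show ∑ i, σ i u • y.1 i + α u • y.2.1 + β u • y.2.2 = y.2.1
    have : ∀ i, σ i u = 0 := fun i => (hσ i).2.1
    simp [this, hα.2.1, hβ.2.1]
  · show ∑ i, σ i v • y.1 i + α v • y.2.1 + β v • y.2.2 = y.2.2
    have : ∀ i, σ i v = 0 := fun i => (hσ i).2.2
    simp [this, hα.2.2, hβ.2.2]

end Pool.Agent.Lib_helper39.UE
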