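import Pool.Agent.Lib_helper39.UE.Rank
import Pool.Agent.Lib_helper39.UE.LIFT

/-!
Block FINM: finite modules from the rank theorem over all residue fields.
-/

set_option autoImplicit false

namespace Pool.Agent.Lib_helper39.UE

open Finset

theorem finm_pr_mono {α : Type} [Fintype α] {p q : α → Prop} (h : ∀ a, p a → q a) :
    pr p ≤ pr q := by
  classical
  unfold pr avg
  apply div_le_div_of_nonneg_right _ (Nat.cast_nonneg _)
  apply Finset.sum_le_sum
  intro a _
  by_cases hp : p a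
  · rw [if_pos hp, if_pos (h a hp)]
  · rw [if_neg hp]
    split_ifs <;> norm_num

theorem finm_pr_union {α ι : Type} [Fintype α] [Fintype ι] (p : ι → α → Prop) :
    pr (fun a => ∃ i, p i a) ≤ ∑ i, pr (p i) := by
  classical
  unfold pr avg
  rw [← Finset.sum_div]
  apply div_le_div_of_nonneg_right _ (Nat.cast_nonneg _)
  rw [Finset.sum_comm]
  apply Finset.sum_le_sum
  intro a _
  split_ifs with h
  · obtain ⟨i, hi⟩ := h
    have h1 : (if p i a then (1 : ℝ) else 0) ≤ ∑ i, if p i a then (1 : ℝ) else 0 :=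
      Finset.single_le_sum (f := fun i => if p i a then (1 : ℝ) else 0)
        (fun j _ => by split_ifs <;> norm_num) (Finset.mem_univ i)
    rw [if_pos hi] at h1
    exact h1
  · apply Finset.sum_nonneg
    intro i _
    split_ifs <;> norm_num

theorem fin_module {κ : ℕ} (hκ : 2 ≤ κ) {S A : Type} [CommRing S] [Finite S]
    [AddCommGroup A] [Module S A] [Finite A] (s : Fin (κ + 1) → S) (hs : ∀ j, IsUnit (s j))
    (ε δ : ℝ) (hε : 0 < ε) (hδ : 0 < δ) :
    ∃ n₀ : ℕ, ∀ n : ℕ, n₀ ≤ n → ∀ m : ℕ, (m : ℝ) < (dk (κ + 1) / ((κ : ℝ) + 1) - ε) * n →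
      pr (fun w : Fin m → (Fin (κ + 1) ↪ Fin n) =>
        ¬ ∃ B : Finset (Fin n × Fin n), (B.card : ℝ) ≤ δ * (n : ℝ) ^ 2 ∧
          ∀ u v, (u, v) ∉ B → Function.Surjective (fun x : Fin n → A =>
            ((fun i => ∑ j, s j • x (w i j), x u, x v) : (Fin m → A) × A × A))) ≤ δ := by
  classical
  have hfin : Finite (Ideal S) := Finite.of_injective (fun I : Ideal S => (I : Set S))
    SetLike.coe_injective
  let MI := {I : Ideal S // I.IsMaximal}
  haveI : Finite MI := Subtype.finite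
  letI : Fintype MI := Fintype.ofFinite MI
  set N : ℝ := (Fintype.card MI : ℝ) with hN
  have hN0 : 0 ≤ N := Nat.cast_nonneg _
  set δ' : ℝ := δ / (N + 1) with hδ'
  have hδ'0 : 0 < δ' := by positivity
  have hNδ : N * δ' ≤ δ := by
    rw [hδ', mul_div_assoc', div_le_iff₀ (by positivity)]
    nlinarith
  have hc : ((κ : ℝ) + 1) * (dk (κ + 1) / ((κ : ℝ) + 1) - ε) < dk (κ + 1) := by
    have h1 : ((κ : ℝ) + 1) * (dk (κ + 1) / ((κ : ℝ) + 1)) = dk (κ + 1) := by
      field_simp
    rw [mul_sub, h1]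
    have : 0 < ((κ : ℝ) + 1) * ε := by positivity
    linarith
  have hex : ∀ I : MI, ∃ n₀ : ℕ, ∀ n : ℕ, n₀ ≤ n → ∀ m : ℕ,
      (m : ℝ) ≤ (dk (κ + 1) / ((κ : ℝ) + 1) - ε) * n →
      pr (fun w : Fin m → (Fin (κ + 1) ↪ Fin n) =>
        ¬ (LinearIndependent (S ⧸ I.1)
            (fun i => row (fun j => Ideal.Quotient.mk I.1 (s j)) (w i) :
              Fin m → (Fin n → S ⧸ I.1)) ∧
          ((univ.filter (fun uv : Fin n × Fin n =>
            BadPair (fun j => Ideal.Quotient.mk I.1 (s j)) w uv.1 uv.2)).card : ℝ)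
            ≤ δ' * (n : ℝ) ^ 2)) ≤ δ' := by
    intro I
    haveI := I.2
    letI : Field (S ⧸ I.1) := Ideal.Quotient.field I.1
    exact rank_theorem hκ (fun j => Ideal.Quotient.mk I.1 (s j))
      (fun j => ((hs j).map (Ideal.Quotient.mk I.1)).ne_zero) _ hc δ' hδ'0
  choose n₀ hn₀ using hex
  refine ⟨univ.sup n₀, fun n hn m hm => ?_⟩
  have hunion := finm_pr_union (fun (I : MI) (w : Fin m → (Fin (κ + 1) ↪ Fin n)) =>
        ¬ (LinearIndependent (S ⧸ I.1)
            (fun i => row (fun j => Ideal.Quotient.mk I.1 (s j)) (w i) :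
              Fin m → (Fin n → S ⧸ I.1)) ∧
          ((univ.filter (fun uv : Fin n × Fin n =>
            BadPair (fun j => Ideal.Quotient.mk I.1 (s j)) w uv.1 uv.2)).card : ℝ)
            ≤ δ' * (n : ℝ) ^ 2))
  have hsum : ∑ I : MI, pr (fun w : Fin m → (Fin (κ + 1) ↪ Fin n) =>
        ¬ (LinearIndependent (S ⧸ I.1)
            (fun i => row (fun j => Ideal.Quotient.mk I.1 (s j)) (w i) :
              Fin m → (Fin n → S ⧸ I.1)) ∧
          ((univ.filter (fun uv : Fin n × Fin n =>
            BadPair (fun j => Ideal.Quotient.mk I.1 (s j)) w uv.1 uv.2)).card : ℝ)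
            ≤ δ' * (n : ℝ) ^ 2)) ≤ N * δ' := by
    have h1 := Finset.sum_le_sum (s := (univ : Finset MI)) fun I _ => hn₀ I n
      ((Finset.le_sup (f := n₀) (Finset.mem_univ I)).trans hn) m hm.le
    refine h1.trans ?_
    rw [Finset.sum_const, Finset.card_univ, nsmul_eq_mul]
  refine le_trans (finm_pr_mono ?_) (hunion.trans (hsum.trans hNδ))
  intro w hw
  by_contra hcon
  push Not at hcon
  apply hw
  refine ⟨univ.biUnion fun I : MI => univ.filter (fun uv : Fin n × Fin n =>
            BadPair (fun j => Ideal.Quotient.mk I.1 (s j)) w uv.1 uv.2), ?_, ?_⟩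
  · have h1 : ((univ.biUnion fun I : MI => univ.filter (fun uv : Fin n × Fin n =>
            BadPair (fun j => Ideal.Quotient.mk I.1 (s j)) w uv.1 uv.2)).card : ℝ) ≤
        ∑ I : MI, ((univ.filter (fun uv : Fin n × Fin n =>
            BadPair (fun j => Ideal.Quotient.mk I.1 (s j)) w uv.1 uv.2)).card : ℝ) := by
      exact_mod_cast Finset.card_biUnion_le
    refine h1.trans ?_
    have h2 := Finset.sum_le_sum (s := (univ : Finset MI)) fun I _ => (hcon I).2
    refine h2.trans ?_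
    rw [Finset.sum_const, Finset.card_univ, nsmul_eq_mul, ← mul_assoc]
    exact mul_le_mul_of_nonneg_right hNδ (by positivity)
  · intro u v huv
    apply lift s w u v
    intro I hI
    refine ⟨(hcon ⟨I, hI⟩).1, fun hb => huv ?_⟩
    rw [Finset.mem_biUnion]
    exact ⟨⟨I, hI⟩, Finset.mem_univ _, Finset.mem_filter.2 ⟨Finset.mem_univ _, hb⟩⟩

end Pool.Agent.Lib_helper39.UE
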