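import Pool.Agent.Lib_helper39.UE.MONO

/-!
Block FRL: large dependencies.
-/

set_option autoImplicit false

namespace Pool.Agent.Lib_helper39.UE

open Finset

open Classical in
theorem frl {F : Type} [Field F] {E W : Type} [Fintype E] [Nonempty E] [AddCommGroup W]
    [Module F W] (vec : E → W) (m : ℕ) (K : ℝ) (hK : 0 < K) :
    pr (fun w : Fin m → E => ∃ b : Fin m → F, ∑ i, b i • vec (w i) = 0 ∧
        K ≤ ((univ.filter (fun i => b i ≠ 0)).card : ℝ)) ≤ m * pm F vec m / K := by
  cases m with
  | zero =>
    have h1 : ∀ w : Fin 0 → E, ¬ ∃ b : Fin 0 → F, ∑ i, b i • vec (w i) = 0 ∧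
        K ≤ ((univ.filter (fun i => b i ≠ 0)).card : ℝ) := by
      rintro w ⟨b, _, hb⟩
      simp only [Finset.univ_eq_empty, Finset.filter_empty, Finset.card_empty] at hb
      push_cast at hb
      linarith
    unfold pr avg
    simp only [h1, if_false]
    simp
  | succ m =>
    -- probability that the `i`-th one depends on the others
    have hi : ∀ i : Fin (m + 1), pr (fun w : Fin (m + 1) → E =>
        vec (w i) ∈ Submodule.span F (Set.range fun j => vec (w (i.succAbove j)))) =
        pm F vec m := by
      intro i
      let e : (Fin (m + 1) → E) ≃ (Fin m → E) × E :=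
        (Fin.insertNthEquiv (fun _ => E) i).symm.trans (Equiv.prodComm _ _)
      unfold pm pr avg
      rw [Fintype.card_congr e]
      congr 1
      refine Fintype.sum_equiv e _ _ fun w => ?_
      rfl
    have hpm : pm F vec m ≤ pm F vec (m + 1) := pm_mono vec (Nat.le_succ m)
    have hcard : (0 : ℝ) < Fintype.card (Fin (m + 1) → E) := by exact_mod_cast Fintype.card_pos
    rw [le_div_iff₀ hK]
    calc pr (fun w : Fin (m + 1) → E => ∃ b : Fin (m + 1) → F, ∑ i, b i • vec (w i) = 0 ∧
          K ≤ ((univ.filter (fun i => b i ≠ 0)).card : ℝ)) * K
        ≤ ∑ i : Fin (m + 1), pr (fun w : Fin (m + 1) → E =>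
            vec (w i) ∈ Submodule.span F (Set.range fun j => vec (w (i.succAbove j)))) := by
          unfold pr avg
          rw [← Finset.sum_div, div_mul_eq_mul_div]
          apply div_le_div_of_nonneg_right _ hcard.le
          rw [Finset.sum_comm, Finset.sum_mul]
          apply Finset.sum_le_sum
          intro w _
          split_ifs with hw
          · obtain ⟨b, hb, hbK⟩ := hw
            rw [one_mul]
            refine hbK.trans ?_
            rw [Finset.sum_ite, Finset.sum_const_zero, add_zero, Finset.sum_const, nsmul_eq_mul,
              mul_one]
            have hsub : univ.filter (fun i => b i ≠ 0) ⊆ univ.filter (fun i : Fin (m + 1) =>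
                vec (w i) ∈ Submodule.span F (Set.range fun j => vec (w (i.succAbove j)))) := by
              intro i hbi
              simp only [Finset.mem_filter, Finset.mem_univ, true_and] at hbi ⊢
              rw [Fin.sum_univ_succAbove _ i] at hb
              have h1 : vec (w i) = - ((b i)⁻¹ • ∑ j : Fin m, b (i.succAbove j) •
                  vec (w (i.succAbove j))) := by
                rw [eq_neg_iff_add_eq_zero]
                have h2 := congrArg (fun x => (b i)⁻¹ • x) hb
                simp only [smul_add, smul_zero] at h2
                rw [smul_smul, inv_mul_cancel₀ hbi, one_smul] at h2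
                exact h2
              rw [h1]
              apply Submodule.neg_mem
              apply Submodule.smul_mem
              apply Submodule.sum_mem
              intro j _
              apply Submodule.smul_mem
              exact Submodule.subset_span ⟨j, rfl⟩
            exact_mod_cast Finset.card_le_card hsub
          · rw [zero_mul]
            apply Finset.sum_nonneg
            intro i _
            split_ifs <;> norm_num
      _ = ((m + 1 : ℕ) : ℝ) * pm F vec m := by
          simp only [hi]
          rw [Finset.sum_const, Finset.card_univ, Fintype.card_fin, nsmul_eq_mul]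
      _ ≤ ((m + 1 : ℕ) : ℝ) * pm F vec (m + 1) :=
          mul_le_mul_of_nonneg_left hpm (Nat.cast_nonneg _)

end Pool.Agent.Lib_helper39.UE
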