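import Pool.Agent.Lib_helper39.UE.Defs

/-!
Block STRA of MP_82d614_pr: a reducible set of uniquely extendable constraint functions of arity
at least four consists of the equations of an abelian group.
-/

namespace Pool.Agent.Lib_helper39.UE

open Finset

section stra

variable {Ω : Type} {k : ℕ}

/-- replace two entries -/
def strUp (i j : Fin k) (x : Fin k → Ω) (a b : Ω) : Fin k → Ω :=
  Function.update (Function.update x i a) j b

lemma strUp_fst {i j : Fin k} (hij : i ≠ j) (x : Fin k → Ω) (a b : Ω) : strUp i j x a b i = a := by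
  unfold strUp
  rw [Function.update_of_ne hij, Function.update_self]

lemma strUp_snd (i j : Fin k) (x : Fin k → Ω) (a b : Ω) : strUp i j x a b j = b := by
  unfold strUp
  rw [Function.update_self]

lemma strUp_ne {i j l : Fin k} (hi : l ≠ i) (hj : l ≠ j) (x : Fin k → Ω) (a b : Ω) :
    strUp i j x a b l = x l := by
  unfold strUp
  rw [Function.update_of_ne hj, Function.update_of_ne hi]

lemma strUp_self {i j : Fin k} (x : Fin k → Ω) : strUp i j x (x i) (x j) = x := by
  funext l
  by_cases hj : l = j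
  · subst hj; exact strUp_snd _ _ _ _ _
  · by_cases hi : l = i
    · subst hi; rw [strUp_fst hj]
    · exact strUp_ne hi hj _ _ _

lemma permClosure_perm {Ψ : Set ((Fin k → Ω) → Bool)} {ψ : (Fin k → Ω) → Bool}
    (h : ψ ∈ permClosure Ψ) (α : Equiv.Perm (Fin k)) :
    (fun x => ψ (fun i => x (α i))) ∈ permClosure Ψ := by
  obtain ⟨χ, hχ, β, rfl⟩ := h
  exact ⟨χ, hχ, β.trans α, rfl⟩

lemma subset_permClosure {Ψ : Set ((Fin k → Ω) → Bool)} {ψ : (Fin k → Ω) → Bool}
    (h : ψ ∈ Ψ) : ψ ∈ permClosure Ψ := ⟨ψ, h, 1, rfl⟩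

lemma permClosure_UExt {Ψ : Set ((Fin k → Ω) → Bool)} (hU : ∀ ψ ∈ Ψ, UExt ψ)
    {ψ : (Fin k → Ω) → Bool} (h : ψ ∈ permClosure Ψ) : UExt ψ := by
  obtain ⟨χ, hχ, β, rfl⟩ := h
  intro i x
  have h1 := hU χ hχ (β.symm i) (fun j => x (β j))
  have h2 : ∀ t, (fun j => Function.update x i t (β j)) =
      Function.update (fun j => x (β j)) (β.symm i) t := by
    intro t
    funext j
    by_cases hj : j = β.symm i
    · subst hj
      simp
    · rw [Function.update_of_ne hj, Function.update_of_ne]
      intro h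
      exact hj (by rw [← h, Equiv.symm_apply_apply])
  simpa only [h2] using h1

lemma exists_perm_two {i j p q : Fin k} (hij : i ≠ j) (hpq : p ≠ q) :
    ∃ α : Equiv.Perm (Fin k), α i = p ∧ α j = q := by
  refine ⟨(Equiv.swap i p).trans (Equiv.swap (Equiv.swap i p j) q), ?_, ?_⟩
  · rw [Equiv.trans_apply, Equiv.swap_apply_left]
    apply Equiv.swap_apply_of_ne_of_ne
    · intro h
      have h1 : Equiv.swap i p i = Equiv.swap i p j := by rw [Equiv.swap_apply_left]; exact h
      exact hij ((Equiv.swap i p).injective h1)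
    · exact hpq
  · rw [Equiv.trans_apply, Equiv.swap_apply_left]

/-- two pairs are interchangeable -/
def StrRel (Ψ : Set ((Fin k → Ω) → Bool)) (a b a' b' : Ω) : Prop :=
  ∀ ψ ∈ permClosure Ψ, ∀ i j : Fin k, i ≠ j → ∀ x : Fin k → Ω,
    ψ (strUp i j x a b) = true ↔ ψ (strUp i j x a' b') = true

lemma strRel_of {Ψ : Set ((Fin k → Ω) → Bool)} (hk : 2 ≤ k) (hR : Reducible (permClosure Ψ))
    {a b a' b' : Ω} {ψ : (Fin k → Ω) → Bool} (hψ : ψ ∈ permClosure Ψ) {i j : Fin k}
    (hij : i ≠ j) {x : Fin k → Ω} (h1 : ψ (strUp i j x a b) = true)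
    (h2 : ψ (strUp i j x a' b') = true) : StrRel Ψ a b a' b' := by
  let p : Fin k := ⟨0, by omega⟩
  let q : Fin k := ⟨1, by omega⟩
  have hpq : p ≠ q := by
    intro h
    have := congrArg Fin.val h
    simp [p, q] at this
  -- transport to the first two positions
  have key : ∀ φ ∈ permClosure Ψ, ∀ l m : Fin k, l ≠ m → ∃ φ' ∈ permClosure Ψ,
      ∀ y : Fin k → Ω, ∃ z : Fin k → Ω, ∀ c d : Ω,
        φ (strUp l m y c d) = φ' (mix 2 (fun t => if t.val = 0 then c else d) z) := by
    intro φ hφ l m hlm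
    obtain ⟨α, hα1, hα2⟩ := exists_perm_two hlm hpq
    refine ⟨_, permClosure_perm hφ α, ?_⟩
    intro y
    refine ⟨fun t => y (α.symm t), ?_⟩
    intro c d
    congr 1
    funext t
    by_cases hm : t = m
    · subst hm
      rw [strUp_snd, hα2]
      simp [mix, q]
    · by_cases hl : t = l
      · subst hl
        rw [strUp_fst hlm, hα1]
        simp [mix, p]
      · rw [strUp_ne hl hm]
        have h3 : α t ≠ p := by rw [← hα1]; exact fun h => hl (α.injective h)
        have h4 : α t ≠ q := by rw [← hα2]; exact fun h => hm (α.injective h)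
        have h5 : ¬ (α t).val < 2 := by
          intro h
          have h6 : (α t).val ≠ 0 := fun h => h3 (Fin.ext h)
          have h7 : (α t).val ≠ 1 := fun h => h4 (Fin.ext h)
          omega
        simp [mix, h5]
  obtain ⟨ψ₁, hψ₁, hz₁⟩ := key ψ hψ i j hij
  obtain ⟨z, hz⟩ := hz₁ x
  rw [hz] at h1 h2
  intro φ hφ l m hlm y
  obtain ⟨φ₁, hφ₁, hw₁⟩ := key φ hφ l m hlm
  obtain ⟨w, hw⟩ := hw₁ y
  rw [hw, hw]
  constructor
  · intro h3
    exact hR 2 hk _ _ z w ψ₁ hψ₁ φ₁ hφ₁ h1 h2 h3
  · intro h3
    exact hR 2 hk _ _ z w ψ₁ hψ₁ φ₁ hφ₁ h2 h1 h3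

lemma StrRel.symm {Ψ : Set ((Fin k → Ω) → Bool)} {a b a' b' : Ω} (h : StrRel Ψ a b a' b') :
    StrRel Ψ a' b' a b := fun ψ hψ i j hij x => (h ψ hψ i j hij x).symm

lemma StrRel.trans {Ψ : Set ((Fin k → Ω) → Bool)} {a b a' b' a'' b'' : Ω}
    (h : StrRel Ψ a b a' b') (h' : StrRel Ψ a' b' a'' b'') :
    StrRel Ψ a b a'' b'' := fun ψ hψ i j hij x => (h ψ hψ i j hij x).trans (h' ψ hψ i j hij x)

/-- a satisfying assignment with three prescribed entries -/
lemma exists_sat (hk : 4 ≤ k) {ψ : (Fin k → Ω) → Bool} (hU : UExt ψ) (a b c : Ω) :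
    ∃ x : Fin k → Ω, ψ x = true ∧ x ⟨0, by omega⟩ = a ∧ x ⟨1, by omega⟩ = b ∧
      x ⟨2, by omega⟩ = c := by
  let x₀ : Fin k → Ω := fun t => if t.val = 0 then a else if t.val = 1 then b else c
  obtain ⟨t, ht, _⟩ := hU ⟨3, by omega⟩ x₀
  refine ⟨Function.update x₀ ⟨3, by omega⟩ t, ht, ?_, ?_, ?_⟩
  · rw [Function.update_of_ne (by simp [Fin.ext_iff])]
    simp [x₀]
  · rw [Function.update_of_ne (by simp [Fin.ext_iff])]
    simp [x₀]
  · rw [Function.update_of_ne (by simp [Fin.ext_iff])]
    simp [x₀]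

end stra

theorem structure_a {Ω : Type} [Finite Ω] [Nonempty Ω] {k : ℕ} (hk : 4 ≤ k)
    (Ψ : Set ((Fin k → Ω) → Bool)) (hne : Ψ.Nonempty) (hU : ∀ ψ ∈ Ψ, UExt ψ)
    (hR : Reducible (permClosure Ψ)) :
    ∃ _ : AddCommGroup Ω, ∀ ψ ∈ Ψ, ∃ c : Ω, ∀ x : Fin k → Ω, ψ x = true ↔ ∑ j, x j = c := by
  classical
  obtain ⟨ψ₀, hψ₀'⟩ := hne
  have hψ₀ := subset_permClosure hψ₀'
  have hU₀ := hU ψ₀ hψ₀'
  obtain ⟨e⟩ := (inferInstance : Nonempty Ω)
  let p0 : Fin k := ⟨0, by omega⟩
  let p1 : Fin k := ⟨1, by omega⟩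
  let p2 : Fin k := ⟨2, by omega⟩
  have h01 : p0 ≠ p1 := by simp [p0, p1, Fin.ext_iff]
  have h02 : p0 ≠ p2 := by simp [p0, p2, Fin.ext_iff]
  have h12 : p1 ≠ p2 := by simp [p1, p2, Fin.ext_iff]
  have hk2 : 2 ≤ k := by omega
  -- uniqueness at the two positions
  have uniqL : ∀ {a b a' : Ω}, StrRel Ψ a b a' b → a = a' := by
    intro a b a' h
    obtain ⟨x, hx, hx0, hx1, _⟩ := exists_sat hk hU₀ a b e
    have h1 : ψ₀ (strUp p0 p1 x a b) = true := by
      have : strUp p0 p1 x a b = x := by rw [← hx0, ← hx1]; exact strUp_self x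
      rw [this]; exact hx
    have h2 := (h ψ₀ hψ₀ p0 p1 h01 x).mp h1
    have h3 : ∀ t, strUp p0 p1 x t b = Function.update (Function.update x p1 b) p0 t := by
      intro t
      unfold strUp
      rw [Function.update_comm h01]
    rw [h3] at h1 h2
    exact (hU₀ p0 (Function.update x p1 b)).unique h1 h2
  have uniqR : ∀ {a b b' : Ω}, StrRel Ψ a b a b' → b = b' := by
    intro a b b' h
    obtain ⟨x, hx, hx0, hx1, _⟩ := exists_sat hk hU₀ a b e
    have h1 : ψ₀ (strUp p0 p1 x a b) = true := by
      have : strUp p0 p1 x a b = x := by rw [← hx0, ← hx1]; exact strUp_self x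
      rw [this]; exact hx
    have h2 := (h ψ₀ hψ₀ p0 p1 h01 x).mp h1
    exact (hU₀ p1 (Function.update x p0 a)).unique h1 h2
  -- existence
  have exL : ∀ a b b' : Ω, ∃ a', StrRel Ψ a b a' b' := by
    intro a b b'
    obtain ⟨x, hx, hx0, hx1, _⟩ := exists_sat hk hU₀ a b e
    have h1 : ψ₀ (strUp p0 p1 x a b) = true := by
      have : strUp p0 p1 x a b = x := by rw [← hx0, ← hx1]; exact strUp_self x
      rw [this]; exact hx
    obtain ⟨t, ht, _⟩ := hU₀ p0 (Function.update x p1 b')
    refine ⟨t, strRel_of hk2 hR hψ₀ h01 h1 (x := x) ?_⟩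
    unfold strUp
    rw [Function.update_comm h01]
    exact ht
  have exR : ∀ a b a' : Ω, ∃ b', StrRel Ψ a b a' b' := by
    intro a b a'
    obtain ⟨x, hx, hx0, hx1, _⟩ := exists_sat hk hU₀ a b e
    have h1 : ψ₀ (strUp p0 p1 x a b) = true := by
      have : strUp p0 p1 x a b = x := by rw [← hx0, ← hx1]; exact strUp_self x
      rw [this]; exact hx
    obtain ⟨t, ht, _⟩ := hU₀ p1 (Function.update x p0 a')
    exact ⟨t, strRel_of hk2 hR hψ₀ h01 h1 (x := x) ht⟩
  choose ad had using fun a b : Ω => exL a b e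
  choose s hs using fun a : Ω => exR a e e
  -- change of entries of a satisfying assignment
  have chg : ∀ {a b a' b' : Ω}, StrRel Ψ a b a' b' → ∀ i j : Fin k, i ≠ j → ∀ x : Fin k → Ω,
      x i = a → x j = b → ψ₀ x = true → ψ₀ (strUp i j x a' b') = true := by
    intro a b a' b' h i j hij x hi hj hx
    refine (h ψ₀ hψ₀ i j hij x).mp ?_
    have : strUp i j x a b = x := by rw [← hi, ← hj]; exact strUp_self x
    rw [this]; exact hx
  -- `s = id`
  have hs' : ∀ a, s a = a := by
    intro a
    obtain ⟨x, hx, hx0, hx1, hx2⟩ := exists_sat hk hU₀ a e e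
    -- positions 0,1 then 1,2
    have h1 := chg (hs a) p0 p1 h01 x hx0 hx1 hx
    have h2 := chg (hs (s a)) p1 p2 h12 _ (strUp_snd _ _ _ _ _)
      (by rw [strUp_ne h02.symm h12.symm]; exact hx2) h1
    have h3 := chg (hs a) p0 p2 h02 x hx0 hx2 hx
    have e1 : strUp p1 p2 (strUp p0 p1 x e (s a)) e (s (s a)) =
        Function.update (Function.update (Function.update x p0 e) p1 e) p2 (s (s a)) := by
      unfold strUp
      rw [Function.update_idem]
    have e2 : strUp p0 p2 x e (s a) =
        Function.update (Function.update (Function.update x p0 e) p1 e) p2 (s a) := by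
      have h4 : Function.update (Function.update x p0 e) p1 e = Function.update x p0 e := by
        apply Function.update_eq_self_iff.mpr
        rw [Function.update_of_ne h01.symm]
        exact hx1.symm
      rw [h4]
      rfl
    rw [e1] at h2
    rw [e2] at h3
    have h5 : s (s a) = s a := (hU₀ p2 _).unique h2 h3
    have h6 : StrRel Ψ (s a) e e (s a) := by
      have := hs (s a)
      rwa [h5] at this
    exact uniqL (h6.trans (hs a).symm)
  have hswap : ∀ a, StrRel Ψ a e e a := by
    intro a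
    have := hs a
    rwa [hs'] at this
  -- commutativity
  have hcomm : ∀ a b, ad a b = ad b a := by
    intro a b
    obtain ⟨x, hx, hx0, hx1, _⟩ := exists_sat hk hU₀ a b e
    have h1 := chg (had a b) p0 p1 h01 x hx0 hx1 hx
    have h2 := chg (had b a) p1 p0 h01.symm x hx1 hx0 hx
    have h3 := chg (hswap (ad a b)) p0 p1 h01 _ (strUp_fst h01 _ _ _) (strUp_snd _ _ _ _ _) h1
    have e1 : strUp p0 p1 (strUp p0 p1 x (ad a b) e) e (ad a b) =
        Function.update (Function.update x p0 e) p1 (ad a b) := by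
      unfold strUp
      rw [Function.update_comm h01, Function.update_idem, Function.update_comm h01,
        Function.update_idem]
      exact Function.update_comm h01.symm _ _ _
    have e2 : strUp p1 p0 x (ad b a) e = Function.update (Function.update x p0 e) p1 (ad b a) := by
      unfold strUp
      rw [Function.update_comm h01.symm]
    rw [e1] at h3
    rw [e2] at h2
    exact (hU₀ p1 _).unique h3 h2
  -- associativity
  have hassoc : ∀ a b c, ad (ad a b) c = ad a (ad b c) := by
    intro a b c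
    obtain ⟨x, hx, hx0, hx1, hx2⟩ := exists_sat hk hU₀ a b c
    have h1 := chg (had a b) p0 p1 h01 x hx0 hx1 hx
    have h2 := chg (had (ad a b) c) p0 p2 h02 _ (strUp_fst h01 _ _ _)
      (by rw [strUp_ne h02.symm h12.symm]; exact hx2) h1
    have h3 := chg (had b c) p1 p2 h12 x hx1 hx2 hx
    have h4 := chg (had a (ad b c)) p0 p1 h01 _ (by rw [strUp_ne h01 h02]; exact hx0)
      (strUp_fst h12 _ _ _) h3
    have e1 : strUp p0 p2 (strUp p0 p1 x (ad a b) e) (ad (ad a b) c) e =
        Function.update (Function.update (Function.update x p1 e) p2 e) p0 (ad (ad a b) c) := by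
      unfold strUp
      rw [Function.update_comm h01, Function.update_idem, Function.update_comm h02]
    have e2 : strUp p0 p1 (strUp p1 p2 x (ad b c) e) (ad a (ad b c)) e =
        Function.update (Function.update (Function.update x p1 e) p2 e) p0 (ad a (ad b c)) := by
      unfold strUp
      rw [Function.update_comm h01, Function.update_comm h12.symm, Function.update_idem,
        Function.update_comm h12]
    rw [e1] at h2
    rw [e2] at h4
    exact (hU₀ p0 _).unique h2 h4
  -- neutral element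
  have hrefl : ∀ a b, StrRel Ψ a b a b := fun a b ψ hψ i j hij x => Iff.rfl
  have hzero : ∀ a, ad a e = a := fun a => uniqL ((had a e).symm)
  -- inverses
  choose ng hng using fun a : Ω => exR e e a
  have hneg : ∀ a, ad a (ng a) = e := by
    intro a
    exact uniqL ((had a (ng a)).symm.trans (hng a).symm)
  let instA : Add Ω := ⟨ad⟩
  let instZ : Zero Ω := ⟨e⟩
  let instN : Neg Ω := ⟨ng⟩
  let instG : AddGroup Ω := AddGroup.ofLeftAxioms hassoc
    (fun a => (hcomm e a).trans (hzero a)) (fun a => (hcomm (ng a) a).trans (hneg a))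
  let inst : AddCommGroup Ω := { instG with add_comm := hcomm }
  refine ⟨inst, ?_⟩
  intro ψ hψ
  have hψ' := subset_permClosure hψ
  have h0e : (0 : Ω) = e := rfl
  have gather : ∀ i j : Fin k, i ≠ j → ∀ x : Fin k → Ω,
      ψ x = true ↔ ψ (strUp i j x (x i + x j) 0) = true := by
    intro i j hij x
    have h := had (x i) (x j) ψ hψ' i j hij x
    rw [strUp_self] at h
    exact h
  obtain ⟨c, hc, hcu⟩ := hU ψ hψ p0 (fun _ => (0 : Ω))
  refine ⟨c, ?_⟩
  intro x
  have main : ∀ S : Finset (Fin k), p0 ∉ S →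
      (ψ x = true ↔
        ψ (fun i => if i = p0 then x p0 + ∑ j ∈ S, x j else if i ∈ S then 0 else x i) = true) := by
    intro S
    induction S using Finset.induction_on with
    | empty =>
      intro _
      have : (fun i => if i = p0 then x p0 + ∑ j ∈ (∅ : Finset (Fin k)), x j
          else if i ∈ (∅ : Finset (Fin k)) then 0 else x i) = x := by
        funext i
        by_cases hi : i = p0
        · simp [hi]
        · simp [hi]
      rw [this]
    | insert l S hl ih =>
      intro hp
      have hlp : p0 ≠ l := by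
        intro h
        exact hp (Finset.mem_insert.mpr (Or.inl h))
      have hpS : p0 ∉ S := fun h => hp (Finset.mem_insert_of_mem h)
      rw [ih hpS, gather p0 l hlp]
      have : strUp p0 l (fun i => if i = p0 then x p0 + ∑ j ∈ S, x j
            else if i ∈ S then 0 else x i)
          ((fun i => if i = p0 then x p0 + ∑ j ∈ S, x j else if i ∈ S then 0 else x i) p0 +
            (fun i => if i = p0 then x p0 + ∑ j ∈ S, x j else if i ∈ S then 0 else x i) l) 0 =
          (fun i => if i = p0 then x p0 + ∑ j ∈ insert l S, x j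
            else if i ∈ insert l S then 0 else x i) := by
        funext i
        by_cases hil : i = l
        · subst hil
          rw [strUp_snd]
          simp [hlp.symm]
        · by_cases hip : i = p0
          · subst hip
            rw [strUp_fst hlp]
            simp only [if_true, if_neg hlp.symm, if_neg hl]
            rw [Finset.sum_insert hl]
            abel
          · rw [strUp_ne hip hil]
            simp [hip, hil]
      rw [this]
  have hfin := main (Finset.univ.erase p0) (Finset.notMem_erase p0 _)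
  have e1 : (fun i => if i = p0 then x p0 + ∑ j ∈ Finset.univ.erase p0, x j
      else if i ∈ Finset.univ.erase p0 then 0 else x i) =
      Function.update (fun _ => (0 : Ω)) p0 (∑ j, x j) := by
    funext i
    by_cases hi : i = p0
    · subst hi
      rw [Function.update_self, if_pos rfl, Finset.add_sum_erase _ _ (Finset.mem_univ _)]
    · rw [Function.update_of_ne hi, if_neg hi, if_pos (Finset.mem_erase.mpr ⟨hi, Finset.mem_univ _⟩)]
  rw [hfin, e1]
  constructor
  · intro h
    exact hcu _ h
  · intro h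
    rw [h]
    exact hc

end Pool.Agent.Lib_helper39.UE
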