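import Pool.Agent.Lib_helper39.UE.Defs

/-!
Block STRB of MP_82d614_pr: uniquely extendable constraint functions of arity three all of whose
compositions of depth two are symmetric are given by one automorphism of an abelian group.
-/

namespace Pool.Agent.Lib_helper39.UE

open Finset

section strb

variable {Ω : Type}

/-- the quasigroup operation of a ternary constraint function -/
lemma strb_op {ψ : (Fin (2 + 1) → Ω) → Bool} (hU : UExt ψ) :
    ∃ op : Ω → Ω → Ω, (∀ a b c, ψ ![a, b, c] = true ↔ c = op a b) ∧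
      (∀ a b b', op a b = op a b' → b = b') ∧ (∀ a a' b, op a b = op a' b → a = a') ∧
      (∀ a c, ∃ b, op a b = c) := by
  have u2 : ∀ (a b c t : Ω), Function.update (![a, b, c] : Fin (2 + 1) → Ω) 2 t = ![a, b, t] := by
    intro a b c t
    funext i
    fin_cases i <;> rfl
  have u1 : ∀ (a b c t : Ω), Function.update (![a, b, c] : Fin (2 + 1) → Ω) 1 t = ![a, t, c] := by
    intro a b c t
    funext i
    fin_cases i <;> rfl
  have u0 : ∀ (a b c t : Ω), Function.update (![a, b, c] : Fin (2 + 1) → Ω) 0 t = ![t, b, c] := by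
    intro a b c t
    funext i
    fin_cases i <;> rfl
  have h2 : ∀ a b : Ω, ∃! t, ψ ![a, b, t] = true := by
    intro a b
    have := hU 2 ![a, b, a]
    simpa only [u2] using this
  have h1 : ∀ a c : Ω, ∃! t, ψ ![a, t, c] = true := by
    intro a c
    have := hU 1 ![a, a, c]
    simpa only [u1] using this
  have h0 : ∀ b c : Ω, ∃! t, ψ ![t, b, c] = true := by
    intro b c
    have := hU 0 ![b, b, c]
    simpa only [u0] using this
  choose op hop hop' using fun a b => (h2 a b)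
  have hiff : ∀ a b c, ψ ![a, b, c] = true ↔ c = op a b := by
    intro a b c
    constructor
    · intro h
      exact hop' a b c h
    · intro h
      rw [h]
      exact hop a b
  refine ⟨op, hiff, ?_, ?_, ?_⟩
  · intro a b b' h
    exact (h1 a (op a b)).unique ((hiff _ _ _).mpr rfl) ((hiff _ _ _).mpr h)
  · intro a a' b h
    exact (h0 b (op a b)).unique ((hiff _ _ _).mpr rfl) ((hiff _ _ _).mpr h)
  · intro a c
    obtain ⟨b, hb, _⟩ := h1 a c
    exact ⟨b, ((hiff _ _ _).mp hb).symm⟩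

/-- the four arguments -/
def strb4 (a b c d : Ω) : (Fin 2 → Fin 2) → Ω := fun w =>
  if w 0 = 0 then (if w 1 = 0 then a else b) else (if w 1 = 0 then c else d)

lemma strb_mem {Ψ : Set ((Fin (2 + 1) → Ω) → Bool)} {ψh ψf ψg : (Fin (2 + 1) → Ω) → Bool}
    (hh : ψh ∈ Ψ) (hf : ψf ∈ Ψ) (hg : ψg ∈ Ψ) {h f g : Ω → Ω → Ω}
    (oh : ∀ a b c, ψh ![a, b, c] = true ↔ c = h a b)
    (of : ∀ a b c, ψf ![a, b, c] = true ↔ c = f a b)
    (og : ∀ a b c, ψg ![a, b, c] = true ↔ c = g a b) :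
    (fun σ : (Fin 2 → Fin 2) → Ω => h (f (σ ![0, 0]) (σ ![0, 1])) (g (σ ![1, 0]) (σ ![1, 1]))) ∈
      Fset Ψ 2 := by
  have snoc3 : ∀ (u : Fin 2 → Ω) (c : Ω),
      (Fin.snoc (α := fun _ => Ω) u c : Fin (2 + 1) → Ω) = ![u 0, u 1, c] := by
    intro u c
    funext i
    fin_cases i <;> rfl
  have one : ∀ {χ : (Fin (2 + 1) → Ω) → Bool} (_ : χ ∈ Ψ) {q : Ω → Ω → Ω}
      (_ : ∀ a b c, χ ![a, b, c] = true ↔ c = q a b),
      (fun τ : (Fin 1 → Fin 2) → Ω => q (τ ![0]) (τ ![1])) ∈ Fset Ψ 1 := by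
    intro χ hχ q hq
    refine ⟨χ, hχ, fun _ τ => τ (fun j => j.elim0), fun j τ => rfl, ?_⟩
    intro σ
    rw [snoc3, hq]
    have e0 : (Fin.cons (0 : Fin 2) (fun j : Fin 0 => j.elim0) : Fin 1 → Fin 2) = ![0] := by
      funext i
      fin_cases i
      rfl
    have e1 : (Fin.cons (1 : Fin 2) (fun j : Fin 0 => j.elim0) : Fin 1 → Fin 2) = ![1] := by
      funext i
      fin_cases i
      rfl
    show q (σ ![0]) (σ ![1]) = q (σ (Fin.cons (0 : Fin 2) (fun j : Fin 0 => j.elim0)))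
      (σ (Fin.cons (1 : Fin 2) (fun j : Fin 0 => j.elim0)))
    rw [e0, e1]
  refine ⟨ψh, hh, fun j τ => if j = 0 then f (τ ![0]) (τ ![1]) else g (τ ![0]) (τ ![1]), ?_, ?_⟩
  · intro j
    by_cases hj : j = 0
    · subst hj
      exact one hf of
    · have : j = 1 := by omega
      subst this
      exact one hg og
  · intro σ
    rw [snoc3, oh]
    have e : ∀ i j : Fin 2, (Fin.cons i ![j] : Fin 2 → Fin 2) = ![i, j] := fun i j => rfl
    simp only [e]
    rfl

lemma strb_symm {Ψ : Set ((Fin (2 + 1) → Ω) → Bool)} (hS : ∀ g ∈ Fset Ψ 2, Symm g)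
    {ψh ψf ψg : (Fin (2 + 1) → Ω) → Bool}
    (hh : ψh ∈ Ψ) (hf : ψf ∈ Ψ) (hg : ψg ∈ Ψ) {h f g : Ω → Ω → Ω}
    (oh : ∀ a b c, ψh ![a, b, c] = true ↔ c = h a b)
    (of : ∀ a b c, ψf ![a, b, c] = true ↔ c = f a b)
    (og : ∀ a b c, ψg ![a, b, c] = true ↔ c = g a b) (a b c d : Ω) :
    h (f a b) (g c d) = h (f b a) (g c d) ∧ h (f a b) (g c d) = h (f a c) (g b d) ∧
      h (f a b) (g c d) = h (f a d) (g c b) := by
  have hs := hS _ (strb_mem hh hf hg oh of og)
  refine ⟨?_, ?_, ?_⟩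
  · have := hs (Equiv.swap ![0, 0] ![0, 1]) (strb4 a b c d)
    have e1 : (Equiv.swap (![0, 0] : Fin 2 → Fin 2) ![0, 1]) ![1, 0] = ![1, 0] := by decide
    have e2 : (Equiv.swap (![0, 0] : Fin 2 → Fin 2) ![0, 1]) ![1, 1] = ![1, 1] := by decide
    simp only [Equiv.swap_apply_left, Equiv.swap_apply_right, e1, e2] at this
    simpa [strb4] using this.symm
  · have := hs (Equiv.swap ![0, 1] ![1, 0]) (strb4 a b c d)
    have e1 : (Equiv.swap (![0, 1] : Fin 2 → Fin 2) ![1, 0]) ![0, 0] = ![0, 0] := by decide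
    have e2 : (Equiv.swap (![0, 1] : Fin 2 → Fin 2) ![1, 0]) ![1, 1] = ![1, 1] := by decide
    simp only [Equiv.swap_apply_left, Equiv.swap_apply_right, e1, e2] at this
    simpa [strb4] using this.symm
  · have := hs (Equiv.swap ![0, 1] ![1, 1]) (strb4 a b c d)
    have e1 : (Equiv.swap (![0, 1] : Fin 2 → Fin 2) ![1, 1]) ![0, 0] = ![0, 0] := by decide
    have e2 : (Equiv.swap (![0, 1] : Fin 2 → Fin 2) ![1, 1]) ![1, 0] = ![1, 0] := by decide
    simp only [Equiv.swap_apply_left, Equiv.swap_apply_right, e1, e2] at this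
    simpa [strb4] using this.symm

end strb

theorem structure_b {Ω : Type} [Finite Ω] [Nonempty Ω]
    (Ψ : Set ((Fin (2 + 1) → Ω) → Bool)) (hne : Ψ.Nonempty) (hU : ∀ ψ ∈ Ψ, UExt ψ)
    (hS : ∀ g ∈ Fset Ψ 2, Symm g) :
    ∃ (_ : AddCommGroup Ω) (φ : Ω ≃+ Ω), ∀ ψ ∈ Ψ, ∃ c : Ω, ∀ x : Fin (2 + 1) → Ω,
      ψ x = true ↔ φ (x 0) + φ (x 1) + c = x 2 := by
  classical
  obtain ⟨ψ₀, hψ₀⟩ := hne
  obtain ⟨f, of, fR, fL, fE⟩ := strb_op (hU ψ₀ hψ₀)
  obtain ⟨e⟩ := (inferInstance : Nonempty Ω)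
  have sy := fun a b c d => strb_symm hS hψ₀ hψ₀ hψ₀ of of of a b c d
  -- commutativity and the medial law
  have fcomm : ∀ a b, f a b = f b a := by
    intro a b
    exact fL _ _ _ (sy a b e e).1
  have med : ∀ a b c d, f (f a b) (f c d) = f (f a c) (f b d) := fun a b c d => (sy a b c d).2.1
  -- `P x = f x e`
  let P : Ω → Ω := fun x => f x e
  have hPinj : Function.Injective P := fun x y h => fL _ _ _ h
  have hPsurj : Function.Surjective P := by
    intro y
    obtain ⟨b, hb⟩ := fE e y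
    exact ⟨b, by rw [← hb]; exact fcomm _ _⟩
  let Pe : Ω ≃ Ω := Equiv.ofBijective P ⟨hPinj, hPsurj⟩
  have hPe : ∀ x, Pe x = f x e := fun x => rfl
  let ad : Ω → Ω → Ω := fun x y => f (Pe.symm x) (Pe.symm y)
  have had : ∀ x y, ad (Pe x) (Pe y) = f x y := by
    intro x y
    simp only [ad, Equiv.symm_apply_apply]
  let z : Ω := f e e
  have hzsymm : Pe.symm z = e := by
    rw [Equiv.symm_apply_eq]
    rfl
  have adcomm : ∀ x y, ad x y = ad y x := fun x y => fcomm _ _
  have adzero : ∀ x, ad x z = x := by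
    intro x
    simp only [ad, hzsymm]
    exact Pe.apply_symm_apply x
  have adcancel : ∀ x y t, ad x t = ad y t → x = y := by
    intro x y t h
    exact Pe.symm.injective (fL _ _ _ h)
  -- the medial law for `ad`
  have med' : ∀ x y u w, ad (Pe (ad x y)) (Pe (ad u w)) = ad (Pe (ad x u)) (Pe (ad y w)) := by
    intro x y u w
    rw [had, had]
    exact med _ _ _ _
  have m1 : ∀ x y u, ad (Pe (ad x y)) (Pe u) = ad (Pe (ad x u)) (Pe y) := by
    intro x y u
    have := med' x y u z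
    rwa [adzero, adzero] at this
  have adrc : ∀ x y u, ad (ad x y) u = ad (ad x u) y := by
    intro x y u
    apply Pe.injective
    apply adcancel _ _ (Pe z)
    have h1 := m1 (ad x y) u z
    have h2 := m1 x y u
    have h3 := m1 (ad x u) y z
    rw [adzero] at h1 h3
    rw [h1, h2, ← h3]
  have adassoc : ∀ x y u, ad (ad x y) u = ad x (ad y u) := by
    intro x y u
    rw [adcomm x y, adrc, adcomm]
  have adneg : ∀ x, ∃ y, ad y x = z := by
    intro x
    obtain ⟨b, hb⟩ := fE (Pe.symm x) z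
    refine ⟨Pe b, ?_⟩
    rw [adcomm]
    simp only [ad, Equiv.symm_apply_apply]
    exact hb
  choose ng hng using adneg
  let instA : Add Ω := ⟨ad⟩
  let instZ : Zero Ω := ⟨z⟩
  let instN : Neg Ω := ⟨ng⟩
  let instG : AddGroup Ω := AddGroup.ofLeftAxioms adassoc
    (fun a => (adcomm z a).trans (adzero a)) hng
  let inst : AddCommGroup Ω := { instG with add_comm := adcomm }
  have haddef : ∀ x y : Ω, x + y = ad x y := fun x y => rfl
  have m2 : ∀ x y : Ω, Pe (x + y) + Pe 0 = Pe x + Pe y := by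
    intro x y
    have := m1 x y z
    rw [adzero] at this
    exact this
  let φ : Ω ≃+ Ω :=
    { toFun := fun x => Pe x - Pe 0
      invFun := fun y => Pe.symm (y + Pe 0)
      left_inv := by
        intro x
        simp
      right_inv := by
        intro y
        simp
      map_add' := by
        intro x y
        have := m2 x y
        have h : Pe (x + y) = Pe x + Pe y - Pe 0 := eq_sub_of_add_eq this
        rw [h]
        abel }
  have hφ : ∀ x, φ x = Pe x - Pe 0 := fun x => rfl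
  have hf : ∀ a b, f a b = φ a + φ b + (Pe 0 + Pe 0) := by
    intro a b
    rw [← had a b, ← haddef, hφ, hφ]
    abel
  refine ⟨inst, φ, ?_⟩
  intro ψ hψ
  obtain ⟨h, oh, hR', hL', hE'⟩ := strb_op (hU ψ hψ)
  -- `h x y = τ (x + y)`
  have t1 : ∀ x y, h x y = h (x + y) 0 := by
    intro x y
    obtain ⟨a, rfl⟩ := Pe.surjective x
    obtain ⟨d, rfl⟩ := Pe.surjective y
    have h1 := (strb_symm hS hψ hψ₀ hψ₀ oh of of a e e d).2.2
    have h2 : Pe a + Pe d = f a d := had a d
    have h3 : (0 : Ω) = f e e := rfl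
    rw [h2, h3]
    have h4 : h (Pe a) (Pe d) = h (f a e) (f e d) := by
      rw [fcomm e d]
      rfl
    rw [h4]
    exact h1
  -- symmetry of `f (h a b) (f c d)`
  have t2 : ∀ y, h y 0 = φ y + h 0 0 := by
    intro y
    have h1 := (strb_symm hS hψ₀ hψ hψ₀ of oh of 0 y 0 0).2.1
    rw [hf (h 0 y), hf (h 0 0), hf 0 0, hf y 0, t1 0 y, zero_add] at h1
    simp only [map_add, map_zero, zero_add, add_zero] at h1
    have h2 : φ (h y 0) = φ (φ y + h 0 0) := by
      rw [map_add]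
      have h3 : φ (h y 0) + (φ (Pe 0) + φ (Pe 0)) + (Pe 0 + Pe 0) =
        φ (h 0 0) + (φ (φ y) + (φ (Pe 0) + φ (Pe 0))) + (Pe 0 + Pe 0) := h1
      have h4 := add_right_cancel h3
      have h5 : φ (h y 0) + (φ (Pe 0) + φ (Pe 0)) =
          (φ (φ y) + φ (h 0 0)) + (φ (Pe 0) + φ (Pe 0)) := by
        rw [h4]
        abel
      exact add_right_cancel h5
    exact φ.injective h2
  refine ⟨h 0 0, ?_⟩
  intro x
  have hx : x = ![x 0, x 1, x 2] := by
    funext i
    fin_cases i <;> rfl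
  have h5 : ψ x = true ↔ x 2 = h (x 0) (x 1) := by
    conv_lhs => rw [hx]
    exact oh _ _ _
  rw [h5, t1, t2, map_add]
  exact eq_comm

end Pool.Agent.Lib_helper39.UE
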