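import Pool.Agent.Lib_helper39.UE.Model
import Pool.Agent.Lib_helper39.UE.FINM
import Pool.Agent.Lib_helper39.UE.STRA
import Pool.Agent.Lib_helper39.UE.STRB

set_option autoImplicit false

namespace Pool.Agent.Lib_helper39.UE

open Finset

/-! ### the event depends on the tuples only -/

open Classical in
theorem prH_tuples {Ω : Type} [Fintype Ω] [DecidableEq Ω] {k n m : ℕ}
    (π : ((Fin k → Ω) → Bool) → ℝ) (hπ1 : ∑ ψ, π ψ = 1)
    (G : (Fin m → (Fin k ↪ Fin n)) → Prop) :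
    prH π (fun I : Inst Ω k n m => G (fun i => (I i).2)) = pr G := by
  classical
  unfold prH pr avg
  let e : Inst Ω k n m ≃ (Fin m → ((Fin k → Ω) → Bool)) × (Fin m → (Fin k ↪ Fin n)) :=
    Equiv.arrowProdEquivProdArrow _ _ _
  rw [← Equiv.sum_comp e.symm, Fintype.sum_prod_type_right]
  rw [Finset.sum_div]
  refine Finset.sum_congr rfl fun w _ => ?_
  have h1 : ∀ ψ : Fin m → ((Fin k → Ω) → Bool),
      (if G (fun i => ((e.symm (ψ, w)) i).2) then wt π (e.symm (ψ, w)) else 0) =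
        (if G w then (1 : ℝ) else 0) *
          ((∏ i, π (ψ i)) / (Fintype.card (Fin m → (Fin k ↪ Fin n)) : ℝ)) := by
    intro ψ
    have h2 : (fun i => ((e.symm (ψ, w)) i).2) = w := rfl
    have h3 : wt π (e.symm (ψ, w)) =
        (∏ i, π (ψ i)) / (Fintype.card (Fin m → (Fin k ↪ Fin n)) : ℝ) := by
      unfold wt
      have : ∀ i, π ((e.symm (ψ, w)) i).1 = π (ψ i) := fun i => rfl
      simp only [this]
      rw [Finset.prod_div_distrib]
      congr 1
      simp
    rw [h2, h3]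
    split_ifs <;> simp
  simp only [h1]
  rw [← Finset.mul_sum, ← Finset.sum_div]
  have h4 : ∑ ψ : Fin m → ((Fin k → Ω) → Bool), ∏ i, π (ψ i) = 1 := by
    have := (Finset.prod_univ_sum (fun _ : Fin m => (univ : Finset ((Fin k → Ω) → Bool)))
      (fun _ ψ => π ψ))
    rw [Fintype.piFinset_univ] at this
    rw [← this]
    simp [hπ1]
  rw [h4]
  ring

theorem wt_nonneg {Ω : Type} [Fintype Ω] [DecidableEq Ω] {k n m : ℕ}
    (π : ((Fin k → Ω) → Bool) → ℝ) (hπ0 : ∀ ψ, 0 ≤ π ψ) (I : Inst Ω k n m) : 0 ≤ wt π I :=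
  Finset.prod_nonneg fun i _ => div_nonneg (hπ0 _) (Nat.cast_nonneg _)

/-- monotonicity on the support -/
theorem prH_mono {Ω : Type} [Fintype Ω] [DecidableEq Ω] {k n m : ℕ}
    (π : ((Fin k → Ω) → Bool) → ℝ) (hπ0 : ∀ ψ, 0 ≤ π ψ) {P Q : Inst Ω k n m → Prop}
    (h : ∀ I, (∀ i, π (I i).1 ≠ 0) → P I → Q I) : prH π P ≤ prH π Q := by
  classical
  unfold prH
  refine Finset.sum_le_sum fun I _ => ?_
  by_cases hI : ∀ i, π (I i).1 ≠ 0
  · by_cases hP : P I
    · rw [if_pos hP, if_pos (h I hI hP)]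
    · rw [if_neg hP]
      split_ifs
      · exact wt_nonneg π hπ0 I
      · exact le_refl _
  · push Not at hI
    obtain ⟨i, hi⟩ := hI
    have : wt π I = 0 := by
      unfold wt
      apply Finset.prod_eq_zero (Finset.mem_univ i)
      rw [hi]; simp
    rw [this]
    simp

theorem pr_compl {α : Type} [Fintype α] [Nonempty α] (p : α → Prop) :
    pr p = 1 - pr (fun x => ¬ p x) := by
  classical
  unfold pr avg
  have hc : (Fintype.card α : ℝ) ≠ 0 := by exact_mod_cast Fintype.card_ne_zero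
  rw [eq_sub_iff_add_eq, ← add_div, ← Finset.sum_add_distrib, div_eq_one_iff_eq hc]
  refine (Finset.sum_congr rfl (fun x _ => ?_)).trans
    (by simp : ∑ _x : α, (1 : ℝ) = (Fintype.card α : ℝ))
  by_cases h : p x <;> simp [h]

/-! ### fibres -/

open Classical in
theorem fibre_card {G H : Type} [AddCommGroup G] [AddCommGroup H] [Fintype G] [Fintype H]
    (f : G →+ H) (hf : Function.Surjective f) (y y' : H) :
    (univ.filter (fun g => f g = y)).card = (univ.filter (fun g => f g = y')).card := by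
  obtain ⟨a, ha⟩ := hf (y' - y)
  refine Finset.card_bij (fun g _ => g + a) ?_ ?_ ?_
  · intro g hg
    simp only [Finset.mem_filter, Finset.mem_univ, true_and] at hg ⊢
    rw [map_add, hg, ha]; abel
  · intro g _ g' _ h
    exact add_right_cancel h
  · intro g hg
    simp only [Finset.mem_filter, Finset.mem_univ, true_and] at hg
    refine ⟨g - a, ?_, by abel⟩
    simp only [Finset.mem_filter, Finset.mem_univ, true_and]
    rw [map_sub, hg, ha]; abel

/-- pair marginals are exactly uniform when the map is onto -/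
theorem pair_uniform {Ω : Type} [Fintype Ω] [DecidableEq Ω] [AddCommGroup Ω]
    {S : Type} [CommRing S] [Module S Ω] {k n m : ℕ} (s : Fin k → S)
    (I : Inst Ω k n m)
    (hI : ∀ i, ∃ c : Ω, ∀ x : Fin k → Ω, (I i).1 x = true ↔ ∑ j, s j • x j = c)
    (u v : Fin n)
    (hs : Function.Surjective (fun x : Fin n → Ω =>
      ((fun i => ∑ j, s j • x ((I i).2 j), x u, x v) : (Fin m → Ω) × Ω × Ω))) :
    (sols I).Nonempty ∧ ∀ σ τ : Ω,
      (((sols I).filter (fun x => x u = σ ∧ x v = τ)).card : ℝ) / ((sols I).card : ℝ) =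
        1 / (Fintype.card Ω : ℝ) ^ 2 := by
  classical
  choose c hc using hI
  let Φ : (Fin n → Ω) →+ (Fin m → Ω) × Ω × Ω :=
    { toFun := fun x => ((fun i => ∑ j, s j • x ((I i).2 j), x u, x v) : (Fin m → Ω) × Ω × Ω)
      map_zero' := by simp; rfl
      map_add' := by
        intro x y
        simp only [Pi.add_apply, smul_add, Finset.sum_add_distrib]
        rfl }
  have hΦ : Function.Surjective Φ := hs
  have hsol : ∀ x, x ∈ sols I ↔ (fun i => ∑ j, s j • x ((I i).2 j)) = c := by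
    intro x
    unfold sols
    simp only [Finset.mem_filter, Finset.mem_univ, true_and]
    constructor
    · intro h; funext i; exact (hc i _).1 (h i)
    · intro h i; exact (hc i _).2 (congrFun h i)
  have hfib : ∀ σ τ : Ω, (sols I).filter (fun x => x u = σ ∧ x v = τ) =
      univ.filter (fun x => Φ x = (c, σ, τ)) := by
    intro σ τ
    ext x
    simp only [Finset.mem_filter, Finset.mem_univ, true_and, hsol]
    constructor
    · rintro ⟨h1, h2, h3⟩
      show ((fun i => ∑ j, s j • x ((I i).2 j), x u, x v) : (Fin m → Ω) × Ω × Ω) = _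
      rw [h1, h2, h3]
    · intro h
      have h' : ((fun i => ∑ j, s j • x ((I i).2 j), x u, x v) : (Fin m → Ω) × Ω × Ω) =
        (c, σ, τ) := h
      rw [Prod.mk.injEq, Prod.mk.injEq] at h'
      exact ⟨h'.1, h'.2.1, h'.2.2⟩
  have hcard : ∀ σ τ : Ω, ((sols I).filter (fun x => x u = σ ∧ x v = τ)).card =
      ((sols I).filter (fun x => x u = 0 ∧ x v = 0)).card := by
    intro σ τ
    rw [hfib, hfib]
    convert fibre_card Φ hΦ (c, σ, τ) (c, 0, 0)
  have htot : (sols I).card = Fintype.card Ω ^ 2 *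
      ((sols I).filter (fun x => x u = 0 ∧ x v = 0)).card := by
    have h1 : (sols I).card = ∑ στ : Ω × Ω,
        ((sols I).filter (fun x => (x u, x v) = στ)).card :=
      Finset.card_eq_sum_card_fiberwise (fun _ _ => Finset.mem_univ _)
    rw [h1]
    have h2 : ∀ στ : Ω × Ω, ((sols I).filter (fun x => (x u, x v) = στ)).card =
        ((sols I).filter (fun x => x u = 0 ∧ x v = 0)).card := by
      rintro ⟨σ, τ⟩
      rw [← hcard σ τ]
      congr 1
      ext x
      simp only [Finset.mem_filter, Prod.mk.injEq]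
    simp only [h2, Finset.sum_const, Finset.card_univ, Fintype.card_prod, smul_eq_mul]
    ring
  have hpos : 0 < ((sols I).filter (fun x => x u = 0 ∧ x v = 0)).card := by
    rw [hfib, Finset.card_pos]
    obtain ⟨x, hx⟩ := hΦ (c, 0, 0)
    exact ⟨x, by simp [hx]⟩
  have hΩ : 0 < Fintype.card Ω := Fintype.card_pos
  refine ⟨?_, fun σ τ => ?_⟩
  · rw [← Finset.card_pos, htot]
    positivity
  · rw [hcard σ τ, htot]
    have h1 : (0 : ℝ) < ((sols I).filter (fun x => x u = 0 ∧ x v = 0)).card := by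
      exact_mod_cast hpos
    have h2 : (0 : ℝ) < Fintype.card Ω := by exact_mod_cast hΩ
    push_cast
    field_simp

/-- from the good event to the conclusion -/
theorem good_event {Ω : Type} [Fintype Ω] [DecidableEq Ω] [AddCommGroup Ω]
    {S : Type} [CommRing S] [Module S Ω] {k n m : ℕ} (hn : 0 < n) (s : Fin k → S)
    (I : Inst Ω k n m)
    (hI : ∀ i, ∃ c : Ω, ∀ x : Fin k → Ω, (I i).1 x = true ↔ ∑ j, s j • x j = c)
    (δ : ℝ) (hδ : δ < 1)
    (B : Finset (Fin n × Fin n)) (hB : (B.card : ℝ) ≤ δ * (n : ℝ) ^ 2)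
    (hs : ∀ u v, (u, v) ∉ B → Function.Surjective (fun x : Fin n → Ω =>
      ((fun i => ∑ j, s j • x ((I i).2 j), x u, x v) : (Fin m → Ω) × Ω × Ω))) :
    (sols I).Nonempty ∧ ∀ σ τ : Ω,
      |pairProb I σ τ - 1 / (Fintype.card Ω : ℝ) ^ 2| ≤ δ := by
  classical
  have hn' : (0 : ℝ) < n := by exact_mod_cast hn
  have hex : ∃ uv : Fin n × Fin n, uv ∉ B := by
    by_contra hcon
    push Not at hcon
    have : B = univ := by ext uv; simp [hcon uv]
    rw [this] at hB
    simp only [Finset.card_univ, Fintype.card_prod, Fintype.card_fin] at hB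
    push_cast at hB
    have : (n : ℝ) * n ≤ δ * (n : ℝ) ^ 2 := hB
    nlinarith [mul_pos hn' hn']
  obtain ⟨⟨u, v⟩, huv⟩ := hex
  refine ⟨(pair_uniform s I hI u v (hs u v huv)).1, fun σ τ => ?_⟩
  set q : ℝ := 1 / (Fintype.card Ω : ℝ) ^ 2 with hq
  have hΩ : (1 : ℝ) ≤ Fintype.card Ω := by exact_mod_cast Fintype.card_pos
  have hq0 : 0 ≤ q := by positivity
  have hq1 : q ≤ 1 := by
    rw [hq, div_le_one (by positivity)]
    nlinarith
  set P : Fin n → Fin n → ℝ := fun u v =>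
    (((sols I).filter (fun x => x u = σ ∧ x v = τ)).card : ℝ) / ((sols I).card : ℝ) with hP
  have hP01 : ∀ u v, 0 ≤ P u v ∧ P u v ≤ 1 := by
    intro u v
    refine ⟨by positivity, ?_⟩
    apply div_le_one_of_le₀ _ (Nat.cast_nonneg _)
    exact_mod_cast Finset.card_le_card (Finset.filter_subset _ _)
  have hn2 : (0 : ℝ) < (n : ℝ) ^ 2 := by positivity
  have e1 : pairProb I σ τ - q = (∑ uv : Fin n × Fin n, (P uv.1 uv.2 - q)) / (n : ℝ) ^ 2 := by
    unfold pairProb
    rw [Finset.sum_sub_distrib, Fintype.sum_prod_type]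
    simp only [Finset.sum_const, Finset.card_univ, Fintype.card_prod, Fintype.card_fin,
      nsmul_eq_mul]
    push_cast
    rw [hP, eq_div_iff hn2.ne']
    field_simp
  rw [e1, abs_div, abs_of_pos hn2, div_le_iff₀ hn2]
  calc |∑ uv : Fin n × Fin n, (P uv.1 uv.2 - q)|
      ≤ ∑ uv : Fin n × Fin n, |P uv.1 uv.2 - q| := Finset.abs_sum_le_sum_abs _ _
    _ ≤ ∑ uv : Fin n × Fin n, (if uv ∈ B then (1 : ℝ) else 0) := by
        refine Finset.sum_le_sum fun uv _ => ?_
        by_cases h : uv ∈ B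
        · rw [if_pos h, abs_le]
          have := hP01 uv.1 uv.2
          constructor <;> linarith
        · rw [if_neg h]
          have := (pair_uniform s I hI uv.1 uv.2 (hs uv.1 uv.2 h)).2 σ τ
          have h2 : P uv.1 uv.2 = q := this
          rw [h2]; simp
    _ = (B.card : ℝ) := by simp
    _ ≤ δ * (n : ℝ) ^ 2 := hB

/-- the theorem for linear constraints over a finite module -/
theorem core {κ : ℕ} (hκ : 2 ≤ κ) {Ω : Type} [Fintype Ω] [DecidableEq Ω] [AddCommGroup Ω]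
    {S : Type} [CommRing S] [Finite S] [Module S Ω] (s : Fin (κ + 1) → S)
    (hs : ∀ j, IsUnit (s j)) (π : ((Fin (κ + 1) → Ω) → Bool) → ℝ) (hπ0 : ∀ ψ, 0 ≤ π ψ)
    (hπ1 : ∑ ψ, π ψ = 1)
    (hψ : ∀ ψ, π ψ ≠ 0 → ∃ c : Ω, ∀ x : Fin (κ + 1) → Ω, ψ x = true ↔ ∑ j, s j • x j = c)
    (ε δ : ℝ) (hε : 0 < ε) (hδ : 0 < δ) :
    ∃ n₀ : ℕ, ∀ n : ℕ, n₀ ≤ n → ∀ m : ℕ, (m : ℝ) < (dk (κ + 1) / ((κ : ℝ) + 1) - ε) * n →
      1 - δ ≤ prH π (fun I : Inst Ω (κ + 1) n m => (sols I).Nonempty ∧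
        ∀ σ τ : Ω, |pairProb I σ τ - 1 / (Fintype.card Ω : ℝ) ^ 2| ≤ δ) := by
  classical
  obtain ⟨n₀, h₀⟩ := fin_module (A := Ω) hκ s hs ε (min δ (1 / 2)) hε (by positivity)
  refine ⟨max n₀ (κ + 1), fun n hn m hm => ?_⟩
  have h1 := h₀ n (le_trans (le_max_left _ _) hn) m hm
  have hnk : κ + 1 ≤ n := le_trans (le_max_right _ _) hn
  have hne : Nonempty (Fin (κ + 1) ↪ Fin n) := ⟨Fin.castLEEmb hnk⟩
  have hne' : Nonempty (Fin m → (Fin (κ + 1) ↪ Fin n)) := inferInstance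
  set G : (Fin m → (Fin (κ + 1) ↪ Fin n)) → Prop := fun w =>
    ∃ B : Finset (Fin n × Fin n), (B.card : ℝ) ≤ (min δ (1 / 2)) * (n : ℝ) ^ 2 ∧
      ∀ u v, (u, v) ∉ B → Function.Surjective (fun x : Fin n → Ω =>
        ((fun i => ∑ j, s j • x (w i j), x u, x v) : (Fin m → Ω) × Ω × Ω)) with hG
  have h2 : 1 - min δ (1 / 2) ≤ pr G := by
    rw [pr_compl G]
    have : pr (fun w => ¬ G w) ≤ min δ (1 / 2) := h1
    linarith
  rw [← prH_tuples π hπ1 G] at h2
  have h3 : prH π (fun I : Inst Ω (κ + 1) n m => G (fun i => (I i).2)) ≤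
      prH π (fun I : Inst Ω (κ + 1) n m => (sols I).Nonempty ∧
        ∀ σ τ : Ω, |pairProb I σ τ - 1 / (Fintype.card Ω : ℝ) ^ 2| ≤ δ) := by
    apply prH_mono π hπ0
    rintro I hI ⟨B, hB, hsurj⟩
    have := good_event (by omega) s I (fun i => hψ _ (hI i)) (min δ (1 / 2))
      (lt_of_le_of_lt (min_le_right _ _) (by norm_num)) B hB hsurj
    exact ⟨this.1, fun σ τ => le_trans (this.2 σ τ) (min_le_left _ _)⟩
  have h4 : min δ (1 / 2) ≤ δ := min_le_left _ _
  linarith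

/-- the ring generated by commuting automorphisms -/
theorem ring_of_auts {Ω : Type} [Finite Ω] [AddCommGroup Ω] {k : ℕ} (φ : Fin k → (Ω ≃+ Ω))
    (hcomm : ∀ i j x, φ i (φ j x) = φ j (φ i x)) :
    ∃ (S : Type) (_ : CommRing S) (_ : Finite S) (_ : Module S Ω) (a : Fin k → S),
      (∀ j, IsUnit (a j)) ∧ ∀ j, ∀ x : Ω, a j • x = φ j x := by
  classical
  let f : Fin k → Module.End ℤ Ω := fun j => (φ j : Ω →+ Ω).toIntLinearMap
  let S : Subalgebra ℤ (Module.End ℤ Ω) := Algebra.adjoin ℤ (Set.range f)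
  let instS : CommRing S := Algebra.adjoinCommRingOfComm ℤ (by
    rintro a ⟨i, rfl⟩ b ⟨j, rfl⟩
    apply LinearMap.ext
    intro x
    exact hcomm i j x)
  have hfin : Finite (Module.End ℤ Ω) :=
    Finite.of_injective (fun g : Module.End ℤ Ω => (g : Ω → Ω)) DFunLike.coe_injective
  have hfinS : Finite S := Subtype.finite
  let a : Fin k → S := fun j => ⟨f j, Algebra.subset_adjoin (Set.mem_range_self j)⟩
  let M : Module S Ω :=
    { smul := fun b x => (b : Module.End ℤ Ω) x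
      one_smul := fun x => rfl
      mul_smul := fun b c x => rfl
      smul_zero := fun b => map_zero (b : Module.End ℤ Ω)
      smul_add := fun b x y => map_add (b : Module.End ℤ Ω) x y
      add_smul := fun b c x => rfl
      zero_smul := fun x => rfl }
  refine ⟨S, instS, hfinS, M, a, fun j => ?_, fun j x => rfl⟩
  have hinj : Function.Injective (fun b : S => a j * b) := by
    intro b c hbc
    apply Subtype.ext
    apply LinearMap.ext
    intro x
    have h1 : ((a j * b : S) : Module.End ℤ Ω) x = ((a j * c : S) : Module.End ℤ Ω) x :=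
      congrArg (fun t : S => (t : Module.End ℤ Ω) x) hbc
    exact (φ j).injective h1
  have hsurj : Function.Surjective (fun b : S => a j * b) := Finite.injective_iff_surjective.1 hinj
  obtain ⟨b, hb⟩ := hsurj 1
  exact IsUnit.of_mul_eq_one b hb

/-- for every `ε, δ > 0`, for all large `n` and all `m < (d_k/k - ε) n`, with probability at
least `1 - δ` over the instance `I` of `H_n(π,k,m)` (here `k = κ + 1`): `I` is satisfiable, and
for a uniform solution `x` and uniform variables `u, v` all the probabilities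
`P[x_u = σ, x_v = τ]` differ from `1/q^2` by at most `δ` -/
def ReplicaSymmetric {κ : ℕ} {Ω : Type} [Fintype Ω] [DecidableEq Ω]
    (π : ((Fin (κ + 1) → Ω) → Bool) → ℝ) : Prop :=
  ∀ ε : ℝ, 0 < ε → ∀ δ : ℝ, 0 < δ → ∃ n₀ : ℕ, ∀ n : ℕ, n₀ ≤ n →
    ∀ m : ℕ, (m : ℝ) < (dk (κ + 1) / ((κ : ℝ) + 1) - ε) * n →
      1 - δ ≤ prH π (fun I : Inst Ω (κ + 1) n m => (sols I).Nonempty ∧
        ∀ σ τ : Ω, |pairProb I σ τ - 1 / (Fintype.card Ω : ℝ) ^ 2| ≤ δ)

theorem main_aut {κ : ℕ} (hκ : 2 ≤ κ) {Ω : Type} [Fintype Ω] [DecidableEq Ω] [AddCommGroup Ω]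
    (π : ((Fin (κ + 1) → Ω) → Bool) → ℝ) (hπ0 : ∀ ψ, 0 ≤ π ψ)
    (hπ1 : ∑ ψ, π ψ = 1) (φ : Fin (κ + 1) → (Ω ≃+ Ω))
    (hcomm : ∀ i j x, φ i (φ j x) = φ j (φ i x))
    (hψ : ∀ ψ ∈ supp π, ∃ c : Ω, ∀ x : Fin (κ + 1) → Ω, ψ x = true ↔ ∑ j, φ j (x j) = c) :
    ReplicaSymmetric π := by
  intro ε hε δ hδ
  obtain ⟨S, i1, i2, i3, a, ha, hax⟩ := ring_of_auts φ hcomm
  refine core hκ a ha π hπ0 hπ1 ?_ ε δ hε hδ
  intro ψ hπψ
  obtain ⟨c, hc⟩ := hψ ψ hπψ
  refine ⟨c, fun x => ?_⟩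
  rw [hc x]
  simp only [hax]

theorem main {κ : ℕ} (hκ : 2 ≤ κ) {Ω : Type} [Fintype Ω] [DecidableEq Ω] [Nonempty Ω]
    (π : ((Fin (κ + 1) → Ω) → Bool) → ℝ) (hπ0 : ∀ ψ, 0 ≤ π ψ)
    (hπ1 : ∑ ψ, π ψ = 1) (hU : ∀ ψ ∈ supp π, UExt ψ)
    (hyp : (3 ≤ κ ∧ Reducible (permClosure (supp π))) ∨
      (κ = 2 ∧ ∀ g ∈ Fset (supp π) 2, Symm g)) :
    ReplicaSymmetric π := by
  classical
  have hne : (supp π).Nonempty := by
    by_contra h
    rw [Set.not_nonempty_iff_eq_empty] at h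
    have : ∀ ψ, π ψ = 0 := by
      intro ψ
      by_contra h'
      have : ψ ∈ supp π := h'
      rw [h] at this
      exact this
    simp [this] at hπ1
  rcases hyp with ⟨h3, hR⟩ | ⟨h2, hS⟩
  · obtain ⟨inst, hψ⟩ := structure_a (k := κ + 1) (by omega) (supp π) hne hU hR
    refine main_aut hκ π hπ0 hπ1 (fun _ => AddEquiv.refl Ω) (fun _ _ _ => rfl) ?_
    intro ψ hπψ
    obtain ⟨c, hc⟩ := hψ ψ hπψ
    exact ⟨c, fun x => by rw [hc x]; simp⟩
  · subst h2
    obtain ⟨inst, φ, hψ⟩ := structure_b (supp π) hne hU hS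
    refine main_aut hκ π hπ0 hπ1 (![φ, φ, AddEquiv.neg Ω] : Fin 3 → (Ω ≃+ Ω)) ?_ ?_
    · intro i j x
      fin_cases i <;> fin_cases j <;> simp
    intro ψ hπψ
    obtain ⟨c, hc⟩ := hψ ψ hπψ
    refine ⟨-c, fun x => ?_⟩
    rw [hc x]
    have : (∑ j : Fin 3, (![φ, φ, AddEquiv.neg Ω] : Fin 3 → (Ω ≃+ Ω)) j (x j)) =
        φ (x 0) + φ (x 1) - x 2 := by
      rw [Fin.sum_univ_three]
      show φ (x 0) + φ (x 1) + (- x 2) = _
      rw [sub_eq_add_neg]
    rw [this]
    constructor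
    · intro h; rw [← h]; abel
    · intro h
      have : φ (x 0) + φ (x 1) = -c + x 2 := by rw [← h]; abel
      rw [this]; abel

end Pool.Agent.Lib_helper39.UE
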