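import Pool.Agent.Lib_helper39.UE.Defs

/-! MP_82d614_pr, block PIN (pinning lemma). -/

set_option autoImplicit false
set_option linter.unusedSectionVars false
set_option linter.unusedSimpArgs false

namespace Pool.Agent.Lib_helper39.UE

open Finset

namespace PINaux

section avg
variable {α β : Type} [Fintype α] [Fintype β]

theorem avg_equiv (e : α ≃ β) (f : β → ℝ) : avg (fun x => f (e x)) = avg f := by
  unfold avg
  rw [Fintype.card_congr e, Equiv.sum_comp e f]

theorem avg_prod (f : α → β → ℝ) :
    avg (fun x : α × β => f x.1 x.2) = avg (fun x => avg (fun y => f x y)) := by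
  unfold avg
  rw [Fintype.sum_prod_type, Fintype.card_prod, Nat.cast_mul, ← Finset.sum_div, div_div, mul_comm]

theorem avg_swap (f : α → β → ℝ) :
    avg (fun x => avg (fun y => f x y)) = avg (fun y => avg (fun x => f x y)) := by
  unfold avg
  rw [← Finset.sum_div, ← Finset.sum_div, Finset.sum_comm, div_div, div_div, mul_comm]

theorem avg_mono {f g : α → ℝ} (h : ∀ x, f x ≤ g x) : avg f ≤ avg g := by
  unfold avg
  exact div_le_div_of_nonneg_right (Finset.sum_le_sum fun x _ => h x) (Nat.cast_nonneg _)

theorem avg_add (f g : α → ℝ) : avg (fun x => f x + g x) = avg f + avg g := by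
  unfold avg
  rw [Finset.sum_add_distrib, add_div]

theorem avg_sub (f g : α → ℝ) : avg (fun x => f x - g x) = avg f - avg g := by
  unfold avg
  rw [Finset.sum_sub_distrib, sub_div]

theorem avg_sum {ι : Type} (s : Finset ι) (f : ι → α → ℝ) :
    avg (fun x => ∑ i ∈ s, f i x) = ∑ i ∈ s, avg (f i) := by
  unfold avg
  rw [Finset.sum_comm, Finset.sum_div]

theorem avg_const [Nonempty α] (c : ℝ) : avg (fun _ : α => c) = c := by
  unfold avg
  have h : (Fintype.card α : ℝ) ≠ 0 := by
    have := Fintype.card_pos (α := α)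
    positivity
  rw [Finset.sum_const, nsmul_eq_mul, Finset.card_univ]
  field_simp

theorem avg_le_one {f : α → ℝ} (h : ∀ x, f x ≤ 1) : avg f ≤ 1 := by
  unfold avg
  rcases Nat.eq_zero_or_pos (Fintype.card α) with h0 | h0
  · rw [h0]; simp
  · have h0' : (0 : ℝ) < Fintype.card α := by exact_mod_cast h0
    rw [div_le_one h0']
    calc ∑ x, f x ≤ ∑ _x : α, (1 : ℝ) := Finset.sum_le_sum fun x _ => h x
      _ = Fintype.card α := by simp

theorem avg_nonneg {f : α → ℝ} (h : ∀ x, 0 ≤ f x) : 0 ≤ avg f := by
  unfold avg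
  exact div_nonneg (Finset.sum_nonneg fun x _ => h x) (Nat.cast_nonneg _)

end avg

section pin

variable {F : Type} [Field F] {V : Type} [Fintype V] [DecidableEq V]

theorem pins_elim {K L : Type} (p : K → V) (q : L → V) :
    (pins (Sum.elim p q) : Submodule F (V → F)) = pins p ⊔ pins q := by
  unfold pins
  rw [← Submodule.span_union]
  congr 1
  ext x
  simp [Set.mem_range, Sum.exists]

theorem pins_equiv {K L : Type} (e : K ≃ L) (p : L → V) :
    (pins (fun i => p (e i)) : Submodule F (V → F)) = pins p := by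
  unfold pins
  congr 1
  ext x
  constructor
  · rintro ⟨i, rfl⟩; exact ⟨e i, rfl⟩
  · rintro ⟨i, rfl⟩; exact ⟨e.symm i, by simp⟩

open Classical in
/-- probability that a uniform variable is frozen after pinning `K` variables -/
noncomputable def Phi (R : Submodule F (V → F)) (K : Type) [Fintype K] [DecidableEq K] : ℝ :=
  avg (fun p : K → V => avg (fun v : V => if Frozen (R ⊔ pins p) v then (1 : ℝ) else 0))

theorem Phi_equiv (R : Submodule F (V → F)) {K L : Type} [Fintype K] [DecidableEq K] [Fintype L]
    [DecidableEq L] (e : K ≃ L) : Phi R K = Phi R L := by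
  classical
  unfold Phi
  rw [← avg_equiv (e.arrowCongr (Equiv.refl V))]
  congr 1
  funext p
  have : (pins ((e.arrowCongr (Equiv.refl V)) p) : Submodule F (V → F)) = pins p := by
    have h := pins_equiv (F := F) e.symm p
    rw [← h]
    rfl
  rw [this]

theorem Phi_sum (R : Submodule F (V → F)) {K L : Type} [Fintype K] [DecidableEq K] [Fintype L]
    [DecidableEq L] : Phi R (K ⊕ L) = avg (fun p : K → V => Phi (R ⊔ pins p) L) := by
  classical
  unfold Phi
  rw [← avg_equiv (Equiv.sumArrowEquivProdArrow K L V).symm]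
  rw [← avg_prod (fun (p : K → V) (q : L → V) =>
    avg (fun v : V => if Frozen (R ⊔ pins p ⊔ pins q) v then (1 : ℝ) else 0))]
  congr 1
  funext pq
  have : (pins ((Equiv.sumArrowEquivProdArrow K L V).symm pq) : Submodule F (V → F))
      = pins pq.1 ⊔ pins pq.2 := pins_elim (F := F) pq.1 pq.2
  rw [this, sup_assoc]

theorem Phi_nonneg (R : Submodule F (V → F)) (K : Type) [Fintype K] [DecidableEq K] :
    0 ≤ Phi R K := by
  classical
  exact avg_nonneg fun p => avg_nonneg fun v => by split_ifs <;> norm_num

theorem Phi_le_one (R : Submodule F (V → F)) (K : Type) [Fintype K] [DecidableEq K] :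
    Phi R K ≤ 1 := by
  classical
  exact avg_le_one fun p => avg_le_one fun v => by split_ifs <;> norm_num

variable {J : Type} [Fintype J] [DecidableEq J]

/-- split off one coordinate -/
theorem avg_split [Nonempty V] (j : J) (f : V → ({i : J // i ≠ j} → V) → ℝ) :
    avg (fun I : J → V => f (I j) (fun i => I i)) =
      avg (fun g : {i : J // i ≠ j} → V => avg (fun v => f v g)) := by
  rw [avg_swap, ← avg_prod, ← avg_equiv (Equiv.funSplitAt j V)]
  rfl

theorem coll [Nonempty V] (i j : J) (hij : i ≠ j) :
    avg (fun I : J → V => if I i = I j then (1 : ℝ) else 0) = 1 / Fintype.card V := by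
  have h := avg_split (V := V) j (fun v g => if g ⟨i, hij⟩ = v then (1 : ℝ) else 0)
  simp only at h
  rw [h]
  have h2 : ∀ g : {i : J // i ≠ j} → V,
      avg (fun v => if g ⟨i, hij⟩ = v then (1 : ℝ) else 0) = 1 / Fintype.card V := by
    intro g
    unfold avg
    simp
  simp only [h2]
  exact avg_const _

theorem det_bad (R : Submodule F (V → F)) (I : J → V) (hI : Function.Injective I)
    (h : ¬ FreeSet R (Set.range I)) :
    ∃ j, ¬ Frozen R (I j) ∧ Frozen (R ⊔ pins (fun i : {i : J // i ≠ j} => I i)) (I j) := by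
  unfold FreeSet at h
  push Not at h
  obtain ⟨c, hc, hsupp, v, hv, hfr⟩ := h
  have hvr : v ∈ Set.range I := by
    by_contra hvr
    exact hv (hsupp v hvr)
  obtain ⟨j, rfl⟩ := hvr
  refine ⟨j, hfr, ?_⟩
  unfold Frozen
  -- c = sum
  have hsum : c = ∑ i, c (I i) • (Pi.single (I i) 1 : V → F) := by
    funext w
    rw [Finset.sum_apply]
    by_cases hw : w ∈ Set.range I
    · obtain ⟨i, rfl⟩ := hw
      rw [Finset.sum_eq_single i]
      · simp
      · intro b _ hb
        have : I i ≠ I b := fun h => hb (hI h.symm)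
        simp [Pi.single_apply, this]
      · intro h; exact absurd (Finset.mem_univ i) h
    · rw [hsupp w hw]
      symm
      apply Finset.sum_eq_zero
      intro i _
      have : w ≠ I i := fun h => hw ⟨i, h.symm⟩
      simp [Pi.single_apply, this]
  rw [← Finset.add_sum_erase _ _ (Finset.mem_univ j)] at hsum
  have hcj : c (I j) ≠ 0 := hv
  have hx : (Pi.single (I j) 1 : V → F) = (c (I j))⁻¹ • (c -
      ∑ i ∈ univ.erase j, c (I i) • (Pi.single (I i) 1 : V → F)) := by
    have : c - ∑ i ∈ univ.erase j, c (I i) • (Pi.single (I i) 1 : V → F)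
        = c (I j) • (Pi.single (I j) 1 : V → F) := by
      rw [sub_eq_iff_eq_add]
      exact hsum
    rw [this, smul_smul, inv_mul_cancel₀ hcj, one_smul]
  rw [hx]
  apply Submodule.smul_mem
  apply Submodule.sub_mem
  · exact Submodule.mem_sup_left hc
  · apply Submodule.mem_sup_right
    apply Submodule.sum_mem
    intro i hi
    apply Submodule.smul_mem
    apply Submodule.subset_span
    exact ⟨⟨i, Finset.ne_of_mem_erase hi⟩, rfl⟩

open Classical in
theorem bad_le (R : Submodule F (V → F)) (I : J → V) :
    (if Bad R I then (1 : ℝ) else 0) ≤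
      ∑ ij ∈ (univ : Finset (J × J)).filter (fun ij => ij.1 ≠ ij.2),
        (if I ij.1 = I ij.2 then (1 : ℝ) else 0) +
      ∑ j, ((if Frozen (R ⊔ pins (fun i : {i : J // i ≠ j} => I i)) (I j) then (1 : ℝ) else 0)
        - (if Frozen R (I j) then (1 : ℝ) else 0)) := by
  have h1 : 0 ≤ ∑ ij ∈ (univ : Finset (J × J)).filter (fun ij => ij.1 ≠ ij.2),
        (if I ij.1 = I ij.2 then (1 : ℝ) else 0) :=
    Finset.sum_nonneg fun _ _ => by split_ifs <;> norm_num
  have hterm : ∀ j : J, 0 ≤
      ((if Frozen (R ⊔ pins (fun i : {i : J // i ≠ j} => I i)) (I j) then (1 : ℝ) else 0)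
        - (if Frozen R (I j) then (1 : ℝ) else 0)) := by
    intro j
    by_cases hf : Frozen R (I j)
    · have : Frozen (R ⊔ pins (fun i : {i : J // i ≠ j} => I i)) (I j) :=
        Submodule.mem_sup_left hf
      simp [hf, this]
    · simp only [hf, if_false, sub_zero]
      split_ifs <;> norm_num
  have h2 : 0 ≤ ∑ j, ((if Frozen (R ⊔ pins (fun i : {i : J // i ≠ j} => I i)) (I j)
      then (1 : ℝ) else 0) - (if Frozen R (I j) then (1 : ℝ) else 0)) :=
    Finset.sum_nonneg fun j _ => hterm j
  by_cases hB : Bad R I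
  · rw [if_pos hB]
    by_cases hinj : Function.Injective I
    · have hnf : ¬ FreeSet R (Set.range I) := fun h => hB ⟨hinj, h⟩
      obtain ⟨j, hj1, hj2⟩ := det_bad R I hinj hnf
      have h3 : (1 : ℝ) ≤ ∑ j, ((if Frozen (R ⊔ pins (fun i : {i : J // i ≠ j} => I i)) (I j)
          then (1 : ℝ) else 0) - (if Frozen R (I j) then (1 : ℝ) else 0)) := by
        have := Finset.single_le_sum (f := fun j =>
          ((if Frozen (R ⊔ pins (fun i : {i : J // i ≠ j} => I i)) (I j)
          then (1 : ℝ) else 0) - (if Frozen R (I j) then (1 : ℝ) else 0)))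
          (fun j _ => hterm j) (Finset.mem_univ j)
        simp only [hj1, hj2, if_true, if_false, sub_zero] at this
        exact this
      linarith
    · unfold Function.Injective at hinj
      push Not at hinj
      obtain ⟨a, b, hab, hne⟩ := hinj
      have h3 : (1 : ℝ) ≤ ∑ ij ∈ (univ : Finset (J × J)).filter (fun ij => ij.1 ≠ ij.2),
        (if I ij.1 = I ij.2 then (1 : ℝ) else 0) := by
        have := Finset.single_le_sum (f := fun ij : J × J =>
          (if I ij.1 = I ij.2 then (1 : ℝ) else 0))
          (s := (univ : Finset (J × J)).filter (fun ij => ij.1 ≠ ij.2))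
          (fun _ _ => by split_ifs <;> norm_num)
          (Finset.mem_filter.2 ⟨Finset.mem_univ (a, b), hne⟩)
        simp only [hab, if_true] at this
        exact this
      linarith
  · rw [if_neg hB]; linarith

end pin

end PINaux

open PINaux

theorem pin_lemma {F : Type} [Field F] {V J : Type} [Fintype V] [DecidableEq V] [Nonempty V]
    [Fintype J] [DecidableEq J] (R : Submodule F (V → F)) (T : ℕ) :
    ∑ θ ∈ range T, avg (fun p : Fin θ → V => pr (fun I : J → V => Bad (R ⊔ pins p) I)) ≤
      (Fintype.card J : ℝ) ^ 2 + T * ((Fintype.card J : ℝ) ^ 2 / Fintype.card V) := by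
  classical
  set l := Fintype.card J with hl
  set n := Fintype.card V with hn
  have hn0 : (0 : ℝ) < n := by
    have := Fintype.card_pos (α := V)
    exact_mod_cast this
  have hcardpairs : (((univ : Finset (J × J)).filter (fun ij => ij.1 ≠ ij.2)).card : ℝ)
      ≤ (l : ℝ) ^ 2 := by
    have h1 : ((univ : Finset (J × J)).filter (fun ij => ij.1 ≠ ij.2)).card ≤ l ^ 2 := by
      refine (Finset.card_filter_le _ _).trans ?_
      rw [Finset.card_univ, Fintype.card_prod, sq]
    exact_mod_cast h1
  -- bound for a fixed R'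
  have key : ∀ R' : Submodule F (V → F), pr (fun I : J → V => Bad R' I) ≤
      (l : ℝ) ^ 2 / n + ∑ j : J, (Phi R' {i : J // i ≠ j} - Phi R' (Fin 0)) := by
    intro R'
    unfold pr
    refine (avg_mono (bad_le R')).trans ?_
    rw [avg_add]
    apply add_le_add
    · rw [avg_sum]
      have : ∀ ij ∈ (univ : Finset (J × J)).filter (fun ij => ij.1 ≠ ij.2),
          avg (fun I : J → V => if I ij.1 = I ij.2 then (1 : ℝ) else 0) = 1 / n := by
        intro ij hij
        exact coll ij.1 ij.2 (Finset.mem_filter.1 hij).2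
      rw [Finset.sum_congr rfl this, Finset.sum_const, nsmul_eq_mul, mul_one_div]
      exact div_le_div_of_nonneg_right hcardpairs hn0.le
    · rw [avg_sum]
      apply Finset.sum_le_sum
      intro j _
      rw [avg_sub]
      apply le_of_eq
      congr 1
      · exact avg_split (V := V) j (fun v g =>
          if Frozen (R' ⊔ pins g) v then (1 : ℝ) else 0)
      · have h1 := avg_split (V := V) j (fun v (_ : {i : J // i ≠ j} → V) =>
          if Frozen R' v then (1 : ℝ) else 0)
        rw [h1, avg_const]
        unfold Phi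
        have h2 : ∀ p : Fin 0 → V, (R' ⊔ pins p : Submodule F (V → F)) = R' := by
          intro p
          unfold pins
          simp
        simp only [h2]
        rw [avg_const]
  -- average over the pins
  have hPhi : ∀ θ : ℕ, ∀ j : J, avg (fun p : Fin θ → V => Phi (R ⊔ pins p) {i : J // i ≠ j})
      = Phi R (Fin (θ + (l - 1))) := by
    intro θ j
    rw [← Phi_sum]
    apply Phi_equiv
    apply Fintype.equivOfCardEq
    rw [Fintype.card_sum, Fintype.card_fin, Fintype.card_fin]
    congr 1
    rw [Fintype.card_subtype_compl, Fintype.card_subtype_eq]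
  have hPhi0 : ∀ θ : ℕ, avg (fun p : Fin θ → V => Phi (R ⊔ pins p) (Fin 0))
      = Phi R (Fin θ) := by
    intro θ
    rw [← Phi_sum]
    apply Phi_equiv
    apply Fintype.equivOfCardEq
    simp
  have step : ∀ θ : ℕ, avg (fun p : Fin θ → V => pr (fun I : J → V => Bad (R ⊔ pins p) I)) ≤
      (l : ℝ) ^ 2 / n + l * (Phi R (Fin (θ + (l - 1))) - Phi R (Fin θ)) := by
    intro θ
    refine (avg_mono fun p => key (R ⊔ pins p)).trans ?_
    rw [avg_add, avg_const, avg_sum]
    have : ∀ j ∈ (univ : Finset J), avg (fun p : Fin θ → V =>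
        Phi (R ⊔ pins p) {i : J // i ≠ j} - Phi (R ⊔ pins p) (Fin 0))
        = Phi R (Fin (θ + (l - 1))) - Phi R (Fin θ) := by
      intro j _
      rw [avg_sub, hPhi, hPhi0]
    rw [Finset.sum_congr rfl this, Finset.sum_const, nsmul_eq_mul, Finset.card_univ]
  refine (Finset.sum_le_sum fun θ _ => step θ).trans ?_
  rw [Finset.sum_add_distrib, Finset.sum_const, nsmul_eq_mul, Finset.card_range,
    ← Finset.mul_sum]
  have tele : ∀ m : ℕ, ∑ θ ∈ range T, (Phi R (Fin (θ + m)) - Phi R (Fin θ)) ≤ m := by
    intro m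
    have h1 : ∑ θ ∈ range T, (Phi R (Fin (θ + m)) - Phi R (Fin θ))
        = ∑ θ ∈ range m, (Phi R (Fin (T + θ)) - Phi R (Fin θ)) := by
      have h2 := Finset.sum_range_add (fun θ => Phi R (Fin θ)) T m
      have h3 := Finset.sum_range_add (fun θ => Phi R (Fin θ)) m T
      rw [Finset.sum_sub_distrib, Finset.sum_sub_distrib]
      have h4 : ∑ θ ∈ range T, Phi R (Fin (θ + m)) = ∑ θ ∈ range T, Phi R (Fin (m + θ)) := by
        apply Finset.sum_congr rfl
        intro θ _
        rw [add_comm]
      rw [h4]
      rw [add_comm m T] at h3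
      linarith
    rw [h1]
    calc ∑ θ ∈ range m, (Phi R (Fin (T + θ)) - Phi R (Fin θ))
        ≤ ∑ _θ ∈ range m, (1 : ℝ) := by
          apply Finset.sum_le_sum
          intro θ _
          have := Phi_le_one R (Fin (T + θ))
          have := Phi_nonneg R (Fin θ)
          linarith
      _ = m := by simp
  have hfin : (l : ℝ) * ∑ θ ∈ range T, (Phi R (Fin (θ + (l - 1))) - Phi R (Fin θ))
      ≤ (l : ℝ) ^ 2 := by
    rw [sq]
    apply mul_le_mul_of_nonneg_left _ (Nat.cast_nonneg _)
    refine (tele (l - 1)).trans ?_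
    exact_mod_cast Nat.sub_le l 1
  linarith

end Pool.Agent.Lib_helper39.UE
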