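import Pool.Agent.Lib_helper39.UE.Defs

/-!
Block PINC: pins on one more variable.
-/

set_option autoImplicit false

namespace Pool.Agent.Lib_helper39.UE

open Finset

theorem pinc_avg_equiv {α β : Type} [Fintype α] [Fintype β] (e : α ≃ β) (f : β → ℝ) :
    avg (fun a => f (e a)) = avg f := by
  unfold avg
  rw [Fintype.card_congr e]
  congr 1
  exact Fintype.sum_equiv e _ _ fun _ => rfl

theorem pinc_avg_prod {α β : Type} [Fintype α] [Fintype β] (f : α × β → ℝ) :
    avg f = avg (fun a => avg (fun b => f (a, b))) := by
  unfold avg
  rw [Fintype.card_prod, Fintype.sum_prod_type, ← Finset.sum_div, div_div]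
  congr 1
  push_cast
  ring

theorem pinc_avg_cons {α : Type} [Fintype α] {θ : ℕ} (f : (Fin (θ + 1) → α) → ℝ) :
    avg f = avg (fun a : α => avg (fun p : Fin θ → α => f (Fin.cons a p))) := by
  rw [← pinc_avg_equiv (Fin.consEquiv fun _ : Fin (θ + 1) => α) f, pinc_avg_prod]
  rfl

theorem pinc_avg_unique {α : Type} [Fintype α] [Unique α] (f : α → ℝ) : avg f = f default := by
  unfold avg
  rw [Fintype.sum_unique, Fintype.card_unique]
  simp

theorem pinc_avg_mono {α : Type} [Fintype α] {f g : α → ℝ} (h : ∀ a, f a ≤ g a) :
    avg f ≤ avg g := by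
  unfold avg
  exact div_le_div_of_nonneg_right (Finset.sum_le_sum fun a _ => h a) (Nat.cast_nonneg _)

theorem pinc_avg_sub_const {α : Type} [Fintype α] [Nonempty α] (f : α → ℝ) (c : ℝ) :
    avg (fun a => f a - c) = avg f - c := by
  unfold avg
  have h : (Fintype.card α : ℝ) ≠ 0 := by exact_mod_cast Fintype.card_ne_zero
  rw [Finset.sum_sub_distrib, Finset.sum_const, Finset.card_univ, nsmul_eq_mul]
  field_simp

theorem pinc_avg_option {V : Type} [Fintype V] [Nonempty V] (g : Option V → ℝ)
    (h : ∀ v, g (some v) - 1 ≤ g none) :
    avg (fun v => g (some v)) - 1 / ((Fintype.card V : ℝ) + 1) ≤ avg g := by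
  have hn : (0 : ℝ) < Fintype.card V := by exact_mod_cast Fintype.card_pos
  have h1 : avg (fun v => g (some v)) - 1 ≤ g none := by
    rw [← pinc_avg_sub_const]
    have h2 : avg (fun _ : V => g none) = g none := by
      unfold avg
      rw [Finset.sum_const, Finset.card_univ, nsmul_eq_mul]
      field_simp
    rw [← h2]
    exact pinc_avg_mono h
  have h3 : avg g = (g none + Fintype.card V * avg (fun v => g (some v))) /
      ((Fintype.card V : ℝ) + 1) := by
    unfold avg
    rw [Fintype.sum_option, Fintype.card_option]
    push_cast
    congr 1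
    field_simp
  rw [h3, le_div_iff₀ (by positivity)]
  have h4 : (avg (fun v => g (some v)) - 1 / ((Fintype.card V : ℝ) + 1)) *
      ((Fintype.card V : ℝ) + 1) =
      avg (fun v => g (some v)) * ((Fintype.card V : ℝ) + 1) - 1 := by
    field_simp
  rw [h4]
  linarith

open Classical in
theorem pin_couple {V : Type} [Fintype V] [Nonempty V] (θ : ℕ)
    (f : (Fin θ → Option V) → ℝ)
    (hf : ∀ p p' : Fin θ → Option V,
      f p ≤ f p' + ((univ.filter (fun i => p i ≠ p' i)).card : ℝ)) :
    avg (fun p : Fin θ → V => f (fun i => some (p i))) - θ / ((Fintype.card V : ℝ) + 1) ≤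
      avg f := by
  induction θ with
  | zero =>
    rw [pinc_avg_unique, pinc_avg_unique]
    have : (fun i => some ((default : Fin 0 → V) i)) = (default : Fin 0 → Option V) :=
      Subsingleton.elim _ _
    rw [this, Nat.cast_zero, zero_div, sub_zero]
    exact le_of_eq (congrArg f (Subsingleton.elim _ _))
  | succ θ ih =>
    rw [pinc_avg_cons f]
    have h1 := pinc_avg_option (fun o : Option V => avg fun p : Fin θ → Option V =>
      f (Fin.cons o p)) (by
        intro v
        rw [← pinc_avg_sub_const]
        apply pinc_avg_mono
        intro p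
        have h2 := hf (Fin.cons (some v) p) (Fin.cons none p)
        have h3 : (univ.filter (fun i : Fin (θ + 1) =>
            (Fin.cons (some v) p : Fin (θ + 1) → Option V) i ≠
              (Fin.cons none p : Fin (θ + 1) → Option V) i)).card ≤ 1 := by
          apply Finset.card_le_one.2
          intro a ha b hb
          simp only [Finset.mem_filter, Finset.mem_univ, true_and] at ha hb
          have key : ∀ c : Fin (θ + 1), (Fin.cons (some v) p : Fin (θ + 1) → Option V) c ≠
              (Fin.cons none p : Fin (θ + 1) → Option V) c → c = 0 := by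
            intro c hc
            refine Fin.cases (fun _ => rfl) (fun i hi => ?_) c hc
            exact absurd rfl hi
          rw [key a ha, key b hb]
        have h4 : ((univ.filter (fun i : Fin (θ + 1) =>
            (Fin.cons (some v) p : Fin (θ + 1) → Option V) i ≠
              (Fin.cons none p : Fin (θ + 1) → Option V) i)).card : ℝ) ≤ 1 := by
          exact_mod_cast h3
        linarith)
    have h2 : avg (fun p : Fin (θ + 1) → V => f (fun i => some (p i))) -
        θ / ((Fintype.card V : ℝ) + 1) ≤
        avg (fun v : V => avg fun p : Fin θ → Option V => f (Fin.cons (some v) p)) := by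
      rw [pinc_avg_cons, ← pinc_avg_sub_const]
      apply pinc_avg_mono
      intro v
      have h3 := ih (fun p => f (Fin.cons (some v) p)) (by
        intro p p'
        have h4 := hf (Fin.cons (some v) p) (Fin.cons (some v) p')
        have h5 : (univ.filter (fun i : Fin (θ + 1) =>
            (Fin.cons (some v) p : Fin (θ + 1) → Option V) i ≠
              (Fin.cons (some v) p' : Fin (θ + 1) → Option V) i)).card ≤
            (univ.filter (fun i : Fin θ => p i ≠ p' i)).card := by
          have h6 : univ.filter (fun i : Fin (θ + 1) =>
            (Fin.cons (some v) p : Fin (θ + 1) → Option V) i ≠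
              (Fin.cons (some v) p' : Fin (θ + 1) → Option V) i) ⊆
              (univ.filter (fun i : Fin θ => p i ≠ p' i)).map (Fin.succEmb θ) := by
            intro c hc
            simp only [Finset.mem_filter, Finset.mem_univ, true_and] at hc
            revert hc
            refine Fin.cases (fun h => absurd rfl h) (fun i hi => ?_) c
            simp only [Fin.cons_succ] at hi
            exact Finset.mem_map.2 ⟨i, by simpa using hi, rfl⟩
          exact (Finset.card_le_card h6).trans (Finset.card_map _).le
        have h7 : ((univ.filter (fun i : Fin (θ + 1) =>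
            (Fin.cons (some v) p : Fin (θ + 1) → Option V) i ≠
              (Fin.cons (some v) p' : Fin (θ + 1) → Option V) i)).card : ℝ) ≤
            ((univ.filter (fun i : Fin θ => p i ≠ p' i)).card : ℝ) := by exact_mod_cast h5
        linarith)
      have h8 : ∀ p : Fin θ → V, (fun i => some ((Fin.cons v p : Fin (θ + 1) → V) i)) =
          (Fin.cons (some v) (fun i => some (p i)) : Fin (θ + 1) → Option V) := by
        intro p
        funext i
        refine Fin.cases rfl (fun j => rfl) i
      simp only [h8]
      exact h3
    have h9 : (((θ + 1 : ℕ) : ℝ)) / ((Fintype.card V : ℝ) + 1) =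
        θ / ((Fintype.card V : ℝ) + 1) + 1 / ((Fintype.card V : ℝ) + 1) := by
      push_cast
      ring
    rw [h9]
    linarith

end Pool.Agent.Lib_helper39.UE
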