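import Pool.Agent.Lib_helper39.UE.Defs

set_option autoImplicit false

namespace Pool.Agent.Lib_helper39.UE

open Finset

/-- the tuple of `Option V` with `none` at position `t.1` -/
def tupIns {κ : ℕ} {V : Type} (t : Tch κ V) : Fin (κ + 1) ↪ Option V where
  toFun := Fin.insertNth (α := fun _ => Option V) t.1 none (fun i => some (t.2 i))
  inj' := by
    intro a b hab
    rcases Fin.eq_self_or_eq_succAbove t.1 a with ha | ⟨i, ha⟩
    · rcases Fin.eq_self_or_eq_succAbove t.1 b with hb | ⟨j, hb⟩
      · rw [ha, hb]
      · rw [ha, hb] at hab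
        simp at hab
    · rcases Fin.eq_self_or_eq_succAbove t.1 b with hb | ⟨j, hb⟩
      · rw [ha, hb] at hab
        simp at hab
      · rw [ha, hb] at hab
        simp at hab
        rw [ha, hb, hab]

theorem tupIns_self {κ : ℕ} {V : Type} (t : Tch κ V) : tupIns t t.1 = none := by
  simp [tupIns]

theorem tupIns_succAbove {κ : ℕ} {V : Type} (t : Tch κ V) (i : Fin κ) :
    tupIns t (t.1.succAbove i) = some (t.2 i) := by
  simp [tupIns]

/-- the map from the two kinds of tuples -/
def tupMap (κ : ℕ) (V : Type) : (Fin (κ + 1) ↪ V) ⊕ Tch κ V → (Fin (κ + 1) ↪ Option V)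
  | Sum.inl e => e.trans Function.Embedding.some
  | Sum.inr t => tupIns t

theorem tupMap_bij (κ : ℕ) (V : Type) : Function.Bijective (tupMap κ V) := by
  constructor
  · rintro (e | t) (e' | t') h
    · congr 1
      ext i
      have := DFunLike.congr_fun h i
      simpa [tupMap] using this
    · exfalso
      have := DFunLike.congr_fun h t'.1
      simp only [tupMap, tupIns_self] at this
      simp at this
    · exfalso
      have := DFunLike.congr_fun h t.1
      simp only [tupMap, tupIns_self] at this
      simp at this
    · have h' : tupIns t = tupIns t' := h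
      have h1 : t.1 = t'.1 := by
        have h2 : tupIns t' t.1 = none := by rw [← h', tupIns_self]
        rcases Fin.eq_self_or_eq_succAbove t'.1 t.1 with ha | ⟨i, ha⟩
        · exact ha
        · rw [ha, tupIns_succAbove] at h2
          simp at h2
      congr 1
      apply Prod.ext h1
      ext i
      have h3 : tupIns t (t.1.succAbove i) = tupIns t' (t'.1.succAbove i) := by rw [h', h1]
      rw [tupIns_succAbove, tupIns_succAbove] at h3
      exact Option.some_injective _ h3
  · intro f
    by_cases h : ∃ j, f j = none
    · obtain ⟨j, hj⟩ := h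
      have hs : ∀ i : Fin κ, ∃ v, f (j.succAbove i) = some v := by
        intro i
        rcases hv : f (j.succAbove i) with _ | v
        · exact absurd (f.injective (hv.trans hj.symm)) (Fin.succAbove_ne j i)
        · exact ⟨v, rfl⟩
      choose e he using hs
      have hinj : Function.Injective e := by
        intro a b hab
        have h1 : f (j.succAbove a) = f (j.succAbove b) := by rw [he, he, hab]
        exact Fin.succAbove_right_injective (f.injective h1)
      refine ⟨Sum.inr (j, ⟨e, hinj⟩), ?_⟩
      show tupIns (j, ⟨e, hinj⟩) = f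
      ext1 a
      rcases Fin.eq_self_or_eq_succAbove j a with ha | ⟨i, ha⟩
      · rw [ha, hj]
        exact tupIns_self (κ := κ) (V := V) (j, ⟨e, hinj⟩)
      · rw [ha, he]
        exact tupIns_succAbove (κ := κ) (V := V) (j, ⟨e, hinj⟩) i
    · have hs : ∀ i : Fin (κ + 1), ∃ v, f i = some v := by
        intro i
        rcases hv : f i with _ | v
        · exact absurd ⟨i, hv⟩ h
        · exact ⟨v, rfl⟩
      choose e he using hs
      have hinj : Function.Injective e := by
        intro a b hab
        have h1 : f a = f b := by rw [he, he, hab]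
        exact f.injective h1
      refine ⟨Sum.inl ⟨e, hinj⟩, ?_⟩
      show (⟨e, hinj⟩ : Fin (κ + 1) ↪ V).trans Function.Embedding.some = f
      ext1 a
      rw [he]
      rfl

theorem ext0_single {F : Type} [CommRing F] {V : Type} [DecidableEq V] (v : V) (c : F) :
    ext0 F V (Pi.single v c) = Pi.single (some v) c := by
  funext o
  cases o with
  | none => simp [ext0]
  | some u =>
    by_cases h : u = v
    · subst h
      simp [ext0]
    · have h' : (some u) ≠ some v := fun h2 => h (Option.some_injective _ h2)
      simp [ext0, Pi.single_eq_of_ne h, Pi.single_eq_of_ne h']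

theorem tup_equiv {F : Type} [CommRing F] (κ : ℕ) (V : Type) [Fintype V] [DecidableEq V] :
    ∃ τ : (Fin (κ + 1) ↪ Option V) ≃ (Fin (κ + 1) ↪ V) ⊕ Tch κ V,
      ∀ lam : Fin (κ + 1) → F,
        (∀ e, row lam (τ.symm (Sum.inl e)) = ext0 F V (row lam e)) ∧
        (∀ t, row lam (τ.symm (Sum.inr t)) = trow lam t) := by
  refine ⟨(Equiv.ofBijective _ (tupMap_bij κ V)).symm, ?_⟩
  intro lam
  constructor
  · intro e
    simp only [Equiv.symm_symm, Equiv.ofBijective_apply]
    show row lam (e.trans Function.Embedding.some) = _
    unfold row
    rw [map_sum]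
    refine Finset.sum_congr rfl ?_
    intro j _
    rw [ext0_single]
    rfl
  · intro t
    simp only [Equiv.symm_symm, Equiv.ofBijective_apply]
    show row lam (tupIns t) = _
    unfold row trow
    rw [Fin.sum_univ_succAbove _ t.1, tupIns_self]
    congr 1
    refine Finset.sum_congr rfl ?_
    intro j _
    rw [tupIns_succAbove]

end Pool.Agent.Lib_helper39.UE
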