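import Pool.Agent.Lib_helper39.UE.INCY
import Pool.Agent.Lib_helper39.UE.TUP
import Pool.Agent.Lib_helper39.UE.PINC
import Pool.Agent.Lib_helper39.UE.PIN
import Pool.Agent.Lib_helper39.UE.AN

/-!
Block INC of MP_82d614_pr: one more variable.
-/

set_option autoImplicit false

namespace Pool.Agent.Lib_helper39.UE

open Finset

namespace INC

/-! ### descending factorials -/

lemma desc_le (n f k : ℕ) (hf : f ≤ n) :
    f.descFactorial k * n ^ k ≤ f ^ k * n.descFactorial k := by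
  induction k with
  | zero => simp
  | succ k ih =>
    rw [Nat.descFactorial_succ, Nat.descFactorial_succ]
    have h : (f - k) * n ≤ f * (n - k) := by
      rcases le_total f k with h1 | h1
      · simp [Nat.sub_eq_zero_of_le h1]
      · obtain ⟨g, rfl⟩ := Nat.exists_eq_add_of_le h1
        obtain ⟨m, rfl⟩ := Nat.exists_eq_add_of_le hf
        have e1 : k + g - k = g := by omega
        have e2 : k + g + m - k = g + m := by omega
        rw [e1, e2]
        nlinarith
    calc (f - k) * f.descFactorial k * n ^ (k + 1)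
        = ((f - k) * n) * (f.descFactorial k * n ^ k) := by ring
      _ ≤ (f * (n - k)) * (f ^ k * n.descFactorial k) := Nat.mul_le_mul h ih
      _ = _ := by ring

lemma desc_ratio_le {n f : ℕ} (k : ℕ) (hf : f ≤ n) (hk : k ≤ n) (hn : 0 < n) :
    (f.descFactorial k : ℝ) / n.descFactorial k ≤ ((f : ℝ) / n) ^ k := by
  have h1 : (0 : ℝ) < n.descFactorial k := by
    exact_mod_cast Nat.descFactorial_pos.2 hk
  have h2 : (0 : ℝ) < (n : ℝ) ^ k := by positivity
  rw [div_pow, div_le_div_iff₀ h1 h2]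
  exact_mod_cast desc_le n f k hf

lemma desc_lower {n f : ℕ} (k : ℕ) (hf : f ≤ n) (hn : 0 < n) :
    ((f : ℝ) / n) ^ k - (k : ℝ) ^ 2 / n ≤ (f.descFactorial k : ℝ) / (n : ℝ) ^ k := by
  have hn' : (0 : ℝ) < n := by exact_mod_cast hn
  have ha0 : (0 : ℝ) ≤ (f : ℝ) / n := by positivity
  have ha1 : (f : ℝ) / n ≤ 1 := by
    rw [div_le_one hn']; exact_mod_cast hf
  induction k with
  | zero => simp
  | succ k ih =>
    have hA0 : (0 : ℝ) ≤ (f.descFactorial k : ℝ) / (n : ℝ) ^ k := by positivity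
    have hA1 : (f.descFactorial k : ℝ) / (n : ℝ) ^ k ≤ 1 := by
      rw [div_le_one (by positivity)]
      have h1 : f.descFactorial k ≤ n ^ k := (Nat.descFactorial_le_pow f k).trans
        (Nat.pow_le_pow_left hf k)
      exact_mod_cast h1
    have hsub : (f : ℝ) - k ≤ ((f - k : ℕ) : ℝ) := by
      rcases le_total k f with h | h
      · rw [Nat.cast_sub h]
      · rw [Nat.sub_eq_zero_of_le h]
        have : (f : ℝ) ≤ k := by exact_mod_cast h
        simp; linarith
    have e : ((f.descFactorial (k + 1) : ℕ) : ℝ) / (n : ℝ) ^ (k + 1) =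
        (f.descFactorial k : ℝ) / (n : ℝ) ^ k * (((f - k : ℕ) : ℝ) / n) := by
      rw [Nat.descFactorial_succ, pow_succ]
      push_cast
      field_simp
    rw [e]
    have h3 : (f.descFactorial k : ℝ) / (n : ℝ) ^ k * ((f : ℝ) / n - k / n) ≤
        (f.descFactorial k : ℝ) / (n : ℝ) ^ k * (((f - k : ℕ) : ℝ) / n) := by
      apply mul_le_mul_of_nonneg_left _ hA0
      rw [← sub_div]
      exact div_le_div_of_nonneg_right hsub hn'.le
    refine le_trans ?_ h3
    set A := (f.descFactorial k : ℝ) / (n : ℝ) ^ k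
    set a := (f : ℝ) / n
    have h4 : (a ^ k - (k : ℝ) ^ 2 / n) * a ≤ A * a := mul_le_mul_of_nonneg_right ih ha0
    have h5 : A * ((k : ℝ) / n) ≤ 1 * ((k : ℝ) / n) :=
      mul_le_mul_of_nonneg_right hA1 (by positivity)
    have h6 : (k : ℝ) ^ 2 / n * a ≤ (k : ℝ) ^ 2 / n * 1 :=
      mul_le_mul_of_nonneg_left ha1 (by positivity)
    have h7 : (((k + 1 : ℕ) : ℝ)) ^ 2 / n = (k : ℝ) ^ 2 / n + k / n + (k + 1) / n := by
      push_cast; field_simp; try ring
    rw [h7, pow_succ]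
    have h8 : (0 : ℝ) ≤ ((k : ℝ) + 1) / n := by positivity
    nlinarith

lemma desc_ratio_ge {n f : ℕ} (k : ℕ) (hf : f ≤ n) (hk : k ≤ n) (hn : 0 < n) :
    ((f : ℝ) / n) ^ k - (k : ℝ) ^ 2 / n ≤ (f.descFactorial k : ℝ) / n.descFactorial k := by
  refine (desc_lower k hf hn).trans ?_
  have h1 : (0 : ℝ) < n.descFactorial k := by
    exact_mod_cast Nat.descFactorial_pos.2 hk
  apply div_le_div_of_nonneg_left (by positivity) h1
  exact_mod_cast Nat.descFactorial_le_pow n k

/-! ### averages -/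

lemma avg_mono {α : Type} [Fintype α] {f g : α → ℝ} (h : ∀ x, f x ≤ g x) : avg f ≤ avg g := by
  unfold avg
  exact div_le_div_of_nonneg_right (Finset.sum_le_sum fun x _ => h x) (by positivity)

lemma avg_const {α : Type} [Fintype α] [Nonempty α] (c : ℝ) : avg (fun _ : α => c) = c := by
  unfold avg
  have : (Fintype.card α : ℝ) ≠ 0 := by
    exact_mod_cast Fintype.card_ne_zero
  simp [this]

lemma avg_sub {α : Type} [Fintype α] (f g : α → ℝ) :
    avg (fun x => f x - g x) = avg f - avg g := by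
  unfold avg
  rw [Finset.sum_sub_distrib, sub_div]

lemma avg_mul {α : Type} [Fintype α] (c : ℝ) (f : α → ℝ) :
    avg (fun x => c * f x) = c * avg f := by
  unfold avg
  rw [← Finset.mul_sum, mul_div_assoc]

lemma avg_sum {α ι : Type} [Fintype α] (s : Finset ι) (f : ι → α → ℝ) :
    avg (fun x => ∑ i ∈ s, f i x) = ∑ i ∈ s, avg (f i) := by
  unfold avg
  rw [Finset.sum_comm, Finset.sum_div]

lemma bE_sub {E : Type} [Fintype E] (s : ℝ) (f g : Finset E → ℝ) :
    bE s (fun G => f G - g G) = bE s f - bE s g := by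
  unfold bE
  rw [← Finset.sum_sub_distrib]
  apply Finset.sum_congr rfl
  intro G _
  ring

lemma bE_sum {E ι : Type} [Fintype E] (s : ℝ) (t : Finset ι) (f : ι → Finset E → ℝ) :
    bE s (fun G => ∑ i ∈ t, f i G) = ∑ i ∈ t, bE s (f i) := by
  unfold bE
  simp only [Finset.mul_sum]
  rw [Finset.sum_comm]

lemma avg_bE {α E : Type} [Fintype α] [Fintype E] (s : ℝ) (f : α → Finset E → ℝ) :
    avg (fun x => bE s (f x)) = bE s (fun G => avg (fun x => f x G)) := by
  unfold avg bE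
  rw [Finset.sum_comm, Finset.sum_div]
  apply Finset.sum_congr rfl
  intro G _
  rw [← Finset.mul_sum, mul_div_assoc]

/-! ### linear algebra -/

section lin
variable {F : Type} [Field F] {κ : ℕ}

lemma pins_some {V J : Type} [DecidableEq V] (p : J → V) :
    (pins (F := F) (fun i => some (p i)) : Submodule F (Option V → F)) =
      (pins p).map (ext0 F V) := by
  unfold pins
  rw [Submodule.map_span]
  congr 1
  ext x
  simp only [Set.mem_range, Set.mem_image, exists_exists_eq_and]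
  have : ∀ v : V, ext0 F V (Pi.single v 1) = Pi.single (some v) 1 := by
    intro v
    funext o
    cases o with
    | none => simp [ext0]
    | some w =>
      by_cases h : w = v
      · subst h; simp [ext0]
      · simp [ext0, Pi.single_apply, h]
  simp only [this]

open Classical in
lemma lip {W : Type} [Fintype W] [DecidableEq W] {θ : ℕ} (R : Submodule F (W → F))
    (p p' : Fin θ → W) :
    (Module.finrank F (R ⊔ pins p : Submodule F (W → F)) : ℝ) ≤
      Module.finrank F (R ⊔ pins p' : Submodule F (W → F)) +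
        ((univ.filter (fun i => p i ≠ p' i)).card : ℝ) := by
  set D := univ.filter (fun i => p i ≠ p' i) with hD
  set Z : Finset (W → F) := D.image (fun i => (Pi.single (p i) 1 : W → F)) with hZ
  have h1 : (R ⊔ pins p : Submodule F (W → F)) ≤ (R ⊔ pins p') ⊔ Submodule.span F (Z : Set (W → F)) := by
    refine sup_le (le_sup_left.trans le_sup_left) ?_
    unfold pins
    rw [Submodule.span_le]
    rintro _ ⟨i, rfl⟩
    by_cases h : p i = p' i
    · apply Submodule.mem_sup_left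
      apply Submodule.mem_sup_right
      apply Submodule.subset_span
      exact ⟨i, by simp [h]⟩
    · apply Submodule.mem_sup_right
      apply Submodule.subset_span
      rw [hZ, Finset.coe_image]
      exact ⟨i, by simp [hD, h], rfl⟩
  have h2 := Submodule.finrank_mono h1
  have h3 := Submodule.finrank_add_le_finrank_add_finrank (R ⊔ pins p')
    (Submodule.span F (Z : Set (W → F)))
  have h4 : Module.finrank F (Submodule.span F (Z : Set (W → F))) ≤ Z.card :=
    finrank_span_finset_le_card Z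
  have h5 : Z.card ≤ D.card := Finset.card_image_le
  exact_mod_cast (h2.trans (h3.trans (Nat.add_le_add_left (h4.trans h5) _)))

open Classical in
lemma rs_map {V : Type} [Fintype V] [DecidableEq V] (lam : Fin (κ + 1) → F)
    (τ : (Fin (κ + 1) ↪ Option V) ≃ (Fin (κ + 1) ↪ V) ⊕ Tch κ V)
    (hτ : (∀ e, row lam (τ.symm (Sum.inl e)) = ext0 F V (row lam e)) ∧
        (∀ t, row lam (τ.symm (Sum.inr t)) = trow lam t))
    (G : Finset (Fin (κ + 1) ↪ V)) (Y : Finset (Tch κ V)) {θ : ℕ} (p : Fin θ → V) :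
    (rs lam ((G.disjSum Y).map τ.symm.toEmbedding) ⊔ pins (fun i => some (p i)) :
      Submodule F (Option V → F)) =
    (rs lam G ⊔ pins p).map (ext0 F V) ⊔ Submodule.span F (trow lam '' (Y : Set (Tch κ V))) := by
  have h1 : rs lam ((G.disjSum Y).map τ.symm.toEmbedding) =
      (rs lam G).map (ext0 F V) ⊔ Submodule.span F (trow lam '' (Y : Set (Tch κ V))) := by
    unfold rs
    rw [Submodule.map_span, ← Submodule.span_union]
    congr 1
    ext x
    simp only [Finset.coe_map, Set.mem_image, Finset.mem_coe, Set.mem_union]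
    constructor
    · rintro ⟨_, ⟨y, hy, rfl⟩, rfl⟩
      rw [Finset.mem_disjSum] at hy
      rcases hy with ⟨e, he, rfl⟩ | ⟨t, ht, rfl⟩
      · left
        exact ⟨_, ⟨e, he, rfl⟩, (hτ.1 e).symm⟩
      · right
        exact ⟨t, ht, (hτ.2 t).symm⟩
    · rintro (⟨_, ⟨e, he, rfl⟩, rfl⟩ | ⟨t, ht, rfl⟩)
      · exact ⟨_, ⟨Sum.inl e, Finset.mem_disjSum.2 (Or.inl ⟨e, he, rfl⟩), rfl⟩, hτ.1 e⟩
      · exact ⟨_, ⟨Sum.inr t, Finset.mem_disjSum.2 (Or.inr ⟨t, ht, rfl⟩), rfl⟩, hτ.2 t⟩
  rw [h1, pins_some, Submodule.map_sup, sup_assoc, sup_assoc,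
    sup_comm (Submodule.span F (trow lam '' (Y : Set (Tch κ V))))]

lemma rs_union {V : Type} [DecidableEq V] {k : ℕ} (lam : Fin k → F)
    (G X : Finset (Fin k ↪ V)) : rs lam (G ∪ X) = rs lam G ⊔ rs lam X := by
  unfold rs
  rw [Finset.coe_union, Set.image_union, Submodule.span_union]

lemma fc_le {V : Type} [Fintype V] [DecidableEq V] (R : Submodule F (V → F)) :
    fc R ≤ Fintype.card V := by
  classical
  unfold fc
  exact Finset.card_le_univ _

end lin

/-! ### analysis -/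

lemma psi_anti {d x y : ℝ} (hd : 0 ≤ d) (hx : 0 ≤ x) (hxy : x ≤ y) :
    d * (1 - y) + (1 - Real.exp (-(d * y))) ≤ d * (1 - x) + (1 - Real.exp (-(d * x))) := by
  -- exp(-(d x)) - exp(-(d y)) ≤ d (y - x)
  have h1 : Real.exp (-(d * y)) = Real.exp (-(d * x)) * Real.exp (-(d * (y - x))) := by
    rw [← Real.exp_add]; congr 1; ring
  have h2 : 1 - d * (y - x) ≤ Real.exp (-(d * (y - x))) := by
    have := Real.add_one_le_exp (-(d * (y - x)))
    linarith
  have h3 : Real.exp (-(d * x)) ≤ 1 := by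
    rw [Real.exp_le_one_iff]
    have := mul_nonneg hd hx
    linarith
  have h4 : 0 < Real.exp (-(d * x)) := Real.exp_pos _
  have h5 : 0 ≤ d * (y - x) := mul_nonneg hd (by linarith)
  rw [h1]
  nlinarith [mul_le_mul_of_nonneg_left h2 h4.le, mul_nonneg h5 (sub_nonneg.2 h3)]

/-- bounds for large `n` -/
structure Big (κ : ℕ) (c : ℝ) (n : ℕ) : Prop where
  n1 : 1 ≤ n
  n2 : 2 * κ + 1 ≤ n
  N2 : (n : ℝ) ^ κ ≤ 2 * (n.descFactorial κ : ℝ)
  s1 : 4 * c ≤ n

lemma big_of {κ : ℕ} {c : ℝ} {n : ℕ} (h1 : 2 * κ ^ 2 + 2 * κ + 1 ≤ n) (h2 : 4 * c ≤ n) :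
    Big κ c n := by
  have hn : 1 ≤ n := le_trans (by omega) h1
  have hn' : (0 : ℝ) < n := by exact_mod_cast hn
  refine ⟨hn, le_trans (by nlinarith [sq_nonneg κ]) h1, ?_, h2⟩
  have h3 := desc_lower (n := n) (f := n) κ le_rfl hn
  rw [div_self hn'.ne', one_pow] at h3
  have h4 : (κ : ℝ) ^ 2 / n ≤ 1 / 2 := by
    rw [div_le_iff₀ hn']
    have : ((2 * κ ^ 2 + 2 * κ + 1 : ℕ) : ℝ) ≤ n := by exact_mod_cast h1
    push_cast at this
    have hk : (0 : ℝ) ≤ κ := Nat.cast_nonneg κ
    linarith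
  have h5 : 1 / 2 ≤ (n.descFactorial κ : ℝ) / (n : ℝ) ^ κ := by linarith
  rw [le_div_iff₀ (by positivity)] at h5
  linarith

section main
variable {F : Type} [Field F] {κ : ℕ}

/-- the increment for a fixed row space -/
lemma point (hκ : 2 ≤ κ) (lam : Fin (κ + 1) → F) (hlam : ∀ j, lam j ≠ 0) (c : ℝ) (hc : 0 < c)
    (hd : ((κ : ℝ) + 1) * c < dk (κ + 1)) (L : ℕ) {V : Type} [Fintype V] [DecidableEq V]
    (n : ℕ) (hn : n = Fintype.card V) (hB : Big κ c n) (s s' : ℝ)
    (hs : s = c / n.descFactorial κ)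
    (hs' : s' = (c * n / n.descFactorial (κ + 1) - s) / (1 - s)) (R : Submodule F (V → F)) :
    bE s' (fun X : Finset (Fin (κ + 1) ↪ V) =>
        (Module.finrank F (R ⊔ rs lam X : Submodule F (V → F)) : ℝ)) +
      (c - ((((κ : ℝ) + 1) * c) ^ 2 + ((κ : ℝ) + 1) * c) / (L + 1) -
        κ * c * (4 * c + 2 * ((κ : ℝ) + 1) ^ 2) / n -
        L * ∑ y ∈ range (L + 1), (2 * (((κ : ℝ) + 1) * c)) ^ y *
          pr (fun I : Fin y × Fin κ → V => Bad R I)) ≤
      bE s (fun Y : Finset (Tch κ V) =>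
        (Module.finrank F (R.map (ext0 F V) ⊔ Submodule.span F (trow lam '' (Y : Set (Tch κ V))) :
          Submodule F (Option V → F)) : ℝ)) := by
  have hn0 : 0 < n := hB.n1
  have hn' : (0 : ℝ) < n := by exact_mod_cast hn0
  have hκn : κ ≤ n := by have := hB.n2; omega
  have hκn' : κ + 1 ≤ n := by have := hB.n2; omega
  set N : ℝ := (n.descFactorial κ : ℝ) with hN
  have hNpos : 0 < N := by rw [hN]; exact_mod_cast Nat.descFactorial_pos.2 hκn
  have hMN : (n.descFactorial (κ + 1) : ℝ) = ((n : ℝ) - κ) * N := by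
    rw [Nat.descFactorial_succ, hN]
    push_cast [Nat.cast_sub hκn]
    ring
  have hnκ : (0 : ℝ) < (n : ℝ) - κ := by
    have : (κ : ℝ) < n := by exact_mod_cast (Nat.lt_of_succ_le hκn')
    linarith
  have h2κ : 2 * (κ : ℝ) ≤ n := by
    have : 2 * κ ≤ n := by have := hB.n2; omega
    exact_mod_cast this
  have hnN : (n : ℝ) ≤ 2 * N := by
    refine le_trans ?_ hB.N2
    calc (n : ℝ) = (n : ℝ) ^ 1 := (pow_one _).symm
      _ ≤ (n : ℝ) ^ κ := pow_le_pow_right₀ (by exact_mod_cast hB.n1) (by omega)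
  have hs0 : 0 < s := by rw [hs]; positivity
  have hsn : s ≤ 2 * c / n := by
    rw [hs, div_le_div_iff₀ hNpos hn']
    nlinarith
  have hsh : s ≤ 1 / 2 := by
    refine hsn.trans ?_
    rw [div_le_iff₀ hn']
    linarith [hB.s1]
  have h1s : 0 < 1 - s := by linarith
  have hcN : c ≤ N := by
    have : s * N = c := by rw [hs]; field_simp
    nlinarith
  have hsn' : c * n / n.descFactorial (κ + 1) = s * (n / ((n : ℝ) - κ)) := by
    rw [hMN, hs]; field_simp
  have hr1 : 1 ≤ (n : ℝ) / ((n : ℝ) - κ) := by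
    rw [one_le_div hnκ]
    have : (0 : ℝ) ≤ κ := Nat.cast_nonneg κ
    linarith
  have hr2 : (n : ℝ) / ((n : ℝ) - κ) ≤ 2 := by
    rw [div_le_iff₀ hnκ]; linarith
  have hs'0 : 0 ≤ s' := by
    rw [hs', hsn']
    apply div_nonneg _ h1s.le
    nlinarith
  have hs'1 : s' ≤ 1 := by
    rw [hs', hsn', div_le_one h1s]
    nlinarith
  have hs'M : s' * (n.descFactorial (κ + 1) : ℝ) = c * κ / (1 - s) := by
    rw [hs', hMN, hs]
    have : N ≠ 0 := hNpos.ne'
    have : (n : ℝ) - κ ≠ 0 := hnκ.ne'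
    have : 1 - c / N ≠ 0 := by rw [← hs]; exact h1s.ne'
    field_simp
    ring
  set d : ℝ := ((κ : ℝ) + 1) * c with hdd
  have hd0 : 0 < d := by positivity
  set f := fc R with hf
  have hfn : f ≤ n := by rw [hn]; exact fc_le R
  set a : ℝ := (f : ℝ) / n with ha
  have ha0 : 0 ≤ a := by positivity
  have ha1 : a ≤ 1 := by
    rw [ha, div_le_one hn']; exact_mod_cast hfn
  set β : ℝ := (f.descFactorial κ : ℝ) / N with hβ
  have hβ0 : 0 ≤ β := by positivity
  have hβa : β ≤ a ^ κ := desc_ratio_le κ hfn hκn hn0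
  have hY := incY lam hlam R c d β n N hc hdd (by rw [← hn]; exact hκn) (by rw [hn])
    (by rw [hN, hn]) hcN hβ L
  have hX := incX lam R s' hs'0 hs'1
  rw [← hs] at hY
  rw [← hn, ← hf] at hX
  -- the bad term
  have hbad : ∑ y ∈ range (L + 1), (d * n ^ κ / N) ^ y *
            pr (fun I : Fin y × Fin κ → V => Bad R I) ≤
      ∑ y ∈ range (L + 1), (2 * d) ^ y * pr (fun I : Fin y × Fin κ → V => Bad R I) := by
    apply Finset.sum_le_sum
    intro y _
    apply mul_le_mul_of_nonneg_right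
    · apply pow_le_pow_left₀ (by positivity)
      rw [div_le_iff₀ hNpos]
      nlinarith [hB.N2]
    · unfold pr avg
      apply div_nonneg _ (by positivity)
      apply Finset.sum_nonneg
      intro x _
      split_ifs <;> norm_num
  have hbad' := mul_le_mul_of_nonneg_left hbad (Nat.cast_nonneg L : (0 : ℝ) ≤ L)
  -- psi
  have hpsi := psi_anti hd0.le hβ0 hβa
  -- gd
  have hgd := gd_nonpos (κ + 1) (by omega) d hd0 hd a ha0 ha1
  have hgd' : d * a ^ κ - (1 - Real.exp (-(d * a ^ κ))) - κ * c * a ^ (κ + 1) ≤ 0 := by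
    unfold gd at hgd
    have e1 : κ + 1 - 1 = κ := rfl
    rw [e1] at hgd
    have e2 : d * (1 - 1 / ((κ + 1 : ℕ) : ℝ)) = κ * c := by
      rw [hdd]; push_cast
      have : (κ : ℝ) + 1 ≠ 0 := by positivity
      field_simp
      ring
    rw [e2] at hgd
    have e3 : -d * a ^ κ = -(d * a ^ κ) := by ring
    rw [e3] at hgd
    exact hgd
  -- X part
  have hα : a ^ (κ + 1) - ((κ + 1 : ℕ) : ℝ) ^ 2 / n ≤
      (f.descFactorial (κ + 1) : ℝ) / n.descFactorial (κ + 1) :=
    desc_ratio_ge (κ + 1) hfn hκn' hn0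
  have hMpos : (0 : ℝ) < n.descFactorial (κ + 1) := by
    exact_mod_cast Nat.descFactorial_pos.2 hκn'
  have hXb : s' * ((n.descFactorial (κ + 1) : ℝ) - (f.descFactorial (κ + 1) : ℝ)) ≤
      κ * c * (1 - a ^ (κ + 1)) + κ * c * (4 * c + 2 * ((κ : ℝ) + 1) ^ 2) / n := by
    have e1 : s' * ((n.descFactorial (κ + 1) : ℝ) - (f.descFactorial (κ + 1) : ℝ)) =
        c * κ / (1 - s) * (1 - (f.descFactorial (κ + 1) : ℝ) / n.descFactorial (κ + 1)) := by
      rw [← hs'M]
      field_simp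
    rw [e1]
    have hck : 0 ≤ c * κ := by positivity
    have hak : 0 ≤ a ^ (κ + 1) := by positivity
    have h5 : 1 - (f.descFactorial (κ + 1) : ℝ) / n.descFactorial (κ + 1) ≤
        (1 - a ^ (κ + 1)) + ((κ : ℝ) + 1) ^ 2 / n := by
      push_cast at hα
      linarith
    have h6 : c * κ / (1 - s) * (1 - (f.descFactorial (κ + 1) : ℝ) / n.descFactorial (κ + 1)) ≤
        c * κ / (1 - s) * ((1 - a ^ (κ + 1)) + ((κ : ℝ) + 1) ^ 2 / n) :=
      mul_le_mul_of_nonneg_left h5 (by positivity)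
    refine h6.trans ?_
    have h7 : 1 / (1 - s) ≤ 1 + 2 * s := by
      rw [div_le_iff₀ h1s]
      nlinarith
    have h8 : 1 / (1 - s) ≤ 2 := by linarith
    have h9 : (0 : ℝ) ≤ ((κ : ℝ) + 1) ^ 2 / n := by positivity
    have h10 : 1 / (1 - s) * ((1 - a ^ (κ + 1)) + ((κ : ℝ) + 1) ^ 2 / n) ≤
        (1 - a ^ (κ + 1)) + (4 * c / n + 2 * (((κ : ℝ) + 1) ^ 2 / n)) := by
      have i1 : 0 ≤ 1 - a ^ (κ + 1) := by
        have : a ^ (κ + 1) ≤ 1 := pow_le_one₀ ha0 ha1
        linarith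
      have i2 : 1 / (1 - s) * (1 - a ^ (κ + 1)) ≤ (1 + 2 * s) * (1 - a ^ (κ + 1)) :=
        mul_le_mul_of_nonneg_right h7 i1
      have i3 : 2 * s * (1 - a ^ (κ + 1)) ≤ 2 * s * 1 :=
        mul_le_mul_of_nonneg_left (by linarith) (by positivity)
      have i4 : 1 / (1 - s) * (((κ : ℝ) + 1) ^ 2 / n) ≤ 2 * (((κ : ℝ) + 1) ^ 2 / n) :=
        mul_le_mul_of_nonneg_right h8 h9
      have i5 : 2 * s ≤ 4 * c / n := by
        calc 2 * s ≤ 2 * (2 * c / n) := by linarith
          _ = 4 * c / n := by ring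
      calc 1 / (1 - s) * ((1 - a ^ (κ + 1)) + ((κ : ℝ) + 1) ^ 2 / n) =
          1 / (1 - s) * (1 - a ^ (κ + 1)) + 1 / (1 - s) * (((κ : ℝ) + 1) ^ 2 / n) := by ring
        _ ≤ _ := by linarith
    calc c * κ / (1 - s) * ((1 - a ^ (κ + 1)) + ((κ : ℝ) + 1) ^ 2 / n) =
        c * κ * (1 / (1 - s) * ((1 - a ^ (κ + 1)) + ((κ : ℝ) + 1) ^ 2 / n)) := by ring
      _ ≤ c * κ * ((1 - a ^ (κ + 1)) + (4 * c / n + 2 * (((κ : ℝ) + 1) ^ 2 / n))) :=
          mul_le_mul_of_nonneg_left h10 hck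
      _ = _ := by ring
  have hfin : d - κ * c = c := by rw [hdd]; ring
  linarith

end main

end INC

open INC in
theorem inc_main {F : Type} [Field F] {κ : ℕ} (hκ : 2 ≤ κ) (lam : Fin (κ + 1) → F)
    (hlam : ∀ j, lam j ≠ 0) (c : ℝ) (hc : 0 < c) (hd : ((κ : ℝ) + 1) * c < dk (κ + 1))
    (ε : ℝ) (hε : 0 < ε) :
    ∃ T : ℕ, 0 < T ∧ ∃ n₀ : ℕ, ∀ (V : Type) [Fintype V] [DecidableEq V],
      n₀ ≤ Fintype.card V →
      T * (c - ε) ≤ ∑ θ ∈ range T,
        (EA lam (Option V) (c / (Fintype.card V).descFactorial κ) θ -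
          EA lam V (c * Fintype.card V / (Fintype.card V).descFactorial (κ + 1)) θ) := by
  classical
  set d : ℝ := ((κ : ℝ) + 1) * c with hdd
  have hd0 : 0 < d := by positivity
  -- choice of L
  obtain ⟨L, hL⟩ : ∃ L : ℕ, (d ^ 2 + d) / ((L : ℝ) + 1) ≤ ε / 4 := by
    obtain ⟨L, hL⟩ := exists_nat_ge ((d ^ 2 + d) / (ε / 4))
    refine ⟨L, ?_⟩
    rw [div_le_iff₀ (by positivity)] at hL
    rw [div_le_iff₀ (by positivity)]
    nlinarith
  -- the constant of the bad terms
  set K : ℝ := L * ∑ y ∈ range (L + 1), (2 * d) ^ y * ((y : ℝ) * κ) ^ 2 with hK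
  have hK0 : 0 ≤ K := by
    rw [hK]
    apply mul_nonneg (Nat.cast_nonneg _)
    apply Finset.sum_nonneg
    intro y _
    positivity
  obtain ⟨T, hT⟩ := exists_nat_ge (K / (ε / 4) + 1)
  have hT1 : (1 : ℝ) ≤ T := le_trans (by have : 0 ≤ K / (ε / 4) := by positivity
                                         linarith) hT
  have hT0 : 0 < T := by
    have : (0 : ℝ) < T := by linarith
    exact_mod_cast this
  have hTK : K ≤ T * (ε / 4) := by
    have h1 : K / (ε / 4) ≤ T := by linarith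
    rwa [div_le_iff₀ (by positivity)] at h1
  -- choice of n₀
  set C1 : ℝ := κ * c * (4 * c + 2 * ((κ : ℝ) + 1) ^ 2) with hC1
  have hC10 : 0 ≤ C1 := by positivity
  obtain ⟨n1, hn1⟩ := exists_nat_ge (C1 / (ε / 8))
  obtain ⟨n2, hn2⟩ := exists_nat_ge (K / (ε / 8))
  obtain ⟨n3, hn3⟩ := exists_nat_ge ((T : ℝ) / (ε / 8))
  obtain ⟨n4, hn4⟩ := exists_nat_ge (4 * c)
  refine ⟨T, hT0, max (max n1 n2) (max (max n3 n4) (2 * κ ^ 2 + 2 * κ + 1)), ?_⟩
  intro V _ _ hV
  set n := Fintype.card V with hn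
  have g1 : n1 ≤ n := ((le_max_left _ _).trans (le_max_left _ _)).trans hV
  have g2 : n2 ≤ n := ((le_max_right _ _).trans (le_max_left _ _)).trans hV
  have g3 : n3 ≤ n := (((le_max_left _ _).trans (le_max_left _ _)).trans (le_max_right _ _)).trans hV
  have g4 : n4 ≤ n := (((le_max_right _ _).trans (le_max_left _ _)).trans (le_max_right _ _)).trans hV
  have g5 : 2 * κ ^ 2 + 2 * κ + 1 ≤ n := ((le_max_right _ _).trans (le_max_right _ _)).trans hV
  have g1' : C1 / (ε / 8) ≤ n := hn1.trans (by exact_mod_cast g1)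
  have g2' : K / (ε / 8) ≤ n := hn2.trans (by exact_mod_cast g2)
  have g3' : (T : ℝ) / (ε / 8) ≤ n := hn3.trans (by exact_mod_cast g3)
  have g4' : 4 * c ≤ n := hn4.trans (by exact_mod_cast g4)
  have hB : Big κ c n := big_of g5 g4'
  have hn0 : 0 < n := hB.n1
  have hn' : (0 : ℝ) < n := by exact_mod_cast hn0
  rw [div_le_iff₀ (by positivity)] at g1' g2' g3'
  haveI : Nonempty V := Fintype.card_pos_iff.1 hn0
  set s : ℝ := c / n.descFactorial κ with hs
  set sn : ℝ := c * n / n.descFactorial (κ + 1) with hsn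
  set s' : ℝ := (sn - s) / (1 - s) with hs'
  have hκn : κ ≤ n := by have := hB.n2; omega
  have hNpos : (0 : ℝ) < n.descFactorial κ := by exact_mod_cast Nat.descFactorial_pos.2 hκn
  have hs0 : 0 ≤ s := by rw [hs]; positivity
  have hnN : (n : ℝ) ≤ 2 * n.descFactorial κ := by
    refine le_trans ?_ hB.N2
    calc (n : ℝ) = (n : ℝ) ^ 1 := (pow_one _).symm
      _ ≤ (n : ℝ) ^ κ := pow_le_pow_right₀ (by exact_mod_cast hB.n1) (by omega)
  have hsh : s ≤ 1 / 2 := by
    rw [hs, div_le_iff₀ hNpos]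
    linarith
  have hunion : 1 - (1 - s) * (1 - s') = sn := by
    have : (1 : ℝ) - s ≠ 0 := by linarith
    rw [hs']
    field_simp
    ring
  obtain ⟨τ, hτ⟩ := tup_equiv (F := F) κ V
  -- lower bound for the left EA
  have hleft : ∀ θ : ℕ, avg (fun p : Fin θ → V => bE s (fun G : Finset (Fin (κ + 1) ↪ V) =>
      bE s (fun Y : Finset (Tch κ V) =>
        (Module.finrank F ((rs lam G ⊔ pins p).map (ext0 F V) ⊔
          Submodule.span F (trow lam '' (Y : Set (Tch κ V))) :
          Submodule F (Option V → F)) : ℝ)))) - θ / ((n : ℝ) + 1) ≤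
      EA lam (Option V) s θ := by
    intro θ
    have h1 := pin_couple (V := V) θ (fun p => bE s (fun G : Finset (Fin (κ + 1) ↪ Option V) =>
      (Module.finrank F (rs lam G ⊔ pins p : Submodule F (Option V → F)) : ℝ))) (by
        intro p p'
        have h2 : ∀ G : Finset (Fin (κ + 1) ↪ Option V),
          (Module.finrank F (rs lam G ⊔ pins p : Submodule F (Option V → F)) : ℝ) ≤
          (Module.finrank F (rs lam G ⊔ pins p' : Submodule F (Option V → F)) : ℝ) +
          ((univ.filter (fun i => p i ≠ p' i)).card : ℝ) := fun G => by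
            convert lip (rs lam G) p p'
        have h3 := bE_mono hs0 (by linarith) h2
        rw [bE_add, bE_const] at h3
        convert h3)
    refine le_trans (le_of_eq ?_) h1
    congr 1
    congr 1
    funext p
    rw [bE_equiv τ.symm, bE_sum_type]
    congr 1
    funext G
    congr 1
    funext Y
    rw [rs_map lam τ (hτ lam) G Y p]
  -- the right EA
  have hright : ∀ θ : ℕ, EA lam V sn θ = avg (fun p : Fin θ → V =>
      bE s (fun G : Finset (Fin (κ + 1) ↪ V) => bE s' (fun X : Finset (Fin (κ + 1) ↪ V) =>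
        (Module.finrank F ((rs lam G ⊔ pins p) ⊔ rs lam X : Submodule F (V → F)) : ℝ)))) := by
    intro θ
    unfold EA
    congr 1
    funext p
    rw [← hunion, bE_union]
    congr 1
    funext G
    congr 1
    funext X
    rw [rs_union, sup_assoc, sup_assoc, sup_comm (rs lam X)]
  -- difference for fixed θ
  set c' : ℝ := c - (d ^ 2 + d) / (L + 1) - C1 / n with hc'
  have hdiff : ∀ θ : ℕ, c' - θ / ((n : ℝ) + 1) - L * ∑ y ∈ range (L + 1), (2 * d) ^ y *
      bE s (fun G : Finset (Fin (κ + 1) ↪ V) => avg (fun p : Fin θ → V =>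
        pr (fun I : Fin y × Fin κ → V => Bad (rs lam G ⊔ pins p) I))) ≤
      EA lam (Option V) s θ - EA lam V sn θ := by
    intro θ
    have h1 : ∀ (p : Fin θ → V), bE s (fun G : Finset (Fin (κ + 1) ↪ V) =>
        bE s' (fun X : Finset (Fin (κ + 1) ↪ V) =>
        (Module.finrank F ((rs lam G ⊔ pins p) ⊔ rs lam X : Submodule F (V → F)) : ℝ)) +
        (c' - L * ∑ y ∈ range (L + 1), (2 * d) ^ y *
          pr (fun I : Fin y × Fin κ → V => Bad (rs lam G ⊔ pins p) I))) ≤
        bE s (fun G : Finset (Fin (κ + 1) ↪ V) =>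
      bE s (fun Y : Finset (Tch κ V) =>
        (Module.finrank F ((rs lam G ⊔ pins p).map (ext0 F V) ⊔
          Submodule.span F (trow lam '' (Y : Set (Tch κ V))) :
          Submodule F (Option V → F)) : ℝ))) := by
      intro p
      apply bE_mono hs0 (by linarith)
      intro G
      have := point hκ lam hlam c hc hd L (V := V) n hn hB s s' hs hs' (rs lam G ⊔ pins p)
      refine le_trans (le_of_eq ?_) this
      rw [hc', hC1, hdd]
    have h2 := avg_mono h1
    have h3 := hleft θ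
    have h4 : avg (fun p : Fin θ → V => bE s (fun G : Finset (Fin (κ + 1) ↪ V) =>
        bE s' (fun X : Finset (Fin (κ + 1) ↪ V) =>
        (Module.finrank F ((rs lam G ⊔ pins p) ⊔ rs lam X : Submodule F (V → F)) : ℝ)) +
        (c' - L * ∑ y ∈ range (L + 1), (2 * d) ^ y *
          pr (fun I : Fin y × Fin κ → V => Bad (rs lam G ⊔ pins p) I)))) =
        EA lam V sn θ + (c' - L * ∑ y ∈ range (L + 1), (2 * d) ^ y *
      bE s (fun G : Finset (Fin (κ + 1) ↪ V) => avg (fun p : Fin θ → V =>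
        pr (fun I : Fin y × Fin κ → V => Bad (rs lam G ⊔ pins p) I)))) := by
      rw [hright θ]
      simp only [bE_add, bE_sub, bE_const, bE_mul, bE_sum]
      have e1 : ∀ (f g : (Fin θ → V) → ℝ), avg (fun p => f p + g p) = avg f + avg g := by
        intro f g
        unfold avg
        rw [Finset.sum_add_distrib, add_div]
      rw [e1, avg_sub, avg_const, avg_mul, avg_sum]
      congr 3
      apply Finset.sum_congr rfl
      intro y _
      rw [avg_mul, avg_bE]
    rw [h4] at h2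
    linarith
  -- sum over θ
  have hsum : ∑ θ ∈ range T, (c' - θ / ((n : ℝ) + 1) - L * ∑ y ∈ range (L + 1), (2 * d) ^ y *
      bE s (fun G : Finset (Fin (κ + 1) ↪ V) => avg (fun p : Fin θ → V =>
        pr (fun I : Fin y × Fin κ → V => Bad (rs lam G ⊔ pins p) I)))) ≤
      ∑ θ ∈ range T, (EA lam (Option V) s θ - EA lam V sn θ) :=
    Finset.sum_le_sum fun θ _ => hdiff θ
  refine le_trans ?_ hsum
  have hpin : ∀ y : ℕ, ∑ θ ∈ range T,
      bE s (fun G : Finset (Fin (κ + 1) ↪ V) => avg (fun p : Fin θ → V =>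
        pr (fun I : Fin y × Fin κ → V => Bad (rs lam G ⊔ pins p) I))) ≤
      ((y : ℝ) * κ) ^ 2 + T * (((y : ℝ) * κ) ^ 2 / n) := by
    intro y
    rw [← bE_sum]
    have h1 : ∀ G : Finset (Fin (κ + 1) ↪ V), ∑ θ ∈ range T, avg (fun p : Fin θ → V =>
        pr (fun I : Fin y × Fin κ → V => Bad (rs lam G ⊔ pins p) I)) ≤
        ((y : ℝ) * κ) ^ 2 + T * (((y : ℝ) * κ) ^ 2 / n) := by
      intro G
      have := pin_lemma (F := F) (V := V) (J := Fin y × Fin κ) (rs lam G) T
      simp only [Fintype.card_prod, Fintype.card_fin] at this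
      push_cast at this
      exact this
    refine (bE_mono hs0 (by linarith) h1).trans (le_of_eq ?_)
    rw [bE_const]
  have hLsum : ∑ θ ∈ range T, (L : ℝ) * ∑ y ∈ range (L + 1), (2 * d) ^ y *
      bE s (fun G : Finset (Fin (κ + 1) ↪ V) => avg (fun p : Fin θ → V =>
        pr (fun I : Fin y × Fin κ → V => Bad (rs lam G ⊔ pins p) I))) ≤ K + T * (K / n) := by
    rw [← Finset.mul_sum, Finset.sum_comm]
    have h1 : ∑ y ∈ range (L + 1), ∑ θ ∈ range T, (2 * d) ^ y *
      bE s (fun G : Finset (Fin (κ + 1) ↪ V) => avg (fun p : Fin θ → V =>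
        pr (fun I : Fin y × Fin κ → V => Bad (rs lam G ⊔ pins p) I))) ≤
        ∑ y ∈ range (L + 1), (2 * d) ^ y * (((y : ℝ) * κ) ^ 2 + T * (((y : ℝ) * κ) ^ 2 / n)) := by
      apply Finset.sum_le_sum
      intro y _
      rw [← Finset.mul_sum]
      exact mul_le_mul_of_nonneg_left (hpin y) (by positivity)
    refine (mul_le_mul_of_nonneg_left h1 (Nat.cast_nonneg L)).trans (le_of_eq ?_)
    have h2 : ∑ y ∈ range (L + 1), (2 * d) ^ y * (((y : ℝ) * κ) ^ 2 + T * (((y : ℝ) * κ) ^ 2 / n)) =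
        (∑ y ∈ range (L + 1), (2 * d) ^ y * ((y : ℝ) * κ) ^ 2) * (1 + (T : ℝ) / n) := by
      rw [Finset.sum_mul]
      apply Finset.sum_congr rfl
      intro y _
      field_simp
    rw [h2, ← mul_assoc, ← hK]
    ring
  have hθ : ∑ θ ∈ range T, (θ : ℝ) / ((n : ℝ) + 1) ≤ T * (T / n) := by
    have h1 : ∀ θ ∈ range T, (θ : ℝ) / ((n : ℝ) + 1) ≤ T / n := by
      intro θ hθ
      rw [Finset.mem_range] at hθ
      have h2 : (θ : ℝ) ≤ T := by exact_mod_cast hθ.le
      exact div_le_div₀ (by positivity) h2 hn' (by linarith)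
    refine (Finset.sum_le_sum h1).trans (le_of_eq ?_)
    simp
  have e1 : ∑ θ ∈ range T, (c' - θ / ((n : ℝ) + 1) - L * ∑ y ∈ range (L + 1), (2 * d) ^ y *
      bE s (fun G : Finset (Fin (κ + 1) ↪ V) => avg (fun p : Fin θ → V =>
        pr (fun I : Fin y × Fin κ → V => Bad (rs lam G ⊔ pins p) I)))) =
      T * c' - ∑ θ ∈ range T, (θ : ℝ) / ((n : ℝ) + 1) - ∑ θ ∈ range T, (L : ℝ) *
      ∑ y ∈ range (L + 1), (2 * d) ^ y *
      bE s (fun G : Finset (Fin (κ + 1) ↪ V) => avg (fun p : Fin θ → V =>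
        pr (fun I : Fin y × Fin κ → V => Bad (rs lam G ⊔ pins p) I))) := by
    rw [Finset.sum_sub_distrib, Finset.sum_sub_distrib]
    simp
  rw [e1]
  have f1 : C1 / n ≤ ε / 8 := by rw [div_le_iff₀ hn']; linarith
  have f2 : K / n ≤ ε / 8 := by rw [div_le_iff₀ hn']; linarith
  have f3 : (T : ℝ) / n ≤ ε / 8 := by rw [div_le_iff₀ hn']; linarith
  have hTp : (0 : ℝ) < T := by linarith
  have f4 := mul_le_mul_of_nonneg_left f1 hTp.le
  have f5 := mul_le_mul_of_nonneg_left f2 hTp.le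
  have f6 := mul_le_mul_of_nonneg_left f3 hTp.le
  have f7 := mul_le_mul_of_nonneg_left hL hTp.le
  have e2 : (T : ℝ) * c' = T * c - T * ((d ^ 2 + d) / (L + 1)) - T * (C1 / n) := by
    rw [hc']; ring
  rw [e2]
  nlinarith

end Pool.Agent.Lib_helper39.UE
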