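import Pool.Agent.Lib_helper39.UE.BERN
import Pool.Agent.Lib_helper39.UE.DET

/-! Block INCX of MP_82d614_pr. -/

set_option autoImplicit false

namespace Pool.Agent.Lib_helper39.UE

open Finset

open Classical in
/-- number of injective tuples with all entries in a set -/
theorem card_tuples_in {k : ℕ} {V : Type} [Fintype V] (P : V → Prop) :
    (univ.filter (fun e : Fin k ↪ V => ∀ j, P (e j))).card =
      ((univ.filter P).card).descFactorial k := by
  have h1 : Fintype.card (Fin k ↪ {v // P v}) =
      (Fintype.card {v // P v}).descFactorial (Fintype.card (Fin k)) :=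
    Fintype.card_embedding_eq
  rw [Fintype.card_fin, Fintype.card_subtype] at h1
  rw [← h1, ← Fintype.card_subtype]
  apply Fintype.card_congr
  exact
    { toFun := fun e => ⟨fun j => ⟨e.1 j, e.2 j⟩, fun i j h => e.1.injective (Subtype.ext_iff.1 h)⟩
      invFun := fun e => ⟨⟨fun j => (e j).1, fun i j h => e.injective (Subtype.ext h)⟩,
        fun j => (e j).2⟩
      left_inv := fun e => rfl
      right_inv := fun e => rfl }

open Classical in
theorem card_tuples_not_in {k : ℕ} {V : Type} [Fintype V] (P : V → Prop) :
    ((univ.filter (fun e : Fin k ↪ V => ¬ ∀ j, P (e j))).card : ℝ) =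
      ((Fintype.card V).descFactorial k : ℝ) - (((univ.filter P).card).descFactorial k : ℝ) := by
  have h1 := Finset.card_filter_add_card_filter_not (s := (univ : Finset (Fin k ↪ V)))
    (fun e : Fin k ↪ V => ∀ j, P (e j))
  rw [card_tuples_in, Finset.card_univ, Fintype.card_embedding_eq, Fintype.card_fin] at h1
  rw [← h1]
  push_cast
  ring

theorem incX {F : Type} [Field F] {k : ℕ} {V : Type} [Fintype V] [DecidableEq V]
    (lam : Fin k → F) (R : Submodule F (V → F)) (s : ℝ) (h0 : 0 ≤ s) (h1 : s ≤ 1) :
    bE s (fun X : Finset (Fin k ↪ V) =>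
        (Module.finrank F (R ⊔ rs lam X : Submodule F (V → F)) : ℝ)) ≤
      Module.finrank F R +
        s * (((Fintype.card V).descFactorial k : ℝ) - ((fc R).descFactorial k : ℝ)) := by
  classical
  have hle : bE s (fun X : Finset (Fin k ↪ V) =>
        (Module.finrank F (R ⊔ rs lam X : Submodule F (V → F)) : ℝ)) ≤
      bE s (fun X : Finset (Fin k ↪ V) => (Module.finrank F R : ℝ) +
        ((X.filter (fun e => ¬ ∀ j, Frozen R (e j))).card : ℝ)) := by
    apply bE_mono h0 h1
    intro X
    exact_mod_cast det_up lam R X
  refine hle.trans ?_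
  rw [bE_add, bE_const, bE_count, card_tuples_not_in]
  unfold fc
  apply le_of_eq
  congr 4
  
end Pool.Agent.Lib_helper39.UE
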