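import Pool.Agent.Lib_helper39.UE.INCX
import Pool.Agent.Lib_helper39.UE.CNT

/-! Block INCY of MP_82d614_pr. -/

set_option autoImplicit false

namespace Pool.Agent.Lib_helper39.UE

open Finset

open Classical in
theorem card_allFr {F : Type} [Field F] {κ : ℕ} {V : Type} [Fintype V] [DecidableEq V]
    (R : Submodule F (V → F)) :
    (univ.filter (fun t : Tch κ V => AllFr R t)).card = (κ + 1) * (fc R).descFactorial κ := by
  have h1 : (univ.filter (fun t : Tch κ V => AllFr R t)) =
      (univ : Finset (Fin (κ + 1))) ×ˢ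
        (univ.filter (fun e : Fin κ ↪ V => ∀ j, Frozen R (e j))) := by
    ext t
    simp only [Finset.mem_filter, Finset.mem_univ, true_and, Finset.mem_product]
    rfl
  rw [h1, Finset.card_product, card_tuples_in, Finset.card_univ, Fintype.card_fin]
  unfold fc
  rfl

theorem card_Tch (κ : ℕ) (V : Type) [Fintype V] [DecidableEq V] :
    Fintype.card (Tch κ V) = (κ + 1) * (Fintype.card V).descFactorial κ := by
  rw [Fintype.card_prod, Fintype.card_fin, Fintype.card_embedding_eq, Fintype.card_fin]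

open Classical in
theorem card_not_allFr {F : Type} [Field F] {κ : ℕ} {V : Type} [Fintype V] [DecidableEq V]
    (R : Submodule F (V → F)) :
    ((univ.filter (fun t : Tch κ V => ¬ AllFr R t)).card : ℝ) =
      ((κ : ℝ) + 1) * ((Fintype.card V).descFactorial κ : ℝ) -
        ((κ : ℝ) + 1) * ((fc R).descFactorial κ : ℝ) := by
  have h1 := Finset.card_filter_add_card_filter_not (s := (univ : Finset (Tch κ V)))
    (fun t : Tch κ V => AllFr R t)
  rw [card_allFr, Finset.card_univ, card_Tch] at h1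
  have h2 : (((κ + 1) * (fc R).descFactorial κ +
      (univ.filter (fun t : Tch κ V => ¬ AllFr R t)).card : ℕ) : ℝ) =
      (((κ + 1) * (Fintype.card V).descFactorial κ : ℕ) : ℝ) := by
    exact_mod_cast h1
  push_cast at h2
  linarith

open Classical in
/-- pointwise lower bound -/
theorem incY_pointwise {F : Type} [Field F] {κ : ℕ} {V : Type} [Fintype V] [DecidableEq V]
    (lam : Fin (κ + 1) → F) (hlam : ∀ j, lam j ≠ 0) (R : Submodule F (V → F)) (L : ℕ)
    (Y : Finset (Tch κ V)) :
    (Module.finrank F R : ℝ) + ((Y.filter (fun t => ¬ AllFr R t)).card : ℝ) +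
        (if ∃ t ∈ Y, AllFr R t then (1 : ℝ) else 0) - (1 / ((L : ℝ) + 1)) * (Y.card : ℝ) ^ 2 -
        L * ∑ y ∈ range (L + 1), (if Y.card = y ∧ ¬ GoodY R Y then (1 : ℝ) else 0) ≤
      (Module.finrank F (R.map (ext0 F V) ⊔ Submodule.span F (trow lam '' (Y : Set (Tch κ V))) :
          Submodule F (Option V → F)) : ℝ) := by
  have hsq : 0 ≤ (1 / ((L : ℝ) + 1)) * (Y.card : ℝ) ^ 2 := by positivity
  have hsum : 0 ≤ (L : ℝ) * ∑ y ∈ range (L + 1),
      (if Y.card = y ∧ ¬ GoodY R Y then (1 : ℝ) else 0) := by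
    apply mul_nonneg (Nat.cast_nonneg L)
    apply Finset.sum_nonneg
    intro y _
    split_ifs <;> norm_num
  by_cases hY : GoodY R Y
  · have h := det_low lam hlam R Y hY
    have h2 : (Module.finrank F R : ℝ) + ((Y.filter (fun t => ¬ AllFr R t)).card : ℝ) +
        (if ∃ t ∈ Y, AllFr R t then (1 : ℝ) else 0) ≤
        (Module.finrank F (R.map (ext0 F V) ⊔ Submodule.span F (trow lam '' (Y : Set (Tch κ V))) :
          Submodule F (Option V → F)) : ℝ) := by
      have h3 : ((Module.finrank F R + (Y.filter (fun t => ¬ AllFr R t)).card +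
        (if ∃ t ∈ Y, AllFr R t then 1 else 0) : ℕ) : ℝ) ≤ _ := Nat.cast_le.2 h
      push_cast at h3
      exact h3
    linarith
  · -- total count
    have hcount : ((Y.filter (fun t => ¬ AllFr R t)).card : ℝ) +
        (if ∃ t ∈ Y, AllFr R t then (1 : ℝ) else 0) ≤ (Y.card : ℝ) := by
      split_ifs with hex
      · obtain ⟨t0, ht0, hfr⟩ := hex
        have hlt : (Y.filter (fun t => ¬ AllFr R t)).card < Y.card := by
          apply Finset.card_lt_card
          rw [Finset.filter_ssubset]
          exact ⟨t0, ht0, by simpa using hfr⟩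
        have h4 : (Y.filter (fun t => ¬ AllFr R t)).card + 1 ≤ Y.card := hlt
        exact_mod_cast h4
      · rw [add_zero]
        exact_mod_cast Finset.card_filter_le _ _
    have hrank : (Module.finrank F R : ℝ) ≤
        (Module.finrank F (R.map (ext0 F V) ⊔ Submodule.span F (trow lam '' (Y : Set (Tch κ V))) :
          Submodule F (Option V → F)) : ℝ) := by
      have h5 : Module.finrank F (R.map (ext0 F V)) = Module.finrank F R :=
        (LinearEquiv.finrank_eq (Submodule.equivMapOfInjective _ (ext0_injective F V) R)).symm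
      rw [← h5]
      exact_mod_cast Submodule.finrank_mono (le_sup_left : R.map (ext0 F V) ≤ _)
    have hbound : (Y.card : ℝ) ≤ (1 / ((L : ℝ) + 1)) * (Y.card : ℝ) ^ 2 +
        L * ∑ y ∈ range (L + 1), (if Y.card = y ∧ ¬ GoodY R Y then (1 : ℝ) else 0) := by
      by_cases hL : Y.card ≤ L
      · have h6 : ∑ y ∈ range (L + 1), (if Y.card = y ∧ ¬ GoodY R Y then (1 : ℝ) else 0) = 1 := by
          rw [Finset.sum_eq_single Y.card]
          · rw [if_pos ⟨rfl, hY⟩]
          · intro y _ hy
            rw [if_neg]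
            rintro ⟨h, _⟩
            exact hy h.symm
          · intro h
            exact absurd (Finset.mem_range.2 (Nat.lt_succ_of_le hL)) h
        rw [h6, mul_one]
        have h7 : (Y.card : ℝ) ≤ L := by exact_mod_cast hL
        linarith
      · push Not at hL
        have h7 : (L : ℝ) + 1 ≤ Y.card := by exact_mod_cast hL
        have h8 : (0 : ℝ) < (L : ℝ) + 1 := by positivity
        have h9 : (Y.card : ℝ) ≤ (1 / ((L : ℝ) + 1)) * (Y.card : ℝ) ^ 2 := by
          rw [one_div, inv_mul_eq_div, le_div_iff₀ h8, sq]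
          exact mul_le_mul_of_nonneg_left h7 (Nat.cast_nonneg _)
        linarith
    linarith

open Classical in
/-- probability of a bad set of given size -/
theorem incY_bad {F : Type} [Field F] {κ : ℕ} {V : Type} [Fintype V] [DecidableEq V]
    (R : Submodule F (V → F)) (c d n N : ℝ) (hc : 0 < c) (hd : d = ((κ : ℝ) + 1) * c)
    (hn : n = Fintype.card V) (hN0 : 0 < N) (hcN : c ≤ N) (y : ℕ) :
    bE (c / N) (fun Y : Finset (Tch κ V) => if Y.card = y ∧ ¬ GoodY R Y then (1 : ℝ) else 0) ≤
      (d * n ^ κ / N) ^ y * pr (fun I : Fin y × Fin κ → V => Bad R I) := by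
  have hs0 : 0 ≤ c / N := by positivity
  have hs1 : c / N ≤ 1 := by rw [div_le_one hN0]; exact hcN
  have h1 : bE (c / N) (fun Y : Finset (Tch κ V) => if Y.card = y ∧ ¬ GoodY R Y then (1 : ℝ) else 0)
      ≤ ∑ Y : Finset (Tch κ V), (c / N) ^ y * (if Y.card = y ∧ ¬ GoodY R Y then (1 : ℝ) else 0) := by
    unfold bE
    refine Finset.sum_le_sum fun Y _ => ?_
    show (c / N) ^ Y.card * (1 - c / N) ^ (Fintype.card (Tch κ V) - Y.card) *
      (if Y.card = y ∧ ¬ GoodY R Y then (1 : ℝ) else 0) ≤
        (c / N) ^ y * (if Y.card = y ∧ ¬ GoodY R Y then (1 : ℝ) else 0)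
    by_cases h : Y.card = y ∧ ¬ GoodY R Y
    · rw [if_pos h, h.1, mul_one, mul_one]
      have h2 : (1 - c / N) ^ (Fintype.card (Tch κ V) - y) ≤ 1 :=
        pow_le_one₀ (by linarith) (by linarith)
      calc (c / N) ^ y * (1 - c / N) ^ (Fintype.card (Tch κ V) - y) ≤ (c / N) ^ y * 1 :=
            mul_le_mul_of_nonneg_left h2 (pow_nonneg hs0 _)
        _ = (c / N) ^ y := mul_one _
    · rw [if_neg h, mul_zero, mul_zero]
  refine h1.trans ?_
  rw [← Finset.mul_sum, Finset.sum_boole]
  have h3 := card_badY (κ := κ) R y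
  have h4 : (d * n ^ κ / N) ^ y * pr (fun I : Fin y × Fin κ → V => Bad R I) =
      (c / N) ^ y * ((((κ : ℝ) + 1) * (Fintype.card V : ℝ) ^ κ) ^ y *
        pr (fun I : Fin y × Fin κ → V => Bad R I)) := by
    rw [← mul_assoc, ← mul_pow, hd, hn]
    congr 2
    ring
  rw [h4]
  exact mul_le_mul_of_nonneg_left h3 (pow_nonneg hs0 _)

theorem bE_sub' {E : Type} [Fintype E] (s : ℝ) (f g : Finset E → ℝ) :
    bE s (fun G => f G - g G) = bE s f - bE s g := by
  have h : (fun G => f G - g G) = fun G => f G + (-1) * g G := by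
    funext G
    ring
  rw [h, bE_add, bE_mul]
  ring

theorem bE_finset_sum {E ι : Type} [Fintype E] (s : ℝ) (A : Finset ι) (f : ι → Finset E → ℝ) :
    bE s (fun G => ∑ i ∈ A, f i G) = ∑ i ∈ A, bE s (f i) := by
  unfold bE
  rw [Finset.sum_comm]
  refine Finset.sum_congr rfl fun G _ => ?_
  rw [Finset.mul_sum]

theorem incY {F : Type} [Field F] {κ : ℕ} {V : Type} [Fintype V] [DecidableEq V]
    (lam : Fin (κ + 1) → F) (hlam : ∀ j, lam j ≠ 0) (R : Submodule F (V → F))
    (c d β n N : ℝ) (hc : 0 < c) (hd : d = ((κ : ℝ) + 1) * c)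
    (hκ : κ ≤ Fintype.card V) (hn : n = Fintype.card V)
    (hN : N = (Fintype.card V).descFactorial κ) (hcN : c ≤ N)
    (hβ : β = (fc R).descFactorial κ / N) (L : ℕ) :
    (Module.finrank F R : ℝ) + d * (1 - β) + (1 - Real.exp (-(d * β)))
        - (d ^ 2 + d) / (L + 1)
        - L * ∑ y ∈ range (L + 1), (d * n ^ κ / N) ^ y *
            pr (fun I : Fin y × Fin κ → V => Bad R I) ≤
      bE (c / N) (fun Y : Finset (Tch κ V) =>
        (Module.finrank F (R.map (ext0 F V) ⊔ Submodule.span F (trow lam '' (Y : Set (Tch κ V))) :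
          Submodule F (Option V → F)) : ℝ)) := by
  classical
  have hN0 : 0 < N := by
    rw [hN]
    exact_mod_cast Nat.descFactorial_pos.2 hκ
  have hs0 : 0 ≤ c / N := by positivity
  have hs1 : c / N ≤ 1 := by rw [div_le_one hN0]; exact hcN
  refine le_trans ?_ (bE_mono hs0 hs1 (fun Y => incY_pointwise lam hlam R L Y))
  rw [bE_sub', bE_sub', bE_add, bE_add, bE_const, bE_mul, bE_mul, bE_count, bE_exists,
    bE_card_sq, bE_finset_sum, card_not_allFr, card_allFr, card_Tch]
  have hN1 : N ≠ 0 := hN0.ne'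
  -- the count term
  have e1 : c / N * (((κ : ℝ) + 1) * ((Fintype.card V).descFactorial κ : ℝ) -
      ((κ : ℝ) + 1) * ((fc R).descFactorial κ : ℝ)) = d * (1 - β) := by
    rw [hβ, hd, ← hN]
    field_simp
  -- the existence term
  have e2 : (1 - c / N) ^ ((κ + 1) * (fc R).descFactorial κ) ≤ Real.exp (-(d * β)) := by
    have h1 : 1 - c / N ≤ Real.exp (-(c / N)) := by
      have := Real.add_one_le_exp (-(c / N))
      linarith
    have h2 : (1 - c / N) ^ ((κ + 1) * (fc R).descFactorial κ) ≤
        Real.exp (-(c / N)) ^ ((κ + 1) * (fc R).descFactorial κ) :=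
      pow_le_pow_left₀ (by linarith) h1 _
    refine h2.trans (le_of_eq ?_)
    rw [← Real.exp_nat_mul]
    congr 1
    rw [hβ, hd]
    push_cast
    field_simp
  -- the square term
  have e3 : (1 / ((L : ℝ) + 1)) * ((c / N * (((κ + 1) * (Fintype.card V).descFactorial κ : ℕ) : ℝ)) ^ 2 +
      c / N * (1 - c / N) * (((κ + 1) * (Fintype.card V).descFactorial κ : ℕ) : ℝ)) ≤
      (d ^ 2 + d) / (L + 1) := by
    have h1 : c / N * (((κ + 1) * (Fintype.card V).descFactorial κ : ℕ) : ℝ) = d := by
      push_cast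
      rw [← hN, hd]
      field_simp
    have h2 : c / N * (1 - c / N) * (((κ + 1) * (Fintype.card V).descFactorial κ : ℕ) : ℝ) =
        d * (1 - c / N) := by
      rw [← h1]
      ring
    rw [h1, h2, one_div, inv_mul_eq_div]
    have hd0 : 0 ≤ d := by rw [hd]; positivity
    have h3 : d * (1 - c / N) ≤ d := by nlinarith
    have h4 : (0 : ℝ) < (L : ℝ) + 1 := by positivity
    apply div_le_div_of_nonneg_right _ h4.le
    linarith
  -- the bad term
  have e4 : (L : ℝ) * ∑ y ∈ range (L + 1), bE (c / N) (fun Y : Finset (Tch κ V) =>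
      if Y.card = y ∧ ¬ GoodY R Y then (1 : ℝ) else 0) ≤
      L * ∑ y ∈ range (L + 1), (d * n ^ κ / N) ^ y *
            pr (fun I : Fin y × Fin κ → V => Bad R I) := by
    apply mul_le_mul_of_nonneg_left _ (Nat.cast_nonneg L)
    exact Finset.sum_le_sum fun y _ => incY_bad R c d n N hc hd hn hN0 hcN y
  rw [e1]
  linarith

end Pool.Agent.Lib_helper39.UE
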