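import Pool.Agent.Lib_helper39.UE.Defs

set_option autoImplicit false

namespace Pool.Agent.Lib_helper39.UE

open Finset

theorem Dm_zero {F : Type} [Field F] {E W : Type} [Fintype E] [AddCommGroup W] [Module F W]
    (vec : E → W) : Dm (F := F) vec 0 = 0 := by
  unfold Dm avg
  have h : ∀ w : Fin 0 → E,
      (Module.finrank F (Submodule.span F (Set.range fun i => vec (w i))) : ℝ) = 0 := by
    intro w
    rw [Set.range_eq_empty, Submodule.span_empty, finrank_bot, Nat.cast_zero]
  rw [Finset.sum_congr rfl (fun w _ => h w), Finset.sum_const_zero, zero_div]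

open Classical in
theorem finrank_sup_single {F : Type} [Field F] {W : Type} [AddCommGroup W] [Module F W]
    [FiniteDimensional F W] (S : Submodule F W) (x : W) :
    (Module.finrank F (S ⊔ Submodule.span F {x} : Submodule F W) : ℝ) =
      (Module.finrank F S : ℝ) + 1 - (if x ∈ S then (1 : ℝ) else 0) := by
  by_cases hx : x ∈ S
  · have : S ⊔ Submodule.span F {x} = S := by
      rw [sup_eq_left, Submodule.span_singleton_le_iff_mem]; exact hx
    rw [this]; simp [hx]
  · have hx0 : x ≠ 0 := fun h => hx (h ▸ S.zero_mem)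
    have h := Submodule.finrank_sup_add_finrank_inf_eq S (Submodule.span F {x})
    have hd : S ⊓ Submodule.span F {x} = ⊥ := by
      rw [← disjoint_iff, Submodule.disjoint_span_singleton' hx0]; exact hx
    rw [hd, finrank_bot, finrank_span_singleton hx0] at h
    simp only [hx, if_false]
    have : (Module.finrank F (S ⊔ Submodule.span F {x} : Submodule F W) : ℝ) =
      (Module.finrank F S : ℝ) + 1 := by exact_mod_cast h
    linarith

theorem span_snoc {F : Type} [Field F] {E W : Type} [AddCommGroup W] [Module F W]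
    (vec : E → W) {m : ℕ} (w : Fin m → E) (e : E) :
    Submodule.span F (Set.range fun i : Fin (m + 1) => vec (Fin.snoc (α := fun _ => E) w e i)) =
      Submodule.span F (Set.range fun i => vec (w i)) ⊔ Submodule.span F {vec e} := by
  rw [← Submodule.span_union]
  congr 1
  ext y
  simp only [Set.mem_range, Set.mem_union, Set.mem_singleton_iff]
  constructor
  · rintro ⟨i, rfl⟩
    refine Fin.lastCases ?_ (fun j => ?_) i
    · right; simp
    · left; exact ⟨j, by simp⟩
  · rintro (⟨j, rfl⟩ | rfl)
    · exact ⟨j.castSucc, by simp⟩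
    · exact ⟨Fin.last m, by simp⟩

theorem sum_snoc {E : Type} [Fintype E] (m : ℕ) (f : (Fin (m + 1) → E) → ℝ) :
    ∑ w, f w = ∑ we : (Fin m → E) × E, f (Fin.snoc (α := fun _ => E) we.1 we.2) := by
  rw [← Equiv.sum_comp (Fin.snocEquiv (fun _ : Fin (m + 1) => E))]
  rw [← Equiv.sum_comp (Equiv.prodComm E (Fin m → E))
    (fun we : (Fin m → E) × E => f (Fin.snoc (α := fun _ => E) we.1 we.2))]
  rfl

theorem Dm_succ {F : Type} [Field F] {E W : Type} [Fintype E] [Nonempty E] [AddCommGroup W]
    [Module F W] [FiniteDimensional F W] (vec : E → W) (m : ℕ) :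
    Dm (F := F) vec (m + 1) = Dm (F := F) vec m + 1 - pm F vec m := by
  classical
  have hE : (0 : ℝ) < Fintype.card E := by exact_mod_cast Fintype.card_pos
  have hE' : (Fintype.card E : ℝ) ≠ 0 := hE.ne'
  have hEm : (Fintype.card E : ℝ) ^ m ≠ 0 := pow_ne_zero _ hE'
  unfold Dm pm pr avg
  rw [sum_snoc]
  have hr : ∀ we : (Fin m → E) × E, (Module.finrank F (Submodule.span F
      (Set.range fun i : Fin (m + 1) => vec (Fin.snoc (α := fun _ => E) we.1 we.2 i))) : ℝ) =
      (Module.finrank F (Submodule.span F (Set.range fun i => vec (we.1 i))) : ℝ) + 1 -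
      (if vec we.2 ∈ Submodule.span F (Set.range fun i => vec (we.1 i)) then (1 : ℝ) else 0) := by
    intro we
    rw [span_snoc, finrank_sup_single]
  rw [Finset.sum_congr rfl (fun we _ => hr we)]
  rw [Finset.sum_sub_distrib, Finset.sum_add_distrib, Fintype.sum_prod_type]
  simp only [Finset.sum_const, Finset.card_univ, Fintype.card_prod, Fintype.card_fun,
    Fintype.card_fin, nsmul_eq_mul]
  push_cast
  have hs : (∑ x : Fin m → E, ∑ _x1 : E, (Module.finrank F (Submodule.span F
      (Set.range fun i => vec (x i))) : ℝ)) = (∑ x : Fin m → E, (Module.finrank F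
      (Submodule.span F (Set.range fun i => vec (x i))) : ℝ)) * Fintype.card E := by
    rw [Finset.sum_mul]
    refine Finset.sum_congr rfl fun x _ => ?_
    rw [Finset.sum_const, Finset.card_univ, nsmul_eq_mul, mul_comm]
  rw [hs, pow_succ]
  field_simp

theorem pm_nonneg {F : Type} [Field F] {E W : Type} [Fintype E] [AddCommGroup W]
    [Module F W] (vec : E → W) (m : ℕ) : 0 ≤ pm F vec m := by
  classical
  unfold pm pr avg
  refine div_nonneg (Finset.sum_nonneg fun x _ => ?_) (Nat.cast_nonneg _)
  split_ifs <;> norm_num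

theorem pm_mono {F : Type} [Field F] {E W : Type} [Fintype E] [Nonempty E] [AddCommGroup W]
    [Module F W] (vec : E → W) : Monotone (pm F vec) := by
  classical
  refine monotone_nat_of_le_succ fun m => ?_
  have hE : (0 : ℝ) < Fintype.card E := by exact_mod_cast Fintype.card_pos
  have hE' : (Fintype.card E : ℝ) ≠ 0 := hE.ne'
  unfold pm pr avg
  rw [Fintype.sum_prod_type (f := fun we : (Fin (m + 1) → E) × E => _), sum_snoc,
    Fintype.sum_prod_type (f := fun we : (Fin m → E) × E => _),
    Fintype.sum_prod_type (f := fun we : (Fin m → E) × E => _)]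
  have key : (Fintype.card E : ℝ) * ∑ w : Fin m → E, ∑ e : E,
      (if vec e ∈ Submodule.span F (Set.range fun i => vec (w i)) then (1 : ℝ) else 0) ≤
      ∑ w : Fin m → E, ∑ e' : E, ∑ e : E, (if vec e ∈ Submodule.span F
        (Set.range fun i : Fin (m + 1) => vec (Fin.snoc (α := fun _ => E) w e' i))
          then (1 : ℝ) else 0) := by
    rw [Finset.mul_sum]
    refine Finset.sum_le_sum fun w _ => ?_
    rw [← nsmul_eq_mul, ← Finset.card_univ, ← Finset.sum_const]
    refine Finset.sum_le_sum fun e' _ => Finset.sum_le_sum fun e _ => ?_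
    rw [span_snoc]
    by_cases h : vec e ∈ Submodule.span F (Set.range fun i => vec (w i))
    · rw [if_pos h, if_pos (Submodule.mem_sup_left h)]
    · rw [if_neg h]; split_ifs <;> norm_num
  have hc1 : (Fintype.card ((Fin m → E) × E) : ℝ) = (Fintype.card E : ℝ) ^ m * Fintype.card E := by
    simp [Fintype.card_prod, Fintype.card_fun]
  have hc2 : (Fintype.card ((Fin (m + 1) → E) × E) : ℝ) =
      (Fintype.card E : ℝ) * ((Fintype.card E : ℝ) ^ m * Fintype.card E) := by
    simp [Fintype.card_prod, Fintype.card_fun, pow_succ]; ring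
  rw [hc1, hc2]
  have hp : (0 : ℝ) < (Fintype.card E : ℝ) ^ m * Fintype.card E := by positivity
  rw [div_le_div_iff₀ hp (by positivity)]
  calc _ = ((Fintype.card E : ℝ) ^ m * Fintype.card E) * ((Fintype.card E : ℝ) *
        ∑ w : Fin m → E, ∑ e : E,
      (if vec e ∈ Submodule.span F (Set.range fun i => vec (w i)) then (1 : ℝ) else 0)) := by
        ring
    _ ≤ ((Fintype.card E : ℝ) ^ m * Fintype.card E) * _ :=
        mul_le_mul_of_nonneg_left key hp.le
    _ = _ := by ring

end Pool.Agent.Lib_helper39.UE
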