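import Pool.Agent.Lib_helper39.UE.Defs

/-!
The random constraint satisfaction model of MP_82d614_pr.
-/

set_option autoImplicit false

namespace Pool.Agent.Lib_helper39.UE

open Finset

/-- an instance: `m` constraints, each a constraint function together with an ordered tuple
of `k` distinct variables out of `n` -/
abbrev Inst (Ω : Type) (k n m : ℕ) : Type :=
  Fin m → ((Fin k → Ω) → Bool) × (Fin k ↪ Fin n)

/-- the probability of the instance `I` in `H_n(π,k,m)`: the constraint functions are drawn
from `π`, the tuples uniformly, everything independently -/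
noncomputable def wt {Ω : Type} {k n m : ℕ} (π : ((Fin k → Ω) → Bool) → ℝ)
    (I : Inst Ω k n m) : ℝ :=
  ∏ i, (π (I i).1 / (Fintype.card (Fin k ↪ Fin n) : ℝ))

open Classical in
/-- probability of an event in `H_n(π,k,m)` -/
noncomputable def prH {Ω : Type} [Fintype Ω] [DecidableEq Ω] {k n m : ℕ}
    (π : ((Fin k → Ω) → Bool) → ℝ) (P : Inst Ω k n m → Prop) : ℝ :=
  ∑ I, if P I then wt π I else 0

/-- the solutions of an instance -/
def sols {Ω : Type} [Fintype Ω] [DecidableEq Ω] {k n m : ℕ} (I : Inst Ω k n m) :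
    Finset (Fin n → Ω) :=
  univ.filter (fun x => ∀ i, (I i).1 (fun j => x ((I i).2 j)) = true)

/-- `P[x_u = σ, x_v = τ]` for a uniform solution `x` and uniform variables `u`, `v`,
all independent -/
noncomputable def pairProb {Ω : Type} [Fintype Ω] [DecidableEq Ω] {k n m : ℕ}
    (I : Inst Ω k n m) (σ τ : Ω) : ℝ :=
  (∑ u, ∑ v, (((sols I).filter (fun x => x u = σ ∧ x v = τ)).card : ℝ) / ((sols I).card : ℝ)) /
    (n : ℝ) ^ 2

/-- the support of `π` -/
def supp {Ω : Type} {k : ℕ} (π : ((Fin k → Ω) → Bool) → ℝ) : Set ((Fin k → Ω) → Bool) :=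
  {ψ | π ψ ≠ 0}

end Pool.Agent.Lib_helper39.UE
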