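import Pool.Agent.Lib_helper39.UE.Defs

set_option autoImplicit false

namespace Pool.Agent.Lib_helper39.UE

open Finset

open Classical in
theorem pair_pr_eq {α : Type} [Fintype α] (p : α → Prop) :
    pr p = ((univ.filter p).card : ℝ) / (Fintype.card α : ℝ) := by
  unfold pr avg
  rw [Finset.sum_boole]

theorem pair_pr_nonneg {α : Type} [Fintype α] (p : α → Prop) : 0 ≤ pr p := by
  classical
  rw [pair_pr_eq]
  positivity

/-- two vectors of `R + F e` : the first is in `R` or the second in `R + F first` -/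
theorem pair_dich {F W : Type} [Field F] [AddCommGroup W] [Module F W] (R : Submodule F W)
    (e r₁ r₂ : W) (h1 : r₁ ∈ R ⊔ Submodule.span F {e}) (h2 : r₂ ∈ R ⊔ Submodule.span F {e}) :
    r₁ ∈ R ∨ r₂ ∈ R ⊔ Submodule.span F {r₁} := by
  obtain ⟨x₁, hx₁, y₁, hy₁, rfl⟩ := Submodule.mem_sup.1 h1
  obtain ⟨x₂, hx₂, y₂, hy₂, rfl⟩ := Submodule.mem_sup.1 h2
  obtain ⟨a₁, rfl⟩ := Submodule.mem_span_singleton.1 hy₁
  obtain ⟨a₂, rfl⟩ := Submodule.mem_span_singleton.1 hy₂
  by_cases ha : a₁ = 0
  · left
    rw [ha, zero_smul, add_zero]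
    exact hx₁
  · right
    have key : x₂ + a₂ • e = (x₂ - (a₂ * a₁⁻¹) • x₁) + (a₂ * a₁⁻¹) • (x₁ + a₁ • e) := by
      rw [smul_add, smul_smul, mul_assoc, inv_mul_cancel₀ ha, mul_one]
      abel
    rw [key]
    exact Submodule.add_mem_sup (R.sub_mem hx₂ (R.smul_mem _ hx₁))
      (Submodule.smul_mem _ _ (Submodule.mem_span_singleton_self _))

theorem pair_row_mem {F : Type} [Field F] {k : ℕ} {V : Type} [DecidableEq V] (lam : Fin k → F)
    (e : Fin k ↪ V) (S : Submodule F (V → F)) (h : ∀ j, (Pi.single (e j) 1 : V → F) ∈ S) :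
    row lam e ∈ S := by
  unfold row
  refine Submodule.sum_mem _ ?_
  intro j _
  have h1 : (Pi.single (e j) (lam j) : V → F) = lam j • (Pi.single (e j) 1 : V → F) := by
    rw [← Pi.single_smul, smul_eq_mul, mul_one]
  rw [h1]
  exact S.smul_mem _ (h j)

open Classical in
/-- many bad pairs: a large set of variables in the span with one more unit vector -/
theorem pair_heavy {F : Type} [Field F] {n : ℕ} (hn : 0 < n) (R : Submodule F (Fin n → F))
    (δ : ℝ)
    (h : δ * (n : ℝ) ^ 2 ≤ ((univ.filter (fun uv : Fin n × Fin n =>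
      ∃ a b : F, (a ≠ 0 ∨ b ≠ 0) ∧
        (a • (Pi.single uv.1 1 : Fin n → F) + b • (Pi.single uv.2 1 : Fin n → F)) ∈ R)).card : ℝ)) :
    ∃ u : Fin n, δ * n / 2 ≤ ((univ.filter (fun v : Fin n =>
      (Pi.single v 1 : Fin n → F) ∈ R ⊔ Submodule.span F {(Pi.single u 1 : Fin n → F)})).card
        : ℝ) := by
  by_contra hcon
  push Not at hcon
  set K : Fin n → Finset (Fin n) := fun u => univ.filter (fun v : Fin n =>
      (Pi.single v 1 : Fin n → F) ∈ R ⊔ Submodule.span F {(Pi.single u 1 : Fin n → F)}) with hK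
  set Bd := univ.filter (fun uv : Fin n × Fin n =>
      ∃ a b : F, (a ≠ 0 ∨ b ≠ 0) ∧
        (a • (Pi.single uv.1 1 : Fin n → F) + b • (Pi.single uv.2 1 : Fin n → F)) ∈ R) with hBd
  have hmem : ∀ (x y : Fin n → F) (a b : F), b ≠ 0 → a • x + b • y ∈ R →
      y ∈ R ⊔ Submodule.span F {x} := by
    intro x y a b hb hab
    have key : y = b⁻¹ • (a • x + b • y) + (-(b⁻¹ * a)) • x := by
      rw [smul_add, smul_smul, smul_smul, inv_mul_cancel₀ hb, one_smul, neg_smul]
      abel
    rw [key]
    exact Submodule.add_mem_sup (R.smul_mem _ hab)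
      (Submodule.smul_mem _ _ (Submodule.mem_span_singleton_self _))
  have hsub : Bd ⊆ (univ : Finset (Fin n)).biUnion (fun u => (K u).image (fun v => (u, v))) ∪
      (univ : Finset (Fin n)).biUnion (fun u => (K u).image (fun v => (v, u))) := by
    intro uv huv
    obtain ⟨a, b, hab, hR⟩ := (mem_filter.1 huv).2
    rcases hab with ha | hb
    · apply mem_union_right
      rw [mem_biUnion]
      refine ⟨uv.2, mem_univ _, ?_⟩
      rw [mem_image]
      refine ⟨uv.1, ?_, rfl⟩
      rw [hK]
      refine mem_filter.2 ⟨mem_univ _, ?_⟩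
      refine hmem _ _ b a ha ?_
      rw [add_comm]
      exact hR
    · apply mem_union_left
      rw [mem_biUnion]
      refine ⟨uv.1, mem_univ _, ?_⟩
      rw [mem_image]
      refine ⟨uv.2, ?_, rfl⟩
      rw [hK]
      exact mem_filter.2 ⟨mem_univ _, hmem _ _ a b hb hR⟩
  have hcard : (Bd.card : ℝ) ≤ ∑ u : Fin n, ((K u).card : ℝ) + ∑ u : Fin n, ((K u).card : ℝ) := by
    have h1 := Finset.card_le_card hsub
    have h2 := Finset.card_union_le
      ((univ : Finset (Fin n)).biUnion (fun u => (K u).image (fun v => (u, v))))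
      ((univ : Finset (Fin n)).biUnion (fun u => (K u).image (fun v => (v, u))))
    have h3 : ((univ : Finset (Fin n)).biUnion (fun u => (K u).image (fun v => (u, v)))).card ≤
        ∑ u : Fin n, (K u).card :=
      Finset.card_biUnion_le.trans (Finset.sum_le_sum fun u _ => Finset.card_image_le)
    have h4 : ((univ : Finset (Fin n)).biUnion (fun u => (K u).image (fun v => (v, u)))).card ≤
        ∑ u : Fin n, (K u).card :=
      Finset.card_biUnion_le.trans (Finset.sum_le_sum fun u _ => Finset.card_image_le)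
    have h5 : Bd.card ≤ ∑ u : Fin n, (K u).card + ∑ u : Fin n, (K u).card := by omega
    exact_mod_cast h5
  have hlt : ∑ u : Fin n, ((K u).card : ℝ) < n * (δ * n / 2) := by
    have h1 : ∑ u : Fin n, ((K u).card : ℝ) < ∑ _u : Fin n, (δ * n / 2) := by
      apply Finset.sum_lt_sum_of_nonempty
      · exact ⟨⟨0, hn⟩, mem_univ _⟩
      · intro u _
        exact hcon u
    simpa using h1
  have : (Bd.card : ℝ) < δ * (n : ℝ) ^ 2 := by nlinarith
  linarith

open Classical in
/-- number of tuples inside a set -/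
theorem pair_count {k n : ℕ} (K : Finset (Fin n)) :
    (K.card + 1 - k) ^ k ≤ (univ.filter (fun e : Fin k ↪ Fin n => ∀ j, e j ∈ K)).card := by
  have h1 : Fintype.card (Fin k ↪ K) = K.card.descFactorial k := by
    rw [Fintype.card_embedding_eq, Fintype.card_fin, Fintype.card_coe]
  have h2 : (univ : Finset (Fin k ↪ K)).card ≤
      (univ.filter (fun e : Fin k ↪ Fin n => ∀ j, e j ∈ K)).card := by
    apply Finset.card_le_card_of_injOn
      (fun e => e.trans (Function.Embedding.subtype (fun x => x ∈ K)))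
    · intro e _
      simp only [coe_filter, mem_univ, true_and, Set.mem_ofPred_eq]
      intro j
      exact (e j).2
    · intro e _ e' _ h
      ext j
      have := DFunLike.congr_fun h j
      exact congrArg Fin.val this
  rw [Finset.card_univ, h1] at h2
  exact (Nat.pow_sub_le_descFactorial _ _).trans h2

open Classical in
theorem pair_block {F : Type} [Field F] {k : ℕ} (lam : Fin k → F) (n m : ℕ) (δ : ℝ)
    (hδ : 0 < δ) (hn : 4 * (k : ℝ) + 4 ≤ δ * n) :
    pr (fun w : Fin m → (Fin k ↪ Fin n) =>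
        δ * (n : ℝ) ^ 2 ≤ ((univ.filter (fun uv : Fin n × Fin n =>
          BadPair lam w uv.1 uv.2)).card : ℝ)) * ((δ / 4) ^ k) ^ 2 ≤
      pm F (row lam : (Fin k ↪ Fin n) → (Fin n → F)) m +
        pm F (row lam : (Fin k ↪ Fin n) → (Fin n → F)) (m + 1) := by
  have hn0 : 0 < n := by
    rcases Nat.eq_zero_or_pos n with h | h
    · exfalso
      rw [h] at hn
      have : (0 : ℝ) ≤ k := Nat.cast_nonneg k
      norm_num at hn
      linarith
    · exact h
  have hkR : (0 : ℝ) ≤ k := Nat.cast_nonneg k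
  set H := univ.filter (fun w : Fin m → (Fin k ↪ Fin n) =>
        δ * (n : ℝ) ^ 2 ≤ ((univ.filter (fun uv : Fin n × Fin n =>
          BadPair lam w uv.1 uv.2)).card : ℝ)) with hH
  have hpm0 : ∀ m', 0 ≤ pm F (row lam : (Fin k ↪ Fin n) → (Fin n → F)) m' :=
    fun m' => pair_pr_nonneg _
  rw [pair_pr_eq, ← hH]
  by_cases hHe : H = ∅
  · rw [hHe]
    simp only [card_empty, Nat.cast_zero, zero_div, zero_mul]
    exact add_nonneg (hpm0 _) (hpm0 _)
  -- the large sets
  have hK : ∀ w ∈ H, ∃ K : Finset (Fin n), δ * n / 2 ≤ (K.card : ℝ) ∧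
      ∃ u : Fin n, ∀ v ∈ K, (Pi.single v 1 : Fin n → F) ∈
        Submodule.span F (Set.range fun i => row lam (w i)) ⊔
          Submodule.span F {(Pi.single u 1 : Fin n → F)} := by
    intro w hw
    obtain ⟨u, hu⟩ := pair_heavy hn0 (Submodule.span F (Set.range fun i => row lam (w i))) δ
      (mem_filter.1 hw).2
    exact ⟨_, hu, u, fun v hv => (mem_filter.1 hv).2⟩
  set EC : ℕ := Fintype.card (Fin k ↪ Fin n) with hEC
  have hECle : (EC : ℝ) ≤ (n : ℝ) ^ k := by
    have : EC ≤ n ^ k := by
      rw [hEC, Fintype.card_embedding_eq, Fintype.card_fin, Fintype.card_fin]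
      exact Nat.descFactorial_le_pow _ _
    exact_mod_cast this
  set L : ℝ := (δ * n / 4) ^ k with hL
  have hL0 : 0 ≤ L := by positivity
  have hcnt : ∀ w ∈ H, L ^ 2 ≤ ((univ.filter (fun ee : (Fin k ↪ Fin n) × (Fin k ↪ Fin n) =>
      row lam ee.1 ∈ Submodule.span F (Set.range fun i => row lam (w i)) ∨
      row lam ee.2 ∈ Submodule.span F (Set.range fun i => row lam (w i)) ⊔
        Submodule.span F {row lam ee.1})).card : ℝ) ∧ 0 < EC := by
    intro w hw
    obtain ⟨K, hKc, u, hu⟩ := hK w hw
    set T := univ.filter (fun e : Fin k ↪ Fin n => ∀ j, e j ∈ K) with hT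
    have hTc : L ≤ (T.card : ℝ) := by
      have h1 := pair_count (k := k) K
      rw [← hT] at h1
      have h2 : (δ * n / 4) ≤ ((K.card + 1 - k : ℕ) : ℝ) := by
        have h3 : (k : ℝ) ≤ K.card := by linarith
        have h4 : k ≤ K.card + 1 := by
          have : k ≤ K.card := by exact_mod_cast h3
          omega
        rw [Nat.cast_sub h4]
        push_cast
        linarith
      calc L ≤ ((K.card + 1 - k : ℕ) : ℝ) ^ k := by
            rw [hL]
            exact pow_le_pow_left₀ (by positivity) h2 k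
        _ ≤ (T.card : ℝ) := by exact_mod_cast h1
    constructor
    · have h1 : T ×ˢ T ⊆ univ.filter (fun ee : (Fin k ↪ Fin n) × (Fin k ↪ Fin n) =>
          row lam ee.1 ∈ Submodule.span F (Set.range fun i => row lam (w i)) ∨
          row lam ee.2 ∈ Submodule.span F (Set.range fun i => row lam (w i)) ⊔
            Submodule.span F {row lam ee.1}) := by
        intro ee hee
        rw [mem_product] at hee
        refine mem_filter.2 ⟨mem_univ _, ?_⟩
        apply pair_dich _ (Pi.single u 1 : Fin n → F)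
        · exact pair_row_mem lam ee.1 _ (fun j => hu _ ((mem_filter.1 hee.1).2 j))
        · exact pair_row_mem lam ee.2 _ (fun j => hu _ ((mem_filter.1 hee.2).2 j))
      have h2 := Finset.card_le_card h1
      rw [card_product] at h2
      calc L ^ 2 ≤ (T.card : ℝ) ^ 2 := pow_le_pow_left₀ hL0 hTc 2
        _ = ((T.card * T.card : ℕ) : ℝ) := by push_cast; ring
        _ ≤ _ := by exact_mod_cast h2
    · rw [hEC]
      have hpos : 0 < L := by positivity
      have : (0 : ℝ) < T.card := lt_of_lt_of_le hpos hTc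
      have h3 : 0 < T.card := by exact_mod_cast this
      exact lt_of_lt_of_le h3 (by rw [← Finset.card_univ]; exact Finset.card_le_card (subset_univ _))
  have hECpos : (0 : ℝ) < EC := by
    obtain ⟨w, hw⟩ := Finset.nonempty_of_ne_empty hHe
    exact_mod_cast (hcnt w hw).2
  -- the two counts
  set A := univ.filter (fun we : (Fin m → (Fin k ↪ Fin n)) × (Fin k ↪ Fin n) =>
    row lam we.2 ∈ Submodule.span F (Set.range fun i => row lam (we.1 i))) with hA
  set B := univ.filter (fun we : (Fin (m + 1) → (Fin k ↪ Fin n)) × (Fin k ↪ Fin n) =>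
    row lam we.2 ∈ Submodule.span F (Set.range fun i => row lam (we.1 i))) with hB
  have hmain : (H.card : ℝ) * L ^ 2 ≤ (A.card : ℝ) * EC + B.card := by
    have hS : (univ.filter (fun wee : (Fin m → (Fin k ↪ Fin n)) ×
          ((Fin k ↪ Fin n) × (Fin k ↪ Fin n)) =>
        row lam wee.2.1 ∈ Submodule.span F (Set.range fun i => row lam (wee.1 i)) ∨
        row lam wee.2.2 ∈ Submodule.span F (Set.range fun i => row lam (wee.1 i)) ⊔
          Submodule.span F {row lam wee.2.1})).card ≤ A.card * EC + B.card := by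
      have h1 : (univ.filter (fun wee : (Fin m → (Fin k ↪ Fin n)) ×
          ((Fin k ↪ Fin n) × (Fin k ↪ Fin n)) =>
          row lam wee.2.1 ∈ Submodule.span F (Set.range fun i => row lam (wee.1 i)))).card ≤
          A.card * EC := by
        rw [hEC, ← Finset.card_univ, ← card_product]
        apply Finset.card_le_card_of_injOn (fun wee => ((wee.1, wee.2.1), wee.2.2))
        · intro wee hwee
          simp only [coe_product, coe_univ, Set.mem_prod, Set.mem_univ, and_true]
          simp only [hA, coe_filter, mem_univ, true_and, Set.mem_ofPred_eq] at hwee ⊢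
          exact hwee
        · rintro ⟨w, e, e'⟩ _ ⟨w1, e1, e1'⟩ _ h
          simp only [Prod.mk.injEq] at h
          obtain ⟨⟨h1, h2⟩, h3⟩ := h
          rw [h1, h2, h3]
      have h2 : (univ.filter (fun wee : (Fin m → (Fin k ↪ Fin n)) ×
          ((Fin k ↪ Fin n) × (Fin k ↪ Fin n)) =>
          row lam wee.2.2 ∈ Submodule.span F (Set.range fun i => row lam (wee.1 i)) ⊔
            Submodule.span F {row lam wee.2.1})).card ≤ B.card := by
        apply Finset.card_le_card_of_injOn
          (fun wee => ((Fin.cons wee.2.1 wee.1 : Fin (m + 1) → (Fin k ↪ Fin n)), wee.2.2))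
        · intro wee hwee
          simp only [hB, coe_filter, mem_univ, true_and, Set.mem_ofPred_eq] at hwee ⊢
          have hr : (Set.range fun i => row lam
              ((Fin.cons wee.2.1 wee.1 : Fin (m + 1) → (Fin k ↪ Fin n)) i)) =
              insert (row lam wee.2.1) (Set.range fun i => row lam (wee.1 i)) := by
            ext x
            constructor
            · rintro ⟨i, rfl⟩
              refine Fin.cases ?_ ?_ i
              · simp
              · intro i
                right
                exact ⟨i, by simp⟩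
            · rintro (rfl | ⟨i, rfl⟩)
              · exact ⟨0, by simp⟩
              · exact ⟨i.succ, by simp⟩
          rw [hr, Submodule.span_insert, sup_comm]
          exact hwee
        · rintro ⟨w, e, e'⟩ _ ⟨w1, e1, e1'⟩ _ h
          simp only [Prod.mk.injEq, Fin.cons_inj] at h
          obtain ⟨⟨h1, h2⟩, h3⟩ := h
          rw [h1, h2, h3]
      calc _ ≤ _ := Finset.card_le_card (Finset.filter_or _ _ _).le
        _ ≤ _ := Finset.card_union_le _ _
        _ ≤ _ := Nat.add_le_add h1 h2
    have hT : (H.card : ℝ) * L ^ 2 ≤ ((univ.filter (fun wee : (Fin m → (Fin k ↪ Fin n)) ×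
          ((Fin k ↪ Fin n) × (Fin k ↪ Fin n)) =>
        row lam wee.2.1 ∈ Submodule.span F (Set.range fun i => row lam (wee.1 i)) ∨
        row lam wee.2.2 ∈ Submodule.span F (Set.range fun i => row lam (wee.1 i)) ⊔
          Submodule.span F {row lam wee.2.1})).card : ℝ) := by
      have h1 : (univ.filter (fun wee : (Fin m → (Fin k ↪ Fin n)) ×
          ((Fin k ↪ Fin n) × (Fin k ↪ Fin n)) =>
        row lam wee.2.1 ∈ Submodule.span F (Set.range fun i => row lam (wee.1 i)) ∨
        row lam wee.2.2 ∈ Submodule.span F (Set.range fun i => row lam (wee.1 i)) ⊔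
          Submodule.span F {row lam wee.2.1})).card =
          ∑ w : Fin m → (Fin k ↪ Fin n), (univ.filter
            (fun ee : (Fin k ↪ Fin n) × (Fin k ↪ Fin n) =>
      row lam ee.1 ∈ Submodule.span F (Set.range fun i => row lam (w i)) ∨
      row lam ee.2 ∈ Submodule.span F (Set.range fun i => row lam (w i)) ⊔
        Submodule.span F {row lam ee.1})).card := by
        rw [Finset.card_filter, Fintype.sum_prod_type]
        refine Finset.sum_congr rfl ?_
        intro w _
        rw [Finset.card_filter]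
      rw [h1]
      push_cast
      calc (H.card : ℝ) * L ^ 2 = ∑ w ∈ H, L ^ 2 := by rw [sum_const, nsmul_eq_mul]
        _ ≤ ∑ w ∈ H, _ := Finset.sum_le_sum (fun w hw => (hcnt w hw).1)
        _ ≤ _ := Finset.sum_le_sum_of_subset_of_nonneg (subset_univ _)
            (fun _ _ _ => Nat.cast_nonneg _)
    calc _ ≤ _ := hT
      _ ≤ ((A.card * EC + B.card : ℕ) : ℝ) := by exact_mod_cast hS
      _ = _ := by push_cast; ring
  -- conclusion
  have hpmA : pm F (row lam : (Fin k ↪ Fin n) → (Fin n → F)) m =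
      (A.card : ℝ) / ((EC : ℝ) ^ m * EC) := by
    unfold pm
    rw [pair_pr_eq, ← hA]
    congr 1
    simp [hEC]
  have hpmB : pm F (row lam : (Fin k ↪ Fin n) → (Fin n → F)) (m + 1) =
      (B.card : ℝ) / ((EC : ℝ) ^ (m + 1) * EC) := by
    unfold pm
    rw [pair_pr_eq, ← hB]
    congr 1
    simp [hEC]
  rw [hpmA, hpmB]
  have hW : (Fintype.card (Fin m → (Fin k ↪ Fin n)) : ℝ) = (EC : ℝ) ^ m := by
    simp [hEC]
  rw [hW]
  have hLE : (δ / 4) ^ k * EC ≤ L := by
    calc (δ / 4) ^ k * EC ≤ (δ / 4) ^ k * (n : ℝ) ^ k := by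
          apply mul_le_mul_of_nonneg_left hECle (by positivity)
      _ = L := by rw [hL, ← mul_pow]; congr 1; ring
  have hLE2 : ((δ / 4) ^ k) ^ 2 * (EC : ℝ) ^ 2 ≤ L ^ 2 := by
    rw [← mul_pow]
    exact pow_le_pow_left₀ (by positivity) hLE 2
  have hsum : (A.card : ℝ) / ((EC : ℝ) ^ m * EC) + (B.card : ℝ) / ((EC : ℝ) ^ (m + 1) * EC) =
      ((A.card : ℝ) * EC + B.card) / ((EC : ℝ) ^ m * (EC : ℝ) ^ 2) := by
    field_simp
    ring
  rw [hsum, le_div_iff₀ (by positivity)]
  calc (H.card : ℝ) / (EC : ℝ) ^ m * ((δ / 4) ^ k) ^ 2 * ((EC : ℝ) ^ m * (EC : ℝ) ^ 2)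
      = (H.card : ℝ) * (((δ / 4) ^ k) ^ 2 * (EC : ℝ) ^ 2) := by field_simp
    _ ≤ (H.card : ℝ) * L ^ 2 := mul_le_mul_of_nonneg_left hLE2 (Nat.cast_nonneg _)
    _ ≤ _ := hmain

end Pool.Agent.Lib_helper39.UE
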