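import Pool.Agent.Lib_helper39.UE.Defs

set_option autoImplicit false

namespace Pool.Agent.Lib_helper39.UE

open Finset

theorem choose_le_exp (n s : ℕ) (hs : 0 < s) :
    (n.choose s : ℝ) ≤ (Real.exp 1 * n / s) ^ s := by
  have h1 : (n.choose s : ℝ) ≤ (n : ℝ) ^ s / (s.factorial : ℝ) := Nat.choose_le_pow_div s n
  have h2 : (s : ℝ) ^ s / (s.factorial : ℝ) ≤ Real.exp s :=
    Real.pow_div_factorial_le_exp (s : ℝ) (by positivity) s
  have hs' : (0 : ℝ) < s := by exact_mod_cast hs
  have hf : (0 : ℝ) < (s.factorial : ℝ) := by exact_mod_cast Nat.factorial_pos s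
  have h3 : Real.exp (s : ℝ) = Real.exp 1 ^ s := by
    rw [← Real.exp_nat_mul]; simp
  rw [h3] at h2
  refine h1.trans ?_
  rw [div_pow, mul_pow, div_le_div_iff₀ hf (by positivity)]
  rw [div_le_iff₀ hf] at h2
  calc (n : ℝ) ^ s * (s : ℝ) ^ s ≤ (n : ℝ) ^ s * (Real.exp 1 ^ s * (s.factorial : ℝ)) := by
        apply mul_le_mul_of_nonneg_left h2 (by positivity)
    _ = _ := by ring

/-- the constant of the first moment bound -/
noncomputable def DD (k : ℕ) : ℝ := Real.exp 1 ^ (2 + k) * ((k : ℝ) / 2) ^ k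

theorem DD_ge (k : ℕ) (hk : 3 ≤ k) : (k : ℝ) ≤ DD k := by
  unfold DD
  have hk' : (3 : ℝ) ≤ k := by exact_mod_cast hk
  have h1 : (1 : ℝ) ≤ ((k : ℝ) / 2) ^ k := one_le_pow₀ (by linarith)
  have h2 : (k : ℝ) ≤ Real.exp 1 ^ (2 + k) := by
    rw [← Real.exp_nat_mul]
    have := Real.add_one_le_exp (((2 + k : ℕ) : ℝ) * 1)
    push_cast at this ⊢
    linarith
  calc (k : ℝ) ≤ Real.exp 1 ^ (2 + k) := h2
    _ = Real.exp 1 ^ (2 + k) * 1 := by ring
    _ ≤ _ := mul_le_mul_of_nonneg_left h1 (by positivity)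

theorem term_sq (k n s : ℕ) (hk : 3 ≤ k) (hs : 1 ≤ s) (hsn : s ≤ n) (hks : k * s ≤ 2 * n) :
    ((n.choose s : ℝ) * (n.choose (k * s / 2) : ℝ) *
      (((k * s / 2 : ℕ) : ℝ) / n) ^ (k * s)) ^ 2 ≤ (DD k * (s / n)) ^ s := by
  obtain ⟨u, hu⟩ : ∃ u, u = k * s / 2 := ⟨_, rfl⟩
  rw [← hu]
  have h3 : 3 ≤ k * s := by nlinarith
  have hu1 : 1 ≤ u := by omega
  have hu2 : 2 * u ≤ k * s := by omega
  have hn1 : 1 ≤ n := by omega
  have hs' : (0 : ℝ) < s := by exact_mod_cast hs
  have hn' : (0 : ℝ) < n := by exact_mod_cast hn1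
  have hu' : (0 : ℝ) < u := by exact_mod_cast hu1
  have he : (1 : ℝ) ≤ Real.exp 1 := Real.one_le_exp (by norm_num)
  have he0 : (0 : ℝ) < Real.exp 1 := Real.exp_pos 1
  have hA := choose_le_exp n s hs
  have hB := choose_le_exp n u hu1
  obtain ⟨z, hz⟩ : ∃ z : ℝ, z = (k * s : ℝ) / (2 * n) := ⟨_, rfl⟩
  have hz0 : 0 ≤ z := by rw [hz]; positivity
  have hz1 : z ≤ 1 := by
    rw [hz, div_le_one (by positivity)]
    exact_mod_cast hks
  have huz : (u : ℝ) / n ≤ z := by
    rw [hz, div_le_div_iff₀ hn' (by positivity)]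
    have : (2 * u : ℝ) ≤ k * s := by exact_mod_cast hu2
    nlinarith
  have hT : (n.choose s : ℝ) * (n.choose u : ℝ) * ((u : ℝ) / n) ^ (k * s) ≤
      (Real.exp 1 * n / s) ^ s * Real.exp 1 ^ u * ((u : ℝ) / n) ^ (k * s - u) := by
    calc (n.choose s : ℝ) * (n.choose u : ℝ) * ((u : ℝ) / n) ^ (k * s)
        ≤ (Real.exp 1 * n / s) ^ s * (Real.exp 1 * n / u) ^ u * ((u : ℝ) / n) ^ (k * s) := by
          gcongr
      _ = (Real.exp 1 * n / s) ^ s * (Real.exp 1 * n / u) ^ u *
            (((u : ℝ) / n) ^ u * ((u : ℝ) / n) ^ (k * s - u)) := by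
          rw [← pow_add]
          congr 2
          omega
      _ = (Real.exp 1 * n / s) ^ s * ((Real.exp 1 * n / u) * ((u : ℝ) / n)) ^ u *
            ((u : ℝ) / n) ^ (k * s - u) := by
          rw [mul_pow]; ring
      _ = _ := by
          congr 2
          field_simp
  have hT0 : 0 ≤ (n.choose s : ℝ) * (n.choose u : ℝ) * ((u : ℝ) / n) ^ (k * s) := by positivity
  calc ((n.choose s : ℝ) * (n.choose u : ℝ) * ((u : ℝ) / n) ^ (k * s)) ^ 2
      ≤ ((Real.exp 1 * n / s) ^ s * Real.exp 1 ^ u * ((u : ℝ) / n) ^ (k * s - u)) ^ 2 :=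
        pow_le_pow_left₀ hT0 hT 2
    _ = (Real.exp 1 * n / s) ^ (2 * s) * Real.exp 1 ^ (2 * u) *
          ((u : ℝ) / n) ^ (2 * (k * s - u)) := by
        rw [mul_pow, mul_pow, ← pow_mul, ← pow_mul, ← pow_mul, mul_comm s 2, mul_comm u 2,
          mul_comm (k * s - u) 2]
    _ ≤ (Real.exp 1 * n / s) ^ (2 * s) * Real.exp 1 ^ (k * s) * z ^ (k * s) := by
        have e1 : Real.exp 1 ^ (2 * u) ≤ Real.exp 1 ^ (k * s) := pow_le_pow_right₀ he hu2
        have e2 : ((u : ℝ) / n) ^ (2 * (k * s - u)) ≤ z ^ (k * s) := by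
          calc ((u : ℝ) / n) ^ (2 * (k * s - u)) ≤ z ^ (2 * (k * s - u)) :=
                pow_le_pow_left₀ (by positivity) huz _
            _ ≤ z ^ (k * s) := pow_le_pow_of_le_one hz0 hz1 (by omega)
        gcongr
    _ = ((Real.exp 1 * n / s) ^ 2 * Real.exp 1 ^ k * z ^ k) ^ s := by
        rw [mul_pow, mul_pow, ← pow_mul, ← pow_mul, ← pow_mul]
    _ ≤ (DD k * (s / n)) ^ s := by
        apply pow_le_pow_left₀ (by positivity)
        have hx1 : (s : ℝ) / n ≤ 1 := by
          rw [div_le_one hn']; exact_mod_cast hsn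
        have hx0 : 0 < (s : ℝ) / n := by positivity
        have : (Real.exp 1 * n / s) ^ 2 * Real.exp 1 ^ k * z ^ k =
            DD k * ((s : ℝ) / n) ^ (k - 2) := by
          have hk2 : ((s : ℝ) / n) ^ k = ((s : ℝ) / n) ^ (k - 2) * ((s : ℝ) / n) ^ 2 := by
            rw [← pow_add]; congr 1; omega
          have hz' : z = ((k : ℝ) / 2) * ((s : ℝ) / n) := by
            rw [hz]; field_simp
          rw [hz', mul_pow, hk2]
          unfold DD
          rw [pow_add]
          field_simp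
        rw [this]
        have hD : 0 ≤ DD k := by unfold DD; positivity
        apply mul_le_mul_of_nonneg_left _ hD
        calc ((s : ℝ) / n) ^ (k - 2) ≤ ((s : ℝ) / n) ^ 1 :=
              pow_le_pow_of_le_one hx0.le hx1 (by omega)
          _ = _ := pow_one _

theorem term_bound (k n s : ℕ) (hk : 3 ≤ k) (hs : 1 ≤ s) (hsn : 4 * DD k * s ≤ n) :
    (n.choose s : ℝ) * (n.choose (k * s / 2) : ℝ) *
      (((k * s / 2 : ℕ) : ℝ) / n) ^ (k * s) ≤
    2 * Real.sqrt (DD k / n) * (s * (1 / 2) ^ s) := by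
  have hDk := DD_ge k hk
  have hk' : (3 : ℝ) ≤ k := by exact_mod_cast hk
  have hD : 0 < DD k := by linarith
  have hs' : (1 : ℝ) ≤ s := by exact_mod_cast hs
  have h1 : (k : ℝ) * s ≤ DD k * s := mul_le_mul_of_nonneg_right hDk (by linarith)
  have h2 : (0 : ℝ) < n := by nlinarith
  have hsn' : s ≤ n := by
    have : (s : ℝ) ≤ n := by nlinarith
    exact_mod_cast this
  have hks : k * s ≤ 2 * n := by
    have : (k : ℝ) * s ≤ 2 * n := by nlinarith
    exact_mod_cast this
  have h3 := term_sq k n s hk hs hsn' hks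
  obtain ⟨q, hq⟩ : ∃ q, q = Real.sqrt (DD k * (s / n)) := ⟨_, rfl⟩
  have hq0 : 0 ≤ q := by rw [hq]; exact Real.sqrt_nonneg _
  have hqq : q ^ 2 = DD k * (s / n) := by
    rw [hq]; exact Real.sq_sqrt (by positivity)
  have hqh : q ≤ 1 / 2 := by
    rw [hq, Real.sqrt_le_iff]
    refine ⟨by norm_num, ?_⟩
    rw [← mul_div_assoc, div_le_iff₀ h2]
    linarith
  have h4 : (n.choose s : ℝ) * (n.choose (k * s / 2) : ℝ) *
      (((k * s / 2 : ℕ) : ℝ) / n) ^ (k * s) ≤ q ^ s := by
    refine (sq_le_sq₀ (by positivity) (by positivity)).1 ?_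
    rw [← pow_mul q s 2, mul_comm s 2, pow_mul q 2 s, hqq]
    exact h3
  refine h4.trans ?_
  obtain ⟨t, rfl⟩ : ∃ t, s = t + 1 := ⟨s - 1, by omega⟩
  have h5 : q ≤ Real.sqrt (DD k / n) * ((t + 1 : ℕ) : ℝ) := by
    rw [hq]
    have : DD k * (((t + 1 : ℕ) : ℝ) / n) = (DD k / n) * ((t + 1 : ℕ) : ℝ) := by ring
    rw [this, Real.sqrt_mul (by positivity)]
    apply mul_le_mul_of_nonneg_left _ (Real.sqrt_nonneg _)
    rw [Real.sqrt_le_iff]
    refine ⟨by positivity, ?_⟩
    nlinarith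
  calc q ^ (t + 1) = q * q ^ t := by ring
    _ ≤ (Real.sqrt (DD k / n) * ((t + 1 : ℕ) : ℝ)) * (1 / 2) ^ t := by
        apply mul_le_mul h5 (pow_le_pow_left₀ hq0 hqh t) (by positivity) (by positivity)
    _ = _ := by
        rw [pow_succ]; ring

theorem sum_half (N : ℕ) :
    ∑ s ∈ range (N + 1), (s : ℝ) * (1 / 2) ^ s = 2 - (N + 2) * (1 / 2) ^ N := by
  induction N with
  | zero => simp
  | succ N ih =>
    rw [Finset.sum_range_succ, ih]
    push_cast
    rw [pow_succ]
    ring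

theorem sum_half_le (N : ℕ) : ∑ s ∈ Icc 1 N, (s : ℝ) * (1 / 2) ^ s ≤ 2 := by
  calc ∑ s ∈ Icc 1 N, (s : ℝ) * (1 / 2) ^ s ≤ ∑ s ∈ range (N + 1), (s : ℝ) * (1 / 2) ^ s := by
        apply Finset.sum_le_sum_of_subset_of_nonneg
        · intro x hx
          rw [Finset.mem_Icc] at hx
          rw [Finset.mem_range]; omega
        · intros; positivity
    _ = 2 - (N + 2) * (1 / 2) ^ N := sum_half N
    _ ≤ 2 := by
        have : (0 : ℝ) ≤ (N + 2) * (1 / 2) ^ N := by positivity
        linarith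

theorem desc_ratio (k u n : ℕ) (hun : u ≤ n) :
    u.descFactorial k * n ^ k ≤ u ^ k * n.descFactorial k := by
  induction k with
  | zero => simp
  | succ k ih =>
    rw [Nat.descFactorial_succ, Nat.descFactorial_succ]
    have h1 : (u - k) * n ≤ u * (n - k) := by
      rcases le_total u k with h | h
      · rw [Nat.sub_eq_zero_of_le h]; simp
      · obtain ⟨a, rfl⟩ := Nat.exists_eq_add_of_le h
        obtain ⟨b, rfl⟩ := Nat.exists_eq_add_of_le hun
        have e1 : k + a - k = a := by omega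
        have e2 : k + a + b - k = a + b := by omega
        rw [e1, e2]
        nlinarith [Nat.zero_le (k * b)]
    calc (u - k) * u.descFactorial k * n ^ (k + 1)
        = ((u - k) * n) * (u.descFactorial k * n ^ k) := by ring
      _ ≤ (u * (n - k)) * (u ^ k * n.descFactorial k) := Nat.mul_le_mul h1 ih
      _ = _ := by ring

open Classical in
theorem card_emb_in (k n : ℕ) (U : Finset (Fin n)) :
    (univ.filter (fun e : Fin k ↪ Fin n => ∀ j, e j ∈ U)).card ≤ U.card.descFactorial k := by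
  have h1 : Fintype.card (Fin k ↪ U) = U.card.descFactorial k := by
    rw [Fintype.card_embedding_eq]; simp
  rw [← h1, ← Fintype.card_coe]
  apply Fintype.card_le_of_injective
    (fun e : {e // e ∈ univ.filter (fun e : Fin k ↪ Fin n => ∀ j, e j ∈ U)} =>
      (⟨fun j => ⟨e.1 j, (Finset.mem_filter.1 e.2).2 j⟩, fun a b hab => e.1.injective (by
        simpa using hab)⟩ : Fin k ↪ U))
  intro e e' hee
  apply Subtype.ext
  ext j
  have := congrArg (fun x : U => (x : Fin n)) (DFunLike.congr_fun hee j)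
  exact congrArg Fin.val this

open Classical in
theorem card_in {m k n : ℕ} (C : Finset (Fin m)) (S : Finset (Fin k ↪ Fin n)) :
    (univ.filter (fun w : Fin m → (Fin k ↪ Fin n) => ∀ i ∈ C, w i ∈ S)).card =
      S.card ^ C.card * (Fintype.card (Fin k ↪ Fin n)) ^ (m - C.card) := by
  have h1 : univ.filter (fun w : Fin m → (Fin k ↪ Fin n) => ∀ i ∈ C, w i ∈ S) =
      Fintype.piFinset (fun i => if i ∈ C then S else univ) := by
    ext w
    simp only [Finset.mem_filter, Finset.mem_univ, true_and, Fintype.mem_piFinset]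
    constructor
    · intro h i
      by_cases hi : i ∈ C
      · simp [hi, h i hi]
      · simp [hi]
    · intro h i hi
      have := h i
      simpa [hi] using this
  rw [h1, Fintype.card_piFinset]
  have h2 : ∀ i : Fin m, (if i ∈ C then S else univ).card =
      if i ∈ C then S.card else Fintype.card (Fin k ↪ Fin n) := by
    intro i
    split_ifs <;> simp
  simp_rw [h2]
  rw [Finset.prod_ite, Finset.prod_const, Finset.prod_const]
  congr 2
  · congr 1
    ext i; simp
  · have : univ.filter (fun i => i ∉ C) = Cᶜ := by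
      ext i; simp
    rw [this, Finset.card_compl]; simp

theorem pr_eq_card {α : Type} [Fintype α] (p : α → Prop) [DecidablePred p] :
    pr p = ((univ.filter p).card : ℝ) / Fintype.card α := by
  unfold pr avg
  congr 1
  rw [Finset.card_filter]
  push_cast
  refine Finset.sum_congr rfl fun x _ => ?_
  by_cases h : p x <;> simp [h]

open Classical in
theorem small_circuits {k : ℕ} (hk : 3 ≤ k) :
    ∃ δ : ℝ, 0 < δ ∧ ∀ ε : ℝ, 0 < ε → ∃ n₀ : ℕ, ∀ n : ℕ, n₀ ≤ n → ∀ m : ℕ, m ≤ n →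
      pr (fun w : Fin m → (Fin k ↪ Fin n) => ∃ C : Finset (Fin m), C.Nonempty ∧
        (C.card : ℝ) ≤ δ * n ∧
        2 * (univ.filter (fun v => ∃ i ∈ C, ∃ j, w i j = v)).card ≤ k * C.card) ≤ ε := by
  have hDk := DD_ge k hk
  have hk' : (3 : ℝ) ≤ k := by exact_mod_cast hk
  have hD : 0 < DD k := by linarith
  refine ⟨1 / (4 * DD k), by positivity, fun ε hε => ?_⟩
  refine ⟨max k (⌈16 * DD k / ε ^ 2⌉₊ + 1), fun n hn m hm => ?_⟩
  have hnk : k ≤ n := (le_max_left _ _).trans hn
  have hnε : 16 * DD k / ε ^ 2 ≤ n := by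
    have h1 := Nat.le_ceil (16 * DD k / ε ^ 2)
    have h2 : ⌈16 * DD k / ε ^ 2⌉₊ ≤ n := by
      have := (le_max_right k (⌈16 * DD k / ε ^ 2⌉₊ + 1)).trans hn
      omega
    have h3 : ((⌈16 * DD k / ε ^ 2⌉₊ : ℕ) : ℝ) ≤ n := by exact_mod_cast h2
    linarith
  have hn0 : (0 : ℝ) < n := by
    have : 0 < n := by omega
    exact_mod_cast this
  obtain ⟨M, hM⟩ : ∃ M : ℕ, M = ⌊1 / (4 * DD k) * n⌋₊ := ⟨_, rfl⟩
  have hMle : (M : ℝ) ≤ 1 / (4 * DD k) * n := by
    rw [hM]; exact Nat.floor_le (by positivity)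
  obtain ⟨N, hN⟩ : ∃ N : ℕ, N = Fintype.card (Fin k ↪ Fin n) := ⟨_, rfl⟩
  have hNd : N = n.descFactorial k := by
    rw [hN, Fintype.card_embedding_eq]; simp
  have hNpos : 0 < N := by
    rw [hNd, Nat.pos_iff_ne_zero, Ne, Nat.descFactorial_eq_zero_iff_lt]; omega
  have hNpos' : (0 : ℝ) < N := by exact_mod_cast hNpos
  have hcardw : Fintype.card (Fin m → (Fin k ↪ Fin n)) = N ^ m := by
    rw [Fintype.card_fun, ← hN]; simp
  -- the union bound
  have key : (univ.filter (fun w : Fin m → (Fin k ↪ Fin n) => ∃ C : Finset (Fin m), C.Nonempty ∧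
        (C.card : ℝ) ≤ 1 / (4 * DD k) * n ∧
        2 * (univ.filter (fun v => ∃ i ∈ C, ∃ j, w i j = v)).card ≤ k * C.card)).card ≤
      ∑ s ∈ Icc 1 M, ∑ C ∈ powersetCard s (univ : Finset (Fin m)),
        ∑ U ∈ powersetCard (k * s / 2) (univ : Finset (Fin n)),
          (univ.filter (fun w : Fin m → (Fin k ↪ Fin n) => ∀ i ∈ C,
            w i ∈ univ.filter (fun e : Fin k ↪ Fin n => ∀ j, e j ∈ U))).card := by
    refine (Finset.card_le_card (t := (Icc 1 M).biUnion fun s =>
      (powersetCard s (univ : Finset (Fin m))).biUnion fun C =>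
        (powersetCard (k * s / 2) (univ : Finset (Fin n))).biUnion fun U =>
          (univ.filter (fun w : Fin m → (Fin k ↪ Fin n) => ∀ i ∈ C,
            w i ∈ univ.filter (fun e : Fin k ↪ Fin n => ∀ j, e j ∈ U)))) ?_).trans ?_
    · intro w hw
      rw [Finset.mem_filter] at hw
      obtain ⟨-, C, hC0, hC1, hC2⟩ := hw
      have hC1' : C.card ≤ M := by
        rw [hM]; exact Nat.le_floor hC1
      have hkC : k * C.card / 2 ≤ n := by
        have h1 : (k : ℝ) * C.card ≤ n := by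
          have h2 : (k : ℝ) * C.card ≤ DD k * (1 / (4 * DD k) * n) :=
            mul_le_mul hDk hC1 (by positivity) hD.le
          have h3 : DD k * (1 / (4 * DD k) * n) = n / 4 := by field_simp
          rw [h3] at h2
          linarith
        have h2 : k * C.card ≤ n := by exact_mod_cast h1
        omega
      obtain ⟨U, hU1, hU2⟩ := Finset.exists_superset_card_eq
        (s := univ.filter (fun v => ∃ i ∈ C, ∃ j, w i j = v)) (n := k * C.card / 2)
        (by omega) (by simpa using hkC)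
      simp only [Finset.mem_biUnion, Finset.mem_Icc, Finset.mem_powersetCard, Finset.mem_filter,
        Finset.mem_univ, true_and, Finset.subset_univ]
      refine ⟨C.card, ⟨Finset.card_pos.2 hC0, hC1'⟩, C, rfl, U, hU2, fun i hi j => ?_⟩
      apply hU1
      rw [Finset.mem_filter]
      exact ⟨Finset.mem_univ _, i, hi, j, rfl⟩
    · refine Finset.card_biUnion_le.trans (Finset.sum_le_sum fun s _ => ?_)
      refine Finset.card_biUnion_le.trans (Finset.sum_le_sum fun C _ => ?_)
      exact Finset.card_biUnion_le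
  have key2 : ∀ s ∈ Icc 1 M, ∀ C ∈ powersetCard s (univ : Finset (Fin m)),
      ∀ U ∈ powersetCard (k * s / 2) (univ : Finset (Fin n)),
      ((univ.filter (fun w : Fin m → (Fin k ↪ Fin n) => ∀ i ∈ C,
            w i ∈ univ.filter (fun e : Fin k ↪ Fin n => ∀ j, e j ∈ U))).card : ℝ) ≤
        (((k * s / 2 : ℕ) : ℝ) / n) ^ (k * s) * (N : ℝ) ^ m := by
    intro s hs C hC U hU
    rw [Finset.mem_powersetCard] at hC hU
    rw [card_in, hC.2, ← hN]
    have hsm : s ≤ m := by
      have := Finset.card_le_univ C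
      rw [hC.2] at this
      simpa using this
    obtain ⟨S, hS⟩ : ∃ S, S = (univ.filter (fun e : Fin k ↪ Fin n => ∀ j, e j ∈ U)).card :=
      ⟨_, rfl⟩
    rw [← hS]
    have h1 : S ≤ (k * s / 2).descFactorial k := by
      rw [hS]
      have := card_emb_in k n U
      rwa [hU.2] at this
    have hun : k * s / 2 ≤ n := by
      have := Finset.card_le_univ U
      rw [hU.2] at this
      simpa using this
    have h2 := desc_ratio k (k * s / 2) n hun
    rw [← hNd] at h2
    have h3 : S * n ^ k ≤ (k * s / 2) ^ k * N := (Nat.mul_le_mul_right _ h1).trans h2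
    have h4 : (S : ℝ) ≤ (((k * s / 2 : ℕ) : ℝ) / n) ^ k * N := by
      rw [div_pow, div_mul_eq_mul_div, le_div_iff₀ (by positivity)]
      exact_mod_cast h3
    push_cast
    calc (S : ℝ) ^ s * (N : ℝ) ^ (m - s)
        ≤ ((((k * s / 2 : ℕ) : ℝ) / n) ^ k * N) ^ s * (N : ℝ) ^ (m - s) := by gcongr
      _ = (((k * s / 2 : ℕ) : ℝ) / n) ^ (k * s) * ((N : ℝ) ^ s * (N : ℝ) ^ (m - s)) := by
          rw [mul_pow, pow_mul]; ring
      _ = _ := by
          rw [← pow_add]
          congr 2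
          omega
  have key3 : ((univ.filter (fun w : Fin m → (Fin k ↪ Fin n) => ∃ C : Finset (Fin m),
        C.Nonempty ∧ (C.card : ℝ) ≤ 1 / (4 * DD k) * n ∧
        2 * (univ.filter (fun v => ∃ i ∈ C, ∃ j, w i j = v)).card ≤ k * C.card)).card : ℝ) ≤
      (4 * Real.sqrt (DD k / n)) * (N : ℝ) ^ m := by
    calc _ ≤ ((∑ s ∈ Icc 1 M, ∑ C ∈ powersetCard s (univ : Finset (Fin m)),
        ∑ U ∈ powersetCard (k * s / 2) (univ : Finset (Fin n)),
          (univ.filter (fun w : Fin m → (Fin k ↪ Fin n) => ∀ i ∈ C,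
            w i ∈ univ.filter (fun e : Fin k ↪ Fin n => ∀ j, e j ∈ U))).card : ℕ) : ℝ) := by
          exact_mod_cast key
      _ ≤ ∑ s ∈ Icc 1 M, ∑ C ∈ powersetCard s (univ : Finset (Fin m)),
        ∑ U ∈ powersetCard (k * s / 2) (univ : Finset (Fin n)),
          (((k * s / 2 : ℕ) : ℝ) / n) ^ (k * s) * (N : ℝ) ^ m := by
          push_cast
          refine Finset.sum_le_sum fun s hs => Finset.sum_le_sum fun C hC =>
            Finset.sum_le_sum fun U hU => ?_
          exact key2 s hs C hC U hU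
      _ = ∑ s ∈ Icc 1 M, ((m.choose s : ℝ) * (n.choose (k * s / 2) : ℝ) *
            (((k * s / 2 : ℕ) : ℝ) / n) ^ (k * s)) * (N : ℝ) ^ m := by
          refine Finset.sum_congr rfl fun s _ => ?_
          rw [Finset.sum_const, Finset.sum_const, Finset.card_powersetCard,
            Finset.card_powersetCard]
          simp only [Finset.card_univ, Fintype.card_fin, nsmul_eq_mul]
          ring
      _ ≤ ∑ s ∈ Icc 1 M, (2 * Real.sqrt (DD k / n) * (s * (1 / 2) ^ s)) * (N : ℝ) ^ m := by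
          refine Finset.sum_le_sum fun s hs => ?_
          rw [Finset.mem_Icc] at hs
          apply mul_le_mul_of_nonneg_right _ (by positivity)
          have h1 : (m.choose s : ℝ) ≤ (n.choose s : ℝ) := by
            exact_mod_cast Nat.choose_le_choose s hm
          have h2 : 4 * DD k * s ≤ n := by
            have h3 : (s : ℝ) ≤ 1 / (4 * DD k) * n := by
              have : (s : ℝ) ≤ M := by exact_mod_cast hs.2
              linarith
            calc 4 * DD k * (s : ℝ) ≤ 4 * DD k * (1 / (4 * DD k) * n) :=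
                  mul_le_mul_of_nonneg_left h3 (by positivity)
              _ = n := by field_simp
          calc _ ≤ (n.choose s : ℝ) * (n.choose (k * s / 2) : ℝ) *
                (((k * s / 2 : ℕ) : ℝ) / n) ^ (k * s) := by gcongr
            _ ≤ _ := term_bound k n s hk hs.1 h2
      _ = (2 * Real.sqrt (DD k / n) * (∑ s ∈ Icc 1 M, (s : ℝ) * (1 / 2) ^ s)) * (N : ℝ) ^ m := by
          rw [← Finset.sum_mul, ← Finset.mul_sum]
      _ ≤ (2 * Real.sqrt (DD k / n) * 2) * (N : ℝ) ^ m := by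
          have := sum_half_le M
          gcongr
      _ = _ := by ring
  rw [pr_eq_card, hcardw]
  push_cast
  rw [div_le_iff₀ (by positivity)]
  refine key3.trans ?_
  apply mul_le_mul_of_nonneg_right _ (by positivity)
  have h5 : Real.sqrt (DD k / n) ≤ ε / 4 := by
    rw [Real.sqrt_le_iff]
    refine ⟨by positivity, ?_⟩
    rw [div_le_iff₀ hn0]
    rw [div_le_iff₀ (by positivity)] at hnε
    nlinarith
  linarith

end Pool.Agent.Lib_helper39.UE
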