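import Pool.Agent.Lib_helper39.UE.PIN

/-! MP_82d614_pr, block TRANS (from Bernoulli sets to independent uniform elements). -/

set_option autoImplicit false
set_option linter.unusedSectionVars false
set_option linter.unusedSimpArgs false

namespace Pool.Agent.Lib_helper39.UE

open Finset

namespace TRANSaux

open PINaux

variable {F : Type} [Field F] {E W : Type} [Fintype E] [AddCommGroup W] [Module F W]
    [FiniteDimensional F W] (vec : E → W)

variable (F) in
/-- defect of a set -/
noncomputable def dfc (G : Finset E) : ℝ :=
  (G.card : ℝ) - Module.finrank F (Submodule.span F (vec '' (G : Set E)))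

theorem dfc_nonneg (G : Finset E) : 0 ≤ dfc F vec G := by
  classical
  unfold dfc
  have h : Module.finrank F (Submodule.span F (vec '' (G : Set E))) ≤ G.card := by
    have h1 := finrank_span_finset_le_card (R := F) (G.image vec)
    have h2 : ((G.image vec : Finset W) : Set W) = vec '' (G : Set E) := by simp
    unfold Set.finrank at h1
    rw [h2] at h1
    exact h1.trans Finset.card_image_le
  have h' : (Module.finrank F (Submodule.span F (vec '' (G : Set E))) : ℝ) ≤ G.card := by
    exact_mod_cast h
  linarith

theorem dfc_insert [DecidableEq E] (G : Finset E) (e : E) (he : e ∉ G) :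
    dfc F vec G ≤ dfc F vec (insert e G) := by
  unfold dfc
  rw [Finset.card_insert_of_notMem he]
  have h : Module.finrank F (Submodule.span F (vec '' ((insert e G : Finset E) : Set E))) ≤
      Module.finrank F (Submodule.span F (vec '' (G : Set E))) + 1 := by
    rw [Finset.coe_insert, Set.image_insert_eq, Submodule.span_insert]
    refine (Submodule.finrank_add_le_finrank_add_finrank _ _).trans ?_
    have h1 : Module.finrank F (Submodule.span F {vec e}) ≤ 1 := by
      have := finrank_span_le_card (R := F) ({vec e} : Set W)
      simpa using this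
    omega
  have h' : (Module.finrank F (Submodule.span F (vec '' ((insert e G : Finset E) : Set E))) : ℝ) ≤
      Module.finrank F (Submodule.span F (vec '' (G : Set E))) + 1 := by
    exact_mod_cast h
  push_cast
  linarith

variable (F) in
/-- total defect of the sets of size `j` -/
noncomputable def SS (j : ℕ) : ℝ := ∑ G ∈ powersetCard j (univ : Finset E), dfc F vec G

theorem SS_nonneg (j : ℕ) : 0 ≤ SS F vec j := Finset.sum_nonneg fun G _ => dfc_nonneg vec G

theorem SS_step (j : ℕ) (hj : j ≤ Fintype.card E) :
    ((Fintype.card E - j : ℕ) : ℝ) * SS F vec j ≤ ((j + 1 : ℕ) : ℝ) * SS F vec (j + 1) := by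
  classical
  have h1 : ((Fintype.card E - j : ℕ) : ℝ) * SS F vec j =
      ∑ G ∈ powersetCard j (univ : Finset E), ∑ e ∈ Gᶜ, dfc F vec G := by
    unfold SS
    rw [Finset.mul_sum]
    apply Finset.sum_congr rfl
    intro G hG
    rw [Finset.mem_powersetCard] at hG
    rw [Finset.sum_const, nsmul_eq_mul, Finset.card_compl, hG.2]
  have h2 : ((j + 1 : ℕ) : ℝ) * SS F vec (j + 1) =
      ∑ G ∈ powersetCard (j + 1) (univ : Finset E), ∑ e ∈ G, dfc F vec G := by
    unfold SS
    rw [Finset.mul_sum]
    apply Finset.sum_congr rfl
    intro G hG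
    rw [Finset.mem_powersetCard] at hG
    rw [Finset.sum_const, nsmul_eq_mul, hG.2]
  rw [h1, h2]
  calc ∑ G ∈ powersetCard j (univ : Finset E), ∑ e ∈ Gᶜ, dfc F vec G
      ≤ ∑ G ∈ powersetCard j (univ : Finset E), ∑ e ∈ Gᶜ, dfc F vec (insert e G) := by
        apply Finset.sum_le_sum
        intro G _
        apply Finset.sum_le_sum
        intro e he
        exact dfc_insert vec G e (Finset.mem_compl.1 he)
    _ = ∑ G ∈ powersetCard (j + 1) (univ : Finset E), ∑ e ∈ G, dfc F vec G := by
        rw [Finset.sum_sigma', Finset.sum_sigma']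
        refine Finset.sum_bij' (fun x _ => ⟨insert x.2 x.1, x.2⟩) (fun x _ => ⟨x.1.erase x.2, x.2⟩)
          ?_ ?_ ?_ ?_ ?_
        · rintro ⟨G, e⟩ h
          simp only [Finset.mem_sigma, Finset.mem_powersetCard, Finset.mem_compl] at h ⊢
          exact ⟨⟨Finset.subset_univ _, by rw [Finset.card_insert_of_notMem h.2, h.1.2]⟩,
            Finset.mem_insert_self _ _⟩
        · rintro ⟨G, e⟩ h
          simp only [Finset.mem_sigma, Finset.mem_powersetCard, Finset.mem_compl] at h ⊢
          exact ⟨⟨Finset.subset_univ _, by rw [Finset.card_erase_of_mem h.2, h.1.2]; rfl⟩,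
            Finset.notMem_erase _ _⟩
        · rintro ⟨G, e⟩ h
          simp only [Finset.mem_sigma, Finset.mem_powersetCard, Finset.mem_compl] at h ⊢
          simp [Finset.erase_insert h.2]
        · rintro ⟨G, e⟩ h
          simp only [Finset.mem_sigma, Finset.mem_powersetCard, Finset.mem_compl] at h ⊢
          simp [Finset.insert_erase h.2]
        · rintro ⟨G, e⟩ h
          rfl

variable (F) in
/-- average defect of the sets of size `j` -/
noncomputable def ds (j : ℕ) : ℝ := SS F vec j / (Fintype.card E).choose j

theorem ds_nonneg (j : ℕ) : 0 ≤ ds F vec j := div_nonneg (SS_nonneg vec j) (Nat.cast_nonneg _)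

theorem ds_step (j : ℕ) (hj : j + 1 ≤ Fintype.card E) : ds F vec j ≤ ds F vec (j + 1) := by
  unfold ds
  have c1 : (0 : ℝ) < (Fintype.card E).choose j := by
    exact_mod_cast Nat.choose_pos (by omega)
  have c2 : (0 : ℝ) < (Fintype.card E).choose (j + 1) := by
    exact_mod_cast Nat.choose_pos hj
  rw [div_le_div_iff₀ c1 c2]
  have h := SS_step (F := F) vec j (by omega)
  have hc : ((Fintype.card E).choose (j + 1) : ℝ) * ((j + 1 : ℕ) : ℝ) =
      (Fintype.card E).choose j * ((Fintype.card E - j : ℕ) : ℝ) := by
    exact_mod_cast Nat.choose_succ_right_eq (Fintype.card E) j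
  have hj1 : (0 : ℝ) < ((j + 1 : ℕ) : ℝ) := by positivity
  have h3 : (SS F vec j * (Fintype.card E).choose (j + 1)) * ((j + 1 : ℕ) : ℝ) ≤
      (SS F vec (j + 1) * (Fintype.card E).choose j) * ((j + 1 : ℕ) : ℝ) := by
    calc (SS F vec j * (Fintype.card E).choose (j + 1)) * ((j + 1 : ℕ) : ℝ)
        = SS F vec j * (((Fintype.card E).choose (j + 1) : ℝ) * ((j + 1 : ℕ) : ℝ)) := by ring
      _ = (((Fintype.card E - j : ℕ) : ℝ) * SS F vec j) * (Fintype.card E).choose j := by
          rw [hc]; ring
      _ ≤ (((j + 1 : ℕ) : ℝ) * SS F vec (j + 1)) * (Fintype.card E).choose j :=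
          mul_le_mul_of_nonneg_right h c1.le
      _ = _ := by ring
  exact le_of_mul_le_mul_right h3 hj1

theorem ds_mono (m j : ℕ) (hmj : m ≤ j) (hj : j ≤ Fintype.card E) :
    ds F vec m ≤ ds F vec j := by
  induction j, hmj using Nat.le_induction with
  | base => exact le_rfl
  | succ j hmj ih => exact (ih (by omega)).trans (ds_step vec j hj)

theorem bE_card_split (s : ℝ) (f : Finset E → ℝ) :
    bE s f = ∑ j ∈ range (Fintype.card E + 1), s ^ j * (1 - s) ^ (Fintype.card E - j) *
      ∑ G ∈ powersetCard j (univ : Finset E), f G := by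
  unfold bE
  rw [← Finset.powerset_univ, Finset.sum_powerset, Finset.card_univ]
  apply Finset.sum_congr rfl
  intro j _
  rw [Finset.mul_sum]
  apply Finset.sum_congr rfl
  intro G hG
  rw [(Finset.mem_powersetCard.1 hG).2]

theorem ds_le (s : ℝ) (h0 : 0 ≤ s) (h1 : s ≤ 1) (m : ℕ) (η : ℝ)
    (hm : m ≤ Fintype.card E)
    (hdef : bE s (fun G : Finset E => dfc F vec G) ≤ η)
    (hcard : 1 / 2 ≤ bE s (fun G : Finset E => if m ≤ G.card then (1 : ℝ) else 0)) :
    ds F vec m ≤ 2 * η := by
  have key : ds F vec m * bE s (fun G : Finset E => if m ≤ G.card then (1 : ℝ) else 0) ≤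
      bE s (fun G : Finset E => dfc F vec G) := by
    rw [bE_card_split, bE_card_split, Finset.mul_sum]
    apply Finset.sum_le_sum
    intro j hj
    have hj' : j ≤ Fintype.card E := by
      rw [Finset.mem_range] at hj; omega
    have hw : 0 ≤ s ^ j * (1 - s) ^ (Fintype.card E - j) :=
      mul_nonneg (pow_nonneg h0 _) (pow_nonneg (by linarith) _)
    have h2 : ∑ G ∈ powersetCard j (univ : Finset E), (if m ≤ G.card then (1 : ℝ) else 0) =
        if m ≤ j then ((Fintype.card E).choose j : ℝ) else 0 := by
      have : ∀ G ∈ powersetCard j (univ : Finset E),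
          (if m ≤ G.card then (1 : ℝ) else 0) = if m ≤ j then (1 : ℝ) else 0 := by
        intro G hG
        rw [(Finset.mem_powersetCard.1 hG).2]
      rw [Finset.sum_congr rfl this, Finset.sum_const, Finset.card_powersetCard, nsmul_eq_mul,
        Finset.card_univ]
      split_ifs <;> simp
    rw [h2]
    change _ ≤ _ * SS F vec j
    calc ds F vec m * (s ^ j * (1 - s) ^ (Fintype.card E - j) *
          if m ≤ j then ((Fintype.card E).choose j : ℝ) else 0)
        = (s ^ j * (1 - s) ^ (Fintype.card E - j)) *
          (ds F vec m * if m ≤ j then ((Fintype.card E).choose j : ℝ) else 0) := by ring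
      _ ≤ _ := by
          apply mul_le_mul_of_nonneg_left _ hw
          by_cases hmj : m ≤ j
          · rw [if_pos hmj]
            have c1 : (0 : ℝ) < (Fintype.card E).choose j := by
              exact_mod_cast Nat.choose_pos hj'
            have := ds_mono (F := F) vec m j hmj hj'
            have h3 : SS F vec j = ds F vec j * (Fintype.card E).choose j := by
              unfold ds
              field_simp
            rw [h3]
            exact mul_le_mul_of_nonneg_right this c1.le
          · rw [if_neg hmj, mul_zero]
            exact SS_nonneg vec j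
  have h2 := ds_nonneg (F := F) vec m
  nlinarith

open Classical in
/-- each set of size `m` is the image of at most `m!` injections -/
theorem fiber_card (m : ℕ) (G : Finset E) (hG : G.card = m) :
    ((univ : Finset (Fin m → E)).filter (fun w => Function.Injective w ∧
      univ.image w = G)).card ≤ m.factorial := by
  have h1 : Fintype.card (Fin m ≃ G) = m.factorial := by
    have e : Fin m ≃ G := Fintype.equivOfCardEq (by simp [hG])
    rw [Fintype.card_equiv e, Fintype.card_fin]
  rw [← h1, ← Finset.card_univ (α := Fin m ≃ G)]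
  have hmem : ∀ w : Fin m → E, w ∈ (univ : Finset (Fin m → E)).filter
      (fun w => Function.Injective w ∧ univ.image w = G) → ∀ i, w i ∈ G := by
    intro w hw i
    rw [Finset.mem_filter] at hw
    rw [← hw.2.2]
    exact Finset.mem_image_of_mem _ (Finset.mem_univ i)
  refine Finset.card_le_card_of_injOn
    (fun w => if hw : w ∈ (univ : Finset (Fin m → E)).filter
      (fun w => Function.Injective w ∧ univ.image w = G) then
        Equiv.ofBijective (fun i => (⟨w i, hmem w hw i⟩ : G)) (by
          rw [Finset.mem_filter] at hw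
          constructor
          · intro a b hab
            exact hw.2.1 (Subtype.ext_iff.1 hab)
          · rintro ⟨x, hx⟩
            have hx' := hx
            rw [← hw.2.2, Finset.mem_image] at hx'
            obtain ⟨i, _, rfl⟩ := hx'
            exact ⟨i, rfl⟩)
      else Fintype.equivOfCardEq (by simp [hG])) (fun _ _ => Finset.mem_univ _) ?_
  intro w hw w' hw' h
  rw [Finset.mem_coe] at hw hw'
  simp only [dif_pos hw, dif_pos hw'] at h
  funext i
  exact congrArg (fun e : Fin m ≃ G => (e i : E)) h

open Classical in
theorem inj_sum (m : ℕ) (hm : m ≤ Fintype.card E) :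
    ∑ w ∈ (univ : Finset (Fin m → E)).filter (fun w => Function.Injective w),
      ((m : ℝ) - Module.finrank F (Submodule.span F (Set.range fun i => vec (w i)))) ≤
      (Fintype.card E : ℝ) ^ m * ds F vec m := by
  have h1 : ∀ w ∈ (univ : Finset (Fin m → E)).filter (fun w => Function.Injective w),
      ((m : ℝ) - Module.finrank F (Submodule.span F (Set.range fun i => vec (w i)))) =
      dfc F vec (univ.image w) := by
    intro w hw
    rw [Finset.mem_filter] at hw
    unfold dfc
    rw [Finset.card_image_of_injective _ hw.2, Finset.card_univ, Fintype.card_fin]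
    have : vec '' ((univ.image w : Finset E) : Set E) = Set.range fun i => vec (w i) := by
      ext x
      simp
    rw [this]
  rw [Finset.sum_congr rfl h1]
  have h2 : ∑ w ∈ (univ : Finset (Fin m → E)).filter (fun w => Function.Injective w),
      dfc F vec (univ.image w) =
      ∑ G ∈ powersetCard m (univ : Finset E), ∑ w ∈ ((univ : Finset (Fin m → E)).filter
        (fun w => Function.Injective w)).filter (fun w => univ.image w = G),
        dfc F vec (univ.image w) := by
    rw [Finset.sum_fiberwise_of_maps_to]
    intro w hw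
    rw [Finset.mem_filter] at hw
    rw [Finset.mem_powersetCard]
    exact ⟨Finset.subset_univ _, by
      rw [Finset.card_image_of_injective _ hw.2, Finset.card_univ, Fintype.card_fin]⟩
  rw [h2]
  have h3 : ∀ G ∈ powersetCard m (univ : Finset E), ∑ w ∈ ((univ : Finset (Fin m → E)).filter
        (fun w => Function.Injective w)).filter (fun w => univ.image w = G),
        dfc F vec (univ.image w) ≤ m.factorial * dfc F vec G := by
    intro G hG
    rw [Finset.mem_powersetCard] at hG
    have h4 : ∀ w ∈ ((univ : Finset (Fin m → E)).filter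
        (fun w => Function.Injective w)).filter (fun w => univ.image w = G),
        dfc F vec (univ.image w) = dfc F vec G := by
      intro w hw
      rw [(Finset.mem_filter.1 hw).2]
    rw [Finset.sum_congr rfl h4, Finset.sum_const, nsmul_eq_mul, Finset.filter_filter]
    apply mul_le_mul_of_nonneg_right _ (dfc_nonneg vec G)
    exact_mod_cast fiber_card m G hG.2
  refine (Finset.sum_le_sum h3).trans ?_
  rw [← Finset.mul_sum]
  change (m.factorial : ℝ) * SS F vec m ≤ _
  have c1 : (0 : ℝ) < (Fintype.card E).choose m := by
    exact_mod_cast Nat.choose_pos hm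
  have h5 : SS F vec m = ds F vec m * (Fintype.card E).choose m := by
    unfold ds
    field_simp
  rw [h5]
  have h6 : ((m.factorial : ℝ) * (Fintype.card E).choose m) ≤ (Fintype.card E : ℝ) ^ m := by
    have := Nat.descFactorial_le_pow (Fintype.card E) m
    rw [Nat.descFactorial_eq_factorial_mul_choose] at this
    exact_mod_cast this
  calc (m.factorial : ℝ) * (ds F vec m * (Fintype.card E).choose m)
      = ((m.factorial : ℝ) * (Fintype.card E).choose m) * ds F vec m := by ring
    _ ≤ _ := mul_le_mul_of_nonneg_right h6 (ds_nonneg vec m)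

open Classical in
theorem not_inj_le [Nonempty E] (m : ℕ) :
    avg (fun w : Fin m → E => if Function.Injective w then (0 : ℝ) else 1) ≤
      (m : ℝ) ^ 2 / Fintype.card E := by
  have hn0 : (0 : ℝ) < Fintype.card E := by
    exact_mod_cast Fintype.card_pos (α := E)
  have h1 : ∀ w : Fin m → E, (if Function.Injective w then (0 : ℝ) else 1) ≤
      ∑ ij ∈ (univ : Finset (Fin m × Fin m)).filter (fun ij => ij.1 ≠ ij.2),
        (if w ij.1 = w ij.2 then (1 : ℝ) else 0) := by
    intro w
    split_ifs with hinj
    · exact Finset.sum_nonneg fun _ _ => by split_ifs <;> norm_num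
    · unfold Function.Injective at hinj
      push Not at hinj
      obtain ⟨a, b, hab, hne⟩ := hinj
      have := Finset.single_le_sum (f := fun ij : Fin m × Fin m =>
          (if w ij.1 = w ij.2 then (1 : ℝ) else 0))
          (s := (univ : Finset (Fin m × Fin m)).filter (fun ij => ij.1 ≠ ij.2))
          (fun _ _ => by split_ifs <;> norm_num)
          (Finset.mem_filter.2 ⟨Finset.mem_univ (a, b), hne⟩)
      simp only [hab, if_true] at this
      exact this
  refine (avg_mono h1).trans ?_
  rw [avg_sum]
  have : ∀ ij ∈ (univ : Finset (Fin m × Fin m)).filter (fun ij => ij.1 ≠ ij.2),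
      avg (fun w : Fin m → E => if w ij.1 = w ij.2 then (1 : ℝ) else 0) =
        1 / Fintype.card E := by
    intro ij hij
    exact coll ij.1 ij.2 (Finset.mem_filter.1 hij).2
  rw [Finset.sum_congr rfl this, Finset.sum_const, nsmul_eq_mul, mul_one_div]
  apply div_le_div_of_nonneg_right _ hn0.le
  have h1 : ((univ : Finset (Fin m × Fin m)).filter (fun ij => ij.1 ≠ ij.2)).card ≤ m ^ 2 := by
    refine (Finset.card_filter_le _ _).trans ?_
    rw [Finset.card_univ, Fintype.card_prod, Fintype.card_fin, sq]
  exact_mod_cast h1

end TRANSaux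

open TRANSaux PINaux

open Classical in
theorem transfer {F : Type} [Field F] {E W : Type} [Fintype E] [AddCommGroup W] [Module F W]
    [FiniteDimensional F W] (vec : E → W) (s : ℝ) (h0 : 0 ≤ s) (h1 : s ≤ 1) (m : ℕ) (η : ℝ)
    (hm : m ≤ Fintype.card E)
    (hdef : bE s (fun G : Finset E => (G.card : ℝ) -
      Module.finrank F (Submodule.span F (vec '' (G : Set E)))) ≤ η)
    (hcard : 1 / 2 ≤ bE s (fun G : Finset E => if m ≤ G.card then (1 : ℝ) else 0)) :
    (m : ℝ) - Dm (F := F) vec m ≤ 2 * η + (m : ℝ) ^ 3 / Fintype.card E := by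
  have hds : ds F vec m ≤ 2 * η := ds_le (F := F) vec s h0 h1 m η hm hdef hcard
  rcases Nat.eq_zero_or_pos (Fintype.card E) with hE | hE
  · have hm0 : m = 0 := by omega
    subst hm0
    have h2 := ds_nonneg (F := F) vec 0
    have h3 : 0 ≤ Dm (F := F) vec 0 := avg_nonneg fun _ => Nat.cast_nonneg _
    simp only [Nat.cast_zero, ne_eq, OfNat.ofNat_ne_zero, not_false_eq_true, zero_pow, zero_div,
      add_zero, zero_sub]
    linarith
  · haveI : Nonempty E := Fintype.card_pos_iff.1 hE
    have hE' : (0 : ℝ) < Fintype.card E := by exact_mod_cast hE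
    have hNm : (0 : ℝ) < (Fintype.card E : ℝ) ^ m := by positivity
    have e1 : (m : ℝ) - Dm (F := F) vec m = avg (fun w : Fin m → E =>
        (m : ℝ) - (Module.finrank F (Submodule.span F (Set.range fun i => vec (w i))) : ℝ)) := by
      rw [avg_sub, avg_const]
      rfl
    rw [e1]
    have e2 : ∀ w : Fin m → E,
        (m : ℝ) - (Module.finrank F (Submodule.span F (Set.range fun i => vec (w i))) : ℝ) ≤
        (if Function.Injective w then
          (m : ℝ) - (Module.finrank F (Submodule.span F (Set.range fun i => vec (w i))) : ℝ)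
          else 0) + (m : ℝ) * (if Function.Injective w then (0 : ℝ) else 1) := by
      intro w
      have hr : (0 : ℝ) ≤ (Module.finrank F (Submodule.span F
        (Set.range fun i => vec (w i))) : ℝ) := Nat.cast_nonneg _
      split_ifs <;> linarith
    refine (avg_mono e2).trans ?_
    rw [avg_add]
    apply add_le_add
    · refine le_trans ?_ hds
      unfold avg
      rw [Fintype.card_fun, Fintype.card_fin, ← Finset.sum_filter, Nat.cast_pow, div_le_iff₀ hNm,
        mul_comm]
      exact inj_sum vec m hm
    · have h3 := not_inj_le (E := E) m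
      have h4 : avg (fun w : Fin m → E => (m : ℝ) * (if Function.Injective w then (0 : ℝ) else 1))
          = m * avg (fun w : Fin m → E => if Function.Injective w then (0 : ℝ) else 1) := by
        unfold avg
        rw [← Finset.mul_sum, mul_div_assoc]
      rw [h4]
      calc (m : ℝ) * avg (fun w : Fin m → E => if Function.Injective w then (0 : ℝ) else 1)
          ≤ m * ((m : ℝ) ^ 2 / Fintype.card E) :=
            mul_le_mul_of_nonneg_left h3 (Nat.cast_nonneg _)
        _ = (m : ℝ) ^ 3 / Fintype.card E := by ring

end Pool.Agent.Lib_helper39.UE
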