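import Pool.Agent.Lib_helper39.UE.SUM
import Pool.Agent.Lib_helper39.UE.TRANS
import Pool.Agent.Lib_helper39.UE.MONO
import Pool.Agent.Lib_helper39.UE.FRL
import Pool.Agent.Lib_helper39.UE.SMALL
import Pool.Agent.Lib_helper39.UE.COVER
import Pool.Agent.Lib_helper39.UE.PAIR
import Pool.Agent.Lib_helper39.UE.AN

set_option autoImplicit false

namespace Pool.Agent.Lib_helper39.UE

open Finset

namespace RankAux

theorem pr_le_add {α : Type} [Fintype α] {p q r : α → Prop} (h : ∀ x, p x → q x ∨ r x) :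
    pr p ≤ pr q + pr r := by
  classical
  unfold pr avg
  rw [← add_div, ← Finset.sum_add_distrib]
  apply div_le_div_of_nonneg_right _ (Nat.cast_nonneg _)
  refine Finset.sum_le_sum fun x _ => ?_
  have := h x
  by_cases h1 : p x <;> by_cases h2 : q x <;> by_cases h3 : r x <;> simp_all

theorem bE_sub {E : Type} [Fintype E] (s : ℝ) (f g : Finset E → ℝ) :
    bE s (fun G => f G - g G) = bE s f - bE s g := by
  have h := bE_add s f (fun G => (-1 : ℝ) * g G)
  rw [bE_mul] at h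
  have h2 : (fun G => f G - g G) = (fun G => f G + (-1 : ℝ) * g G) := by
    funext G; ring
  rw [h2, h]; ring

theorem bE_card {E : Type} [Fintype E] (s : ℝ) :
    bE s (fun G : Finset E => (G.card : ℝ)) = s * Fintype.card E := by
  have h := bE_count (E := E) s (fun _ => True)
  simpa using h

/-- Chebyshev -/
theorem cheb {E : Type} [Fintype E] (s : ℝ) (h0 : 0 ≤ s) (h1 : s ≤ 1) (m : ℕ) (μ t : ℝ)
    (hμ : μ = s * Fintype.card E) (ht : 0 < t) (hm : (m : ℝ) + t ≤ μ) :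
    1 - μ / t ^ 2 ≤ bE s (fun G : Finset E => if m ≤ G.card then (1 : ℝ) else 0) := by
  classical
  have hv : bE s (fun G : Finset E => ((G.card : ℝ) - μ) ^ 2) ≤ μ := by
    have e1 : (fun G : Finset E => ((G.card : ℝ) - μ) ^ 2) =
        (fun G => ((G.card : ℝ) ^ 2 + ((-2 * μ) * (G.card : ℝ))) + μ ^ 2) := by
      funext G; ring
    rw [e1, bE_add, bE_add, bE_mul, bE_card, bE_card_sq, bE_const, ← hμ]
    have e2 : s * (1 - s) * Fintype.card E = (1 - s) * μ := by rw [hμ]; ring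
    rw [e2]
    have hμ0 : 0 ≤ μ := by rw [hμ]; positivity
    nlinarith
  have hle : bE s (fun G : Finset E => t ^ 2 * (1 - if m ≤ G.card then (1 : ℝ) else 0)) ≤
      bE s (fun G : Finset E => ((G.card : ℝ) - μ) ^ 2) := by
    apply bE_mono h0 h1
    intro G
    by_cases h : m ≤ G.card
    · rw [if_pos h]; simp; positivity
    · rw [if_neg h]
      have h' : (G.card : ℝ) ≤ m := by
        have : G.card ≤ m := by omega
        exact_mod_cast this
      nlinarith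
  rw [bE_mul, bE_sub, bE_const] at hle
  have ht2 : 0 < t ^ 2 := by positivity
  have : t ^ 2 * (1 - bE s (fun G : Finset E => if m ≤ G.card then (1 : ℝ) else 0)) ≤ μ := by
    linarith
  have h3 : 1 - bE s (fun G : Finset E => if m ≤ G.card then (1 : ℝ) else 0) ≤ μ / t ^ 2 := by
    rw [le_div_iff₀ ht2]; linarith
  linarith

theorem N_lower {κ n : ℕ} (hκ : 2 ≤ κ) (hn : 2 * κ + 2 ≤ n) :
    ((n : ℝ) / 2) ^ 3 ≤ (n.descFactorial (κ + 1) : ℝ) := by
  have h1 : (n - κ) ^ (κ + 1) ≤ n.descFactorial (κ + 1) := by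
    have := Nat.pow_sub_le_descFactorial n (κ + 1)
    simpa using this
  have h2 : ((n : ℝ) / 2) ≤ ((n - κ : ℕ) : ℝ) := by
    rw [Nat.cast_sub (by omega)]
    have : (2 * (κ : ℝ) + 2) ≤ n := by exact_mod_cast hn
    linarith
  have h3 : (1 : ℝ) ≤ (n : ℝ) / 2 := by
    have : (2 * (κ : ℝ) + 2) ≤ n := by exact_mod_cast hn
    have : (0 : ℝ) ≤ κ := Nat.cast_nonneg _
    linarith
  calc ((n : ℝ) / 2) ^ 3 ≤ ((n : ℝ) / 2) ^ (κ + 1) := pow_le_pow_right₀ h3 (by omega)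
    _ ≤ (((n - κ : ℕ) : ℝ)) ^ (κ + 1) := pow_le_pow_left₀ (by linarith) h2 _
    _ = (((n - κ) ^ (κ + 1) : ℕ) : ℝ) := by push_cast; ring
    _ ≤ _ := by exact_mod_cast h1

/-- expected rank of independent uniform rows is almost full -/
theorem dm_lower {F : Type} [Field F] {κ : ℕ} (hκ : 2 ≤ κ) (lam : Fin (κ + 1) → F)
    (hlam : ∀ j, lam j ≠ 0) (c' : ℝ) (hc0 : 0 < c') (hc : ((κ : ℝ) + 1) * c' < dk (κ + 1))
    (η : ℝ) (hη : 0 < η) :
    ∃ n₀ : ℕ, ∀ n : ℕ, n₀ ≤ n → ∀ m : ℕ, (m : ℝ) ≤ c' * n →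
      (m : ℝ) - Dm (F := F) (row lam : (Fin (κ + 1) ↪ Fin n) → (Fin n → F)) m ≤ η * n := by
  classical
  have hκ0 : (0 : ℝ) < (κ : ℝ) + 1 := by positivity
  obtain ⟨c1, h1, h2⟩ : ∃ c1, c' < c1 ∧ c1 < dk (κ + 1) / ((κ : ℝ) + 1) := by
    apply _root_.exists_between
    rw [lt_div_iff₀ hκ0]; linarith
  have h2' : ((κ : ℝ) + 1) * c1 < dk (κ + 1) := by
    rw [lt_div_iff₀ hκ0] at h2; linarith
  have hc1 : 0 < c1 := lt_trans hc0 h1
  have hdk : dk (κ + 1) ≤ (κ : ℝ) + 1 := by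
    have := dk_le (κ + 1) (by omega)
    push_cast at this; exact this
  have hc1' : c1 < 1 := by
    by_contra hcon
    push Not at hcon
    nlinarith
  obtain ⟨n₁, hn₁⟩ := bern_rank hκ lam hlam c1 hc1 h2' (η / 8) (by positivity)
  obtain ⟨n₂, hn₂⟩ := exists_nat_gt (2 * c1 / (c1 - c') ^ 2)
  obtain ⟨n₃, hn₃⟩ := exists_nat_gt (16 / η)
  refine ⟨max (max n₁ n₂) (max n₃ (2 * κ + 4)), fun n hn m hm => ?_⟩
  have hna : n₁ ≤ n := le_trans (le_trans (le_max_left _ _) (le_max_left _ _)) hn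
  have hnb : n₂ ≤ n := le_trans (le_trans (le_max_right _ _) (le_max_left _ _)) hn
  have hnc : n₃ ≤ n := le_trans (le_trans (le_max_left _ _) (le_max_right _ _)) hn
  have hnd : 2 * κ + 4 ≤ n := le_trans (le_trans (le_max_right _ _) (le_max_right _ _)) hn
  have hn0 : (0 : ℝ) < n := by
    have : 0 < n := by omega
    exact_mod_cast this
  have hn8 : (8 : ℝ) ≤ n := by
    have : 8 ≤ n := by omega
    exact_mod_cast this
  set N : ℝ := (n.descFactorial (κ + 1) : ℝ) with hN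
  have hcardE : (Fintype.card (Fin (κ + 1) ↪ Fin n) : ℝ) = N := by
    rw [Fintype.card_embedding_eq]; simp [hN]
  have hNl : ((n : ℝ) / 2) ^ 3 ≤ N := N_lower hκ (by omega)
  have hN0 : 0 < N := lt_of_lt_of_le (by positivity) hNl
  have hNn : (n : ℝ) ≤ N := by
    have : (n : ℝ) ≤ ((n : ℝ) / 2) ^ 3 := by
      have e : ((n : ℝ) / 2) ^ 3 = n * (n ^ 2 / 8) := by ring
      rw [e]
      have : (1 : ℝ) ≤ (n : ℝ) ^ 2 / 8 := by nlinarith
      nlinarith
    linarith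
  set s : ℝ := c1 * n / N with hs
  have hs0 : 0 ≤ s := by positivity
  have hs1 : s ≤ 1 := by
    rw [hs, div_le_one hN0]
    nlinarith
  have hsN : s * N = c1 * n := by rw [hs]; field_simp
  have hmn : (m : ℝ) ≤ n := by nlinarith
  have hmcard : m ≤ Fintype.card (Fin (κ + 1) ↪ Fin n) := by
    have : (m : ℝ) ≤ (Fintype.card (Fin (κ + 1) ↪ Fin n) : ℝ) := by
      rw [hcardE]; linarith
    exact_mod_cast this
  have hdef : bE s (fun G : Finset (Fin (κ + 1) ↪ Fin n) => (G.card : ℝ) -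
      Module.finrank F (Submodule.span F ((row lam : (Fin (κ + 1) ↪ Fin n) → (Fin n → F)) ''
        (G : Set (Fin (κ + 1) ↪ Fin n))))) ≤ η / 8 * n := by
    rw [bE_sub, bE_card, hcardE, hsN]
    have := hn₁ n hna
    have e : bE s (fun G : Finset (Fin (κ + 1) ↪ Fin n) =>
        (Module.finrank F (Submodule.span F ((row lam : (Fin (κ + 1) ↪ Fin n) → (Fin n → F)) ''
        (G : Set (Fin (κ + 1) ↪ Fin n)))) : ℝ)) =
        bE (c1 * n / n.descFactorial (κ + 1))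
          (fun G : Finset (Fin (κ + 1) ↪ Fin n) => (Module.finrank F (rs lam G) : ℝ)) := rfl
    rw [e]
    nlinarith
  have hcard : 1 / 2 ≤ bE s (fun G : Finset (Fin (κ + 1) ↪ Fin n) =>
      if m ≤ G.card then (1 : ℝ) else 0) := by
    have hcc : 0 < c1 - c' := by linarith
    have h := cheb (E := (Fin (κ + 1) ↪ Fin n)) s hs0 hs1 m (c1 * n) ((c1 - c') * n)
      (by rw [hcardE, hsN]) (by positivity) (by linarith)
    have h5 : c1 * n / ((c1 - c') * n) ^ 2 ≤ 1 / 2 := by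
      rw [div_le_div_iff₀ (by positivity) (by norm_num)]
      have h6 : 2 * c1 / (c1 - c') ^ 2 < n := lt_of_lt_of_le hn₂ (by exact_mod_cast hnb)
      rw [div_lt_iff₀ (by positivity)] at h6
      nlinarith
    linarith
  have htr := transfer (F := F) (row lam : (Fin (κ + 1) ↪ Fin n) → (Fin n → F)) s hs0 hs1 m
    (η / 8 * n) hmcard hdef (by convert hcard)
  rw [hcardE] at htr
  have h7 : (m : ℝ) ^ 3 / N ≤ 8 := by
    rw [div_le_iff₀ hN0]
    have h8 : (m : ℝ) ^ 3 ≤ (n : ℝ) ^ 3 := pow_le_pow_left₀ (Nat.cast_nonneg _) hmn 3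
    have h9 : (n : ℝ) ^ 3 = 8 * ((n : ℝ) / 2) ^ 3 := by ring
    linarith
  have h10 : 16 < η * n := by
    have : 16 / η < n := lt_of_lt_of_le hn₃ (by exact_mod_cast hnc)
    rw [div_lt_iff₀ hη] at this
    linarith
  linarith

/-- a new row is rarely dependent -/
theorem pm_small {F : Type} [Field F] {κ : ℕ} (hκ : 2 ≤ κ) (lam : Fin (κ + 1) → F)
    (hlam : ∀ j, lam j ≠ 0) (c₀ : ℝ) (hc0 : 0 < c₀) (hc : ((κ : ℝ) + 1) * c₀ < dk (κ + 1))
    (η : ℝ) (hη : 0 < η) :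
    ∃ n₀ : ℕ, ∀ n : ℕ, n₀ ≤ n → ∀ m : ℕ, (m : ℝ) ≤ c₀ * n →
      pm F (row lam : (Fin (κ + 1) ↪ Fin n) → (Fin n → F)) m ≤ η := by
  classical
  have hκ0 : (0 : ℝ) < (κ : ℝ) + 1 := by positivity
  obtain ⟨c1, h1, h2⟩ : ∃ c1, c₀ < c1 ∧ c1 < dk (κ + 1) / ((κ : ℝ) + 1) := by
    apply _root_.exists_between
    rw [lt_div_iff₀ hκ0]; linarith
  have h2' : ((κ : ℝ) + 1) * c1 < dk (κ + 1) := by
    rw [lt_div_iff₀ hκ0] at h2; linarith
  have hc1 : 0 < c1 := lt_trans hc0 h1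
  have hcc : 0 < c1 - c₀ := by linarith
  obtain ⟨n₁, hn₁⟩ := dm_lower hκ lam hlam c1 hc1 h2' (η * (c1 - c₀) / 2) (by positivity)
  obtain ⟨n₂, hn₂⟩ := exists_nat_gt (2 / (c1 - c₀))
  refine ⟨max (max n₁ n₂) (κ + 1), fun n hn m hm => ?_⟩
  have hna : n₁ ≤ n := le_trans (le_trans (le_max_left _ _) (le_max_left _ _)) hn
  have hnb : n₂ ≤ n := le_trans (le_trans (le_max_right _ _) (le_max_left _ _)) hn
  have hnd : κ + 1 ≤ n := le_trans (le_max_right _ _) hn
  have hn0 : (0 : ℝ) < n := by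
    have : 0 < n := by omega
    exact_mod_cast this
  have hne : Nonempty (Fin (κ + 1) ↪ Fin n) := ⟨Fin.castLEEmb hnd⟩
  set vec := (row lam : (Fin (κ + 1) ↪ Fin n) → (Fin n → F)) with hvec
  have hsum : ∀ M : ℕ, ∑ j ∈ range M, pm F vec j = M - Dm (F := F) vec M := by
    intro M
    induction M with
    | zero => simp [Dm_zero]
    | succ M ih =>
        rw [Finset.sum_range_succ, ih, Dm_succ]; push_cast; ring
  set m1 : ℕ := ⌊c1 * n⌋₊ with hm1
  have hm1le : (m1 : ℝ) ≤ c1 * n := Nat.floor_le (by positivity)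
  have hm1ge : c1 * n - 1 < m1 := Nat.sub_one_lt_floor _
  have h3 : 2 < (c1 - c₀) * n := by
    have : 2 / (c1 - c₀) < n := lt_of_lt_of_le hn₂ (by exact_mod_cast hnb)
    rw [div_lt_iff₀ hcc] at this
    linarith
  have hmm : m ≤ m1 := by
    have : (m : ℝ) < m1 := by nlinarith
    exact_mod_cast this.le
  have hD := hn₁ n hna m1 hm1le
  rw [← hvec, ← hsum] at hD
  have hsub : ((m1 : ℝ) - m) * pm F vec m ≤ ∑ j ∈ range m1, pm F vec j := by
    calc ((m1 : ℝ) - m) * pm F vec m = ∑ _j ∈ Ico m m1, pm F vec m := by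
          rw [Finset.sum_const, Nat.card_Ico, nsmul_eq_mul, Nat.cast_sub hmm]
      _ ≤ ∑ j ∈ Ico m m1, pm F vec j :=
          Finset.sum_le_sum fun j hj => pm_mono vec (Finset.mem_Ico.1 hj).1
      _ ≤ ∑ j ∈ range m1, pm F vec j := by
          apply Finset.sum_le_sum_of_subset_of_nonneg
          · intro j hj
            rw [Finset.mem_Ico] at hj
            exact Finset.mem_range.2 hj.2
          · intro j _ _
            exact pm_nonneg vec j
  have h4 : (c1 - c₀) * n / 2 ≤ (m1 : ℝ) - m := by nlinarith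
  have h5 : (c1 - c₀) * n / 2 * pm F vec m ≤ η * (c1 - c₀) / 2 * n :=
    le_trans (mul_le_mul_of_nonneg_right h4 (pm_nonneg vec m)) (le_trans hsub hD)
  have h6 : (c1 - c₀) * n / 2 * pm F vec m ≤ (c1 - c₀) * n / 2 * η := by linarith
  exact le_of_mul_le_mul_left h6 (by positivity)

end RankAux

open RankAux

open Classical in
theorem rank_theorem {F : Type} [Field F] {κ : ℕ} (hκ : 2 ≤ κ) (lam : Fin (κ + 1) → F)
    (hlam : ∀ j, lam j ≠ 0) (c₀ : ℝ) (hc : ((κ : ℝ) + 1) * c₀ < dk (κ + 1))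
    (δ : ℝ) (hδ : 0 < δ) :
    ∃ n₀ : ℕ, ∀ n : ℕ, n₀ ≤ n → ∀ m : ℕ, (m : ℝ) ≤ c₀ * n →
      pr (fun w : Fin m → (Fin (κ + 1) ↪ Fin n) =>
        ¬ (LinearIndependent F (fun i => row lam (w i)) ∧
          ((univ.filter (fun uv : Fin n × Fin n => BadPair lam w uv.1 uv.2)).card : ℝ)
            ≤ δ * (n : ℝ) ^ 2)) ≤ δ := by
  have hκ0 : (0 : ℝ) < (κ : ℝ) + 1 := by positivity
  have hdk : dk (κ + 1) ≤ (κ : ℝ) + 1 := by
    have := dk_le (κ + 1) (by omega)
    push_cast at this; exact this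
  by_cases hneg : c₀ < 0
  · refine ⟨1, fun n hn m hm => ?_⟩
    exfalso
    have : (1 : ℝ) ≤ n := by exact_mod_cast hn
    have : (0 : ℝ) ≤ m := Nat.cast_nonneg _
    nlinarith
  push Not at hneg
  -- a slightly larger density
  obtain ⟨c1, h1, h2⟩ : ∃ c1, c₀ < c1 ∧ c1 < dk (κ + 1) / ((κ : ℝ) + 1) := by
    apply _root_.exists_between
    rw [lt_div_iff₀ hκ0]; linarith
  have h2' : ((κ : ℝ) + 1) * c1 < dk (κ + 1) := by
    rw [lt_div_iff₀ hκ0] at h2; linarith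
  have hc1 : 0 < c1 := lt_of_le_of_lt hneg h1
  have hc1' : c1 < 1 := by
    by_contra hcon
    push Not at hcon
    nlinarith
  obtain ⟨δ₁, hδ₁, hsmall⟩ := small_circuits (k := κ + 1) (by omega)
  obtain ⟨n₁, hn₁⟩ := hsmall (δ / 4) (by positivity)
  set A : ℝ := ((δ / 4) ^ (κ + 1)) ^ 2 with hA
  have hA0 : 0 < A := by positivity
  set η : ℝ := min (δ₁ * δ / 4) (A * δ / 8) with hη
  have hη0 : 0 < η := by positivity
  obtain ⟨n₂, hn₂⟩ := pm_small hκ lam hlam c1 hc1 h2' η hη0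
  obtain ⟨n₃, hn₃⟩ := exists_nat_gt (1 / (c1 - c₀))
  obtain ⟨n₄, hn₄⟩ := exists_nat_gt ((4 * ((κ + 1 : ℕ) : ℝ) + 4) / δ)
  refine ⟨max (max n₁ n₂) (max (max n₃ n₄) (κ + 1)), fun n hn m hm => ?_⟩
  have hna : n₁ ≤ n := le_trans (le_trans (le_max_left _ _) (le_max_left _ _)) hn
  have hnb : n₂ ≤ n := le_trans (le_trans (le_max_right _ _) (le_max_left _ _)) hn
  have hnc : n₃ ≤ n := le_trans (le_trans (le_trans (le_max_left _ _) (le_max_left _ _))
    (le_max_right _ _)) hn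
  have hnc' : n₄ ≤ n := le_trans (le_trans (le_trans (le_max_right _ _) (le_max_left _ _))
    (le_max_right _ _)) hn
  have hnd : κ + 1 ≤ n := le_trans (le_trans (le_max_right _ _) (le_max_right _ _)) hn
  have hn0 : (0 : ℝ) < n := by
    have : 0 < n := by omega
    exact_mod_cast this
  have hne : Nonempty (Fin (κ + 1) ↪ Fin n) := ⟨Fin.castLEEmb hnd⟩
  have hcc : 0 < c1 - c₀ := by linarith
  have h3 : 1 < (c1 - c₀) * n := by
    have : 1 / (c1 - c₀) < n := lt_of_lt_of_le hn₃ (by exact_mod_cast hnc)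
    rw [div_lt_iff₀ hcc] at this
    linarith
  have h4 : 4 * ((κ + 1 : ℕ) : ℝ) + 4 ≤ δ * n := by
    have : (4 * ((κ + 1 : ℕ) : ℝ) + 4) / δ < n := lt_of_lt_of_le hn₄ (by exact_mod_cast hnc')
    rw [div_lt_iff₀ hδ] at this
    linarith
  have hmn : (m : ℝ) ≤ n := by nlinarith
  have hmn' : m ≤ n := by exact_mod_cast hmn
  set vec := (row lam : (Fin (κ + 1) ↪ Fin n) → (Fin n → F)) with hvec
  have hp0 : pm F vec m ≤ η := hn₂ n hnb m (by nlinarith)
  have hp1 : pm F vec (m + 1) ≤ η := hn₂ n hnb (m + 1) (by push_cast; nlinarith)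
  -- the pieces
  set P1 : (Fin m → (Fin (κ + 1) ↪ Fin n)) → Prop := fun w =>
    ∃ b : Fin m → F, ∑ i, b i • vec (w i) = 0 ∧
      δ₁ * n ≤ ((univ.filter (fun i => b i ≠ 0)).card : ℝ) with hP1
  set P2 : (Fin m → (Fin (κ + 1) ↪ Fin n)) → Prop := fun w =>
    ∃ C : Finset (Fin m), C.Nonempty ∧ (C.card : ℝ) ≤ δ₁ * n ∧
      2 * (univ.filter (fun v => ∃ i ∈ C, ∃ j, w i j = v)).card ≤ (κ + 1) * C.card with hP2
  set P3 : (Fin m → (Fin (κ + 1) ↪ Fin n)) → Prop := fun w =>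
    δ * (n : ℝ) ^ 2 ≤ ((univ.filter (fun uv : Fin n × Fin n =>
      BadPair lam w uv.1 uv.2)).card : ℝ) with hP3
  have hb1 : pr P1 ≤ δ / 4 := by
    have h5 := frl (F := F) vec m (δ₁ * n) (by positivity)
    have h6 : (m : ℝ) * pm F vec m / (δ₁ * n) ≤ δ / 4 := by
      rw [div_le_iff₀ (by positivity)]
      have h7 : η ≤ δ₁ * δ / 4 := min_le_left _ _
      have h8 : (m : ℝ) * pm F vec m ≤ n * (δ₁ * δ / 4) :=
        mul_le_mul hmn (le_trans hp0 h7) (pm_nonneg vec m) hn0.le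
      linarith
    exact le_trans (by convert h5) h6
  have hb2 : pr P2 ≤ δ / 4 := by
    have := hn₁ n hna m hmn'
    convert this
  have hb3 : pr P3 ≤ δ / 4 := by
    have h5 := pair_block (F := F) lam n m δ hδ h4
    have h6 : pr P3 * A ≤ 2 * η := by
      have h5' : pr P3 * A ≤ pm F vec m + pm F vec (m + 1) := by convert h5
      linarith
    have h7 : η ≤ A * δ / 8 := min_le_right _ _
    have h8 : pr P3 * A ≤ δ / 4 * A := by linarith
    exact le_of_mul_le_mul_right h8 hA0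
  have hall : pr (fun w : Fin m → (Fin (κ + 1) ↪ Fin n) =>
        ¬ (LinearIndependent F (fun i => row lam (w i)) ∧
          ((univ.filter (fun uv : Fin n × Fin n => BadPair lam w uv.1 uv.2)).card : ℝ)
            ≤ δ * (n : ℝ) ^ 2)) ≤ pr (fun w => P1 w ∨ P2 w) + pr P3 := by
    apply pr_le_add
    intro w hw
    by_cases hli : LinearIndependent F (fun i => row lam (w i))
    · right
      by_contra hcon
      apply hw
      refine ⟨hli, ?_⟩
      have : ¬ (δ * (n : ℝ) ^ 2 ≤ ((univ.filter (fun uv : Fin n × Fin n =>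
        BadPair lam w uv.1 uv.2)).card : ℝ)) := hcon
      push Not at this
      exact this.le
    · left
      rw [Fintype.not_linearIndependent_iff] at hli
      obtain ⟨b, hb, i, hi⟩ := hli
      by_cases hbig : δ₁ * n ≤ ((univ.filter (fun i => b i ≠ 0)).card : ℝ)
      · left
        exact ⟨b, hb, hbig⟩
      · right
        push Not at hbig
        refine ⟨univ.filter (fun i => b i ≠ 0), ⟨i, by simp [hi]⟩, hbig.le, ?_⟩
        exact cover lam hlam w b hb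
  have h12 : pr (fun w => P1 w ∨ P2 w) ≤ pr P1 + pr P2 := pr_le_add fun w h => h
  linarith

end Pool.Agent.Lib_helper39.UE
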