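import Pool.Agent.Lib_helper39.UE.BERN
import Pool.Agent.Lib_helper39.UE.INC

set_option autoImplicit false

namespace Pool.Agent.Lib_helper39.UE

open Finset

theorem avg_equiv72 {α β : Type} [Fintype α] [Fintype β] (e : α ≃ β) (f : β → ℝ) :
    avg (fun x => f (e x)) = avg f := by
  unfold avg
  rw [Equiv.sum_comp e f, Fintype.card_congr e]

theorem avg_mono72 {α : Type} [Fintype α] {f g : α → ℝ} (h : ∀ x, f x ≤ g x) :
    avg f ≤ avg g := by
  unfold avg
  exact div_le_div_of_nonneg_right (Finset.sum_le_sum fun x _ => h x) (Nat.cast_nonneg _)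

theorem avg_const72 {α : Type} [Fintype α] [Nonempty α] (c : ℝ) :
    avg (fun _ : α => c) = c := by
  unfold avg
  rw [Finset.sum_const, Finset.card_univ, nsmul_eq_mul, mul_comm, mul_div_assoc,
    div_self, mul_one]
  exact_mod_cast Fintype.card_ne_zero

/-- transport of functions along an equivalence of index types -/
def tr72 (F : Type) [CommRing F] {V V' : Type} (e : V ≃ V') : (V → F) ≃ₗ[F] (V' → F) :=
  LinearEquiv.funCongrLeft F F e.symm

theorem tr72_single {F : Type} [CommRing F] {V V' : Type} [DecidableEq V] [DecidableEq V']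
    (e : V ≃ V') (v : V) (c : F) :
    tr72 F e (Pi.single v c) = Pi.single (e v) c := by
  funext t
  show (Pi.single v c : V → F) (e.symm t) = _
  by_cases h : t = e v
  · subst h; simp
  · rw [Pi.single_eq_of_ne h, Pi.single_eq_of_ne]
    intro h'
    exact h (by rw [← h']; simp)

theorem tr72_row {F : Type} [CommRing F] {k : ℕ} {V V' : Type} [DecidableEq V] [DecidableEq V']
    (lam : Fin k → F) (e : V ≃ V') (x : Fin k ↪ V) :
    tr72 F e (row lam x) = row lam ((Equiv.embeddingCongr (Equiv.refl _) e) x) := by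
  unfold row
  rw [map_sum]
  refine Finset.sum_congr rfl fun j _ => ?_
  rw [tr72_single]
  rfl

theorem EA_equiv {F : Type} [Field F] {k : ℕ} (lam : Fin k → F) {V V' : Type} [Fintype V]
    [DecidableEq V] [Fintype V'] [DecidableEq V'] (e : V ≃ V') (s : ℝ) (θ : ℕ) :
    EA lam V s θ = EA lam V' s θ := by
  unfold EA
  rw [← avg_equiv72 (Equiv.arrowCongr (Equiv.refl (Fin θ)) e)]
  congr 1
  funext p
  rw [bE_equiv (Equiv.embeddingCongr (Equiv.refl (Fin k)) e)]
  congr 1
  funext G
  congr 1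
  let T := tr72 F e
  have h1 : (rs lam G ⊔ pins p : Submodule F (V → F)).map (T : (V → F) →ₗ[F] (V' → F)) =
      rs lam (G.map (Equiv.embeddingCongr (Equiv.refl (Fin k)) e).toEmbedding) ⊔
        pins ((Equiv.arrowCongr (Equiv.refl (Fin θ)) e) p) := by
    rw [Submodule.map_sup]
    congr 1
    · unfold rs
      rw [Submodule.map_span]
      congr 1
      ext y
      simp only [Set.mem_image, Finset.mem_coe, Finset.mem_map]
      constructor
      · rintro ⟨_, ⟨x, hx, rfl⟩, rfl⟩
        exact ⟨_, ⟨x, hx, rfl⟩, (tr72_row lam e x).symm⟩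
      · rintro ⟨_, ⟨x, hx, rfl⟩, rfl⟩
        exact ⟨_, ⟨x, hx, rfl⟩, tr72_row lam e x⟩
    · unfold pins
      rw [Submodule.map_span]
      congr 1
      ext y
      simp only [Set.mem_image, Set.mem_range]
      constructor
      · rintro ⟨_, ⟨i, rfl⟩, rfl⟩
        exact ⟨i, (tr72_single e (p i) 1).symm⟩
      · rintro ⟨i, rfl⟩
        exact ⟨_, ⟨i, rfl⟩, tr72_single e (p i) 1⟩
  rw [← h1]
  exact (LinearEquiv.finrank_map_eq T _).symm

theorem desc_big {κ : ℕ} (hκ : 2 ≤ κ) (c : ℝ) (hc : 0 < c) :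
    ∃ n₁ : ℕ, 0 < n₁ ∧ ∀ n : ℕ, n₁ ≤ n → 0 ≤ c * n / n.descFactorial (κ + 1) ∧
      c * n / n.descFactorial (κ + 1) ≤ 1 := by
  obtain ⟨M, hM⟩ := exists_nat_ge c
  refine ⟨M + κ + 1, by omega, fun n hn => ⟨by positivity, ?_⟩⟩
  obtain ⟨n', rfl⟩ : ∃ n', n = n' + 1 := ⟨n - 1, by omega⟩
  rw [Nat.succ_descFactorial_succ]
  have h1 : n' + 1 - κ ≤ n'.descFactorial κ := by
    calc n' + 1 - κ ≤ (n' + 1 - κ) ^ κ := Nat.le_self_pow (by omega) _
      _ ≤ n'.descFactorial κ := Nat.pow_sub_le_descFactorial n' κ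
  have h2 : (M : ℝ) ≤ n'.descFactorial κ := by
    have : M ≤ n'.descFactorial κ := by omega
    exact_mod_cast this
  have h3 : c ≤ n'.descFactorial κ := hM.trans h2
  have h4 : (0 : ℝ) < n'.descFactorial κ := lt_of_lt_of_le hc h3
  have h5 : (0 : ℝ) < ((n' + 1 : ℕ) : ℝ) := by positivity
  rw [div_le_one (by push_cast; positivity)]
  push_cast
  have : ((n' : ℝ) + 1) * c ≤ ((n' : ℝ) + 1) * n'.descFactorial κ :=
    mul_le_mul_of_nonneg_left h3 (by positivity)
  linarith

theorem EA_nonneg {F : Type} [Field F] {k : ℕ} (lam : Fin k → F) (V : Type) [Fintype V]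
    [DecidableEq V] (s : ℝ) (h0 : 0 ≤ s) (h1 : s ≤ 1) (θ : ℕ) : 0 ≤ EA lam V s θ := by
  unfold EA avg
  refine div_nonneg (Finset.sum_nonneg fun p _ => ?_) (Nat.cast_nonneg _)
  unfold bE
  refine Finset.sum_nonneg fun G _ => ?_
  have : 0 ≤ 1 - s := by linarith
  positivity

theorem EA_le {F : Type} [Field F] {k : ℕ} (lam : Fin k → F) (V : Type) [Fintype V] [Nonempty V]
    [DecidableEq V] (s : ℝ) (h0 : 0 ≤ s) (h1 : s ≤ 1) (θ : ℕ) :
    EA lam V s θ ≤ bE s (fun G : Finset (Fin k ↪ V) => (Module.finrank F (rs lam G) : ℝ)) + θ := by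
  classical
  unfold EA
  have hpt : ∀ p : Fin θ → V, bE s (fun G : Finset (Fin k ↪ V) =>
      (Module.finrank F (rs lam G ⊔ pins p : Submodule F (V → F)) : ℝ)) ≤
      bE s (fun G : Finset (Fin k ↪ V) => (Module.finrank F (rs lam G) : ℝ)) + θ := by
    intro p
    calc _ ≤ bE s (fun G : Finset (Fin k ↪ V) => (Module.finrank F (rs lam G) : ℝ) + θ) := by
          refine bE_mono h0 h1 fun G => ?_
          have hA := Submodule.finrank_add_le_finrank_add_finrank (rs lam G)
            (pins (F := F) p)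
          have hB : Module.finrank F (pins (F := F) p : Submodule F (V → F)) ≤ θ := by
            unfold pins
            have := finrank_range_le_card (R := F) (fun i => (Pi.single (p i) 1 : V → F))
            simpa [Set.finrank] using this
          have : Module.finrank F (rs lam G ⊔ pins p : Submodule F (V → F)) ≤
              Module.finrank F (rs lam G) + θ := hA.trans (by omega)
          exact_mod_cast this
      _ = _ := by rw [bE_add, bE_const]
  calc _ ≤ avg (fun _ : Fin θ → V =>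
        bE s (fun G : Finset (Fin k ↪ V) => (Module.finrank F (rs lam G) : ℝ)) + θ) :=
        avg_mono72 hpt
    _ = _ := avg_const72 _

theorem bern_rank {F : Type} [Field F] {κ : ℕ} (hκ : 2 ≤ κ) (lam : Fin (κ + 1) → F)
    (hlam : ∀ j, lam j ≠ 0) (c : ℝ) (hc : 0 < c) (hd : ((κ : ℝ) + 1) * c < dk (κ + 1))
    (ε : ℝ) (hε : 0 < ε) :
    ∃ n₀ : ℕ, ∀ n : ℕ, n₀ ≤ n →
      (c - ε) * n ≤ bE (c * n / n.descFactorial (κ + 1))
        (fun G : Finset (Fin (κ + 1) ↪ Fin n) => (Module.finrank F (rs lam G) : ℝ)) := by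
  obtain ⟨T, hT, n₀, hinc⟩ := inc_main hκ lam hlam c hc hd (ε / 2) (by positivity)
  obtain ⟨n₁, hn₁, hs⟩ := desc_big hκ c hc
  let N := max n₀ n₁
  let A : ℕ → ℝ := fun n => ∑ θ ∈ range T, EA lam (Fin n) (c * n / n.descFactorial (κ + 1)) θ
  have hTr : (0 : ℝ) < T := by exact_mod_cast hT
  have hstep : ∀ n, N ≤ n → A n + T * (c - ε / 2) ≤ A (n + 1) := by
    intro n hn
    have h := hinc (Fin n) (by simpa using (le_max_left _ _).trans hn)
    rw [Finset.sum_sub_distrib] at h
    have e1 : ∀ θ, EA lam (Option (Fin n)) (c / (Fintype.card (Fin n)).descFactorial κ) θ =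
        EA lam (Fin (n + 1)) (c * ((n + 1 : ℕ) : ℝ) / (n + 1).descFactorial (κ + 1)) θ := by
      intro θ
      rw [EA_equiv lam (finSuccEquiv n).symm]
      congr 1
      rw [Fintype.card_fin, Nat.succ_descFactorial_succ]
      have h5 : ((n + 1 : ℕ) : ℝ) ≠ 0 := by positivity
      push_cast at h5 ⊢
      rw [mul_comm c, mul_div_mul_left _ _ h5]
    rw [Finset.sum_congr rfl fun θ _ => e1 θ] at h
    simp only [Fintype.card_fin] at h
    show ∑ θ ∈ range T, EA lam (Fin n) (c * n / n.descFactorial (κ + 1)) θ + T * (c - ε / 2) ≤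
      ∑ θ ∈ range T, EA lam (Fin (n + 1))
        (c * ((n + 1 : ℕ) : ℝ) / (n + 1).descFactorial (κ + 1)) θ
    linarith
  have hA0 : 0 ≤ A N := by
    refine Finset.sum_nonneg fun θ _ => ?_
    have := hs N (le_max_right _ _)
    exact EA_nonneg lam _ _ this.1 this.2 θ
  have hlin : ∀ j : ℕ, T * (c - ε / 2) * j ≤ A (N + j) := by
    intro j
    induction j with
    | zero => simpa using hA0
    | succ j ih =>
      have := hstep (N + j) (by omega)
      have e : A (N + (j + 1)) = A (N + j + 1) := rfl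
      rw [e]
      push_cast
      linarith
  obtain ⟨M, hM⟩ := exists_nat_ge ((c * N + T) / (ε / 2))
  refine ⟨max N M, fun n hn => ?_⟩
  have hnN : N ≤ n := (le_max_left _ _).trans hn
  have hnM : M ≤ n := (le_max_right _ _).trans hn
  have hsn := hs n ((le_max_right _ _).trans hnN)
  have hnpos : 0 < n := lt_of_lt_of_le (lt_of_lt_of_le hn₁ (le_max_right _ _)) hnN
  have : Nonempty (Fin n) := ⟨⟨0, hnpos⟩⟩
  set B := bE (c * n / n.descFactorial (κ + 1))
        (fun G : Finset (Fin (κ + 1) ↪ Fin n) => (Module.finrank F (rs lam G) : ℝ)) with hB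
  have hup : A n ≤ T * (B + T) := by
    calc A n ≤ ∑ θ ∈ range T, (B + T) := by
          refine Finset.sum_le_sum fun θ hθ => ?_
          have h1 := EA_le lam (Fin n) _ hsn.1 hsn.2 θ
          have h2 : (θ : ℝ) ≤ T := by exact_mod_cast (Finset.mem_range.1 hθ).le
          linarith
      _ = T * (B + T) := by rw [Finset.sum_const, Finset.card_range, nsmul_eq_mul]
  have hlow := hlin (n - N)
  rw [Nat.add_sub_cancel' hnN, Nat.cast_sub hnN] at hlow
  have h3 : T * ((c - ε / 2) * (n - N)) ≤ T * (B + T) := by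
    calc _ = T * (c - ε / 2) * (n - N) := by ring
      _ ≤ _ := hlow.trans hup
  have h4 : (c - ε / 2) * (n - N) ≤ B + T := le_of_mul_le_mul_left h3 hTr
  have h5 : c * N + T ≤ (ε / 2) * n := by
    have : (c * N + T) / (ε / 2) ≤ n := hM.trans (by exact_mod_cast hnM)
    rw [div_le_iff₀ (by positivity)] at this
    linarith
  have h6 : 0 ≤ ε / 2 * (N : ℝ) := by positivity
  nlinarith

end Pool.Agent.Lib_helper39.UE
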